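import Pool.Agent.Lib.MP_a9e7ee_nt.Stmt

-- part Pool.Agent.Lib.MP_a9e7ee_nt.Defs
section

/-!
Auxiliary definitions for MP_a9e7ee_nt: the coin model, the renewal walk, the phase systems.
-/

namespace Pool.Agent.Lib.MP_a9e7ee_nt

/-- Expectation over the coins `t, ..., t + n - 1` (heads with probability `ρ`), the other coins
being those of `ω`. -/
noncomputable def E (ρ : ℝ) : ℕ → ℕ → ((ℕ → Bool) → ℝ) → (ℕ → Bool) → ℝ
  | _, 0, f, ω => f ω
  | t, n + 1, f, ω => ρ * E ρ (t + 1) n f (Function.update ω t true) +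
      (1 - ρ) * E ρ (t + 1) n f (Function.update ω t false)

/-- The number of heads before time `t`. -/
def pos (ω : ℕ → Bool) (t : ℕ) : ℕ := ((Finset.range t).filter fun j => ω j = true).card

/-- A phase system: a step to the right multiplies by 3, a step down multiplies by 2. -/
def Sys (θ : ℕ × ℕ → UnitAddCircle) : Prop :=
  (∀ x y, θ (x + 1, y) = 3 • θ (x, y)) ∧ ∀ x y, θ (x, y) = 2 • θ (x, y + 1)

/-- White points. -/
def White (θ : ℕ × ℕ → UnitAddCircle) (P : ℕ × ℕ) : Prop := 1 / 10 ≤ ‖θ P‖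

open Classical in
/-- The number of white times in `[a, b)` on the path `X`. -/
noncomputable def Wc (θ : ℕ × ℕ → UnitAddCircle) (X : ℕ → ℕ) (a b : ℕ) : ℕ :=
  ((Finset.Ico a b).filter fun t => White θ (X t, t)).card

/-- The inverse of `2^s` modulo `3^i`, in `(0, 3^i]`. -/
noncomputable def mm (i s : ℕ) : ℤ :=
  (3 ^ i * ((PadicInt.toZModPow (p := 2) s (-(Ring.inverse (3 : ℤ_[2])) ^ i)).val : ℤ) + 1) / 2 ^ s

/-- The basic phase system. -/
noncomputable def beta (k p : ℕ) (P : ℕ × ℕ) : UnitAddCircle :=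
  (((3 : ℝ) ^ P.1 * (mm k (P.2 + p + 5) : ℝ) / 3 ^ k : ℝ) : UnitAddCircle)

/-- The phase system of the frequency `l`. -/
noncomputable def theta (k p : ℕ) (l : ℤ) (P : ℕ × ℕ) : UnitAddCircle := l • beta k p P

end Pool.Agent.Lib.MP_a9e7ee_nt
end

-- part Pool.Agent.Lib.MP_a9e7ee_nt.Prob
section

/-!
The coin model: linearity, monotonicity, tower property, law of the walk.
-/

namespace Pool.Agent.Lib.MP_a9e7ee_nt

open Finset

/-- Agreement of two coin sequences before time `t`. -/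
def Agr (t : ℕ) (ω ω' : ℕ → Bool) : Prop := ∀ j, j < t → ω' j = ω j

theorem Agr.refl (t : ℕ) (ω : ℕ → Bool) : Agr t ω ω := fun _ _ => rfl

theorem Agr.symm {t : ℕ} {ω ω' : ℕ → Bool} (h : Agr t ω ω') : Agr t ω' ω :=
  fun j hj => (h j hj).symm

theorem Agr.trans {t : ℕ} {ω ω' ω'' : ℕ → Bool} (h : Agr t ω ω') (h' : Agr t ω' ω'') :
    Agr t ω ω'' := fun j hj => (h' j hj).trans (h j hj)

theorem Agr.mono {t u : ℕ} {ω ω' : ℕ → Bool} (h : Agr t ω ω') (hu : u ≤ t) : Agr u ω ω' :=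
  fun j hj => h j (by omega)

theorem agr_update (t : ℕ) (ω : ℕ → Bool) (b : Bool) : Agr t ω (Function.update ω t b) :=
  fun j hj => Function.update_of_ne (by omega) _ _

theorem pos_congr {t u : ℕ} {ω ω' : ℕ → Bool} (h : Agr t ω ω') (hu : u ≤ t) :
    pos ω' u = pos ω u := by
  unfold pos
  congr 1
  refine filter_congr fun j hj => ?_
  rw [h j (by have := mem_range.mp hj; omega)]

theorem pos_zero (ω : ℕ → Bool) : pos ω 0 = 0 := by simp [pos]

theorem pos_succ (ω : ℕ → Bool) (t : ℕ) :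
    pos ω (t + 1) = pos ω t + if ω t = true then 1 else 0 := by
  unfold pos
  rw [range_add_one, filter_insert]
  split_ifs with h
  · rw [card_insert_of_notMem (by simp)]
  · simp

theorem pos_update_true (ω : ℕ → Bool) (t : ℕ) :
    pos (Function.update ω t true) (t + 1) = pos ω t + 1 := by
  rw [pos_succ, pos_congr (agr_update t ω true) le_rfl]; simp

theorem pos_update_false (ω : ℕ → Bool) (t : ℕ) :
    pos (Function.update ω t false) (t + 1) = pos ω t := by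
  rw [pos_succ, pos_congr (agr_update t ω false) le_rfl]; simp

/-- Lattice paths with steps `0` or `1`. -/
def IsPath (X : ℕ → ℕ) : Prop := ∀ t, X (t + 1) = X t ∨ X (t + 1) = X t + 1

theorem pos_isPath (ω : ℕ → Bool) : IsPath (pos ω) := by
  intro t
  rw [pos_succ]
  split_ifs <;> simp

theorem IsPath.mono {X : ℕ → ℕ} (h : IsPath X) {a b : ℕ} (hab : a ≤ b) : X a ≤ X b := by
  induction b, hab using Nat.le_induction with
  | base => exact le_rfl
  | succ b _ ih => rcases h b with h1 | h1 <;> omega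

theorem IsPath.lip {X : ℕ → ℕ} (h : IsPath X) {a b : ℕ} (hab : a ≤ b) : X b ≤ X a + (b - a) := by
  induction b, hab using Nat.le_induction with
  | base => omega
  | succ b _ ih => rcases h b with h1 | h1 <;> omega

section basic

variable {ρ : ℝ}

theorem E_zero (t : ℕ) (f : (ℕ → Bool) → ℝ) (ω : ℕ → Bool) : E ρ t 0 f ω = f ω := rfl

theorem E_succ (t n : ℕ) (f : (ℕ → Bool) → ℝ) (ω : ℕ → Bool) :
    E ρ t (n + 1) f ω = ρ * E ρ (t + 1) n f (Function.update ω t true) +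
      (1 - ρ) * E ρ (t + 1) n f (Function.update ω t false) := rfl

theorem E_mono (h0 : 0 ≤ ρ) (h1 : ρ ≤ 1) {t n : ℕ} {f g : (ℕ → Bool) → ℝ} {ω : ℕ → Bool}
    (h : ∀ ω', Agr t ω ω' → f ω' ≤ g ω') : E ρ t n f ω ≤ E ρ t n g ω := by
  induction n generalizing t ω with
  | zero => exact h ω (Agr.refl _ _)
  | succ n ih =>
    rw [E_succ, E_succ]
    have h2 : ∀ b, E ρ (t + 1) n f (Function.update ω t b) ≤
        E ρ (t + 1) n g (Function.update ω t b) := fun b =>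
      ih fun ω' hω' => h ω' ((agr_update t ω b).trans (hω'.mono (by omega)))
    have := h2 true
    have := h2 false
    have : 0 ≤ 1 - ρ := by linarith
    gcongr

theorem E_congr {t n : ℕ} {f g : (ℕ → Bool) → ℝ} {ω : ℕ → Bool}
    (h : ∀ ω', Agr t ω ω' → f ω' = g ω') : E ρ t n f ω = E ρ t n g ω := by
  induction n generalizing t ω with
  | zero => exact h ω (Agr.refl _ _)
  | succ n ih =>
    rw [E_succ, E_succ]
    have h2 : ∀ b, E ρ (t + 1) n f (Function.update ω t b) =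
        E ρ (t + 1) n g (Function.update ω t b) := fun b =>
      ih fun ω' hω' => h ω' ((agr_update t ω b).trans (hω'.mono (by omega)))
    rw [h2, h2]

theorem E_const (t n : ℕ) (c : ℝ) (ω : ℕ → Bool) : E ρ t n (fun _ => c) ω = c := by
  induction n generalizing t ω with
  | zero => rfl
  | succ n ih => rw [E_succ, ih, ih]; ring

theorem E_add (t n : ℕ) (f g : (ℕ → Bool) → ℝ) (ω : ℕ → Bool) :
    E ρ t n (fun w => f w + g w) ω = E ρ t n f ω + E ρ t n g ω := by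
  induction n generalizing t ω with
  | zero => rfl
  | succ n ih => rw [E_succ, E_succ, E_succ, ih, ih]; ring

theorem E_mul (t n : ℕ) (c : ℝ) (f : (ℕ → Bool) → ℝ) (ω : ℕ → Bool) :
    E ρ t n (fun w => c * f w) ω = c * E ρ t n f ω := by
  induction n generalizing t ω with
  | zero => rfl
  | succ n ih => rw [E_succ, E_succ, ih, ih]; ring

theorem E_sub (t n : ℕ) (f g : (ℕ → Bool) → ℝ) (ω : ℕ → Bool) :
    E ρ t n (fun w => f w - g w) ω = E ρ t n f ω - E ρ t n g ω := by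
  induction n generalizing t ω with
  | zero => rfl
  | succ n ih => rw [E_succ, E_succ, E_succ, ih, ih]; ring

theorem E_sum {α : Type*} (s : Finset α) (t n : ℕ) (f : α → (ℕ → Bool) → ℝ) (ω : ℕ → Bool) :
    E ρ t n (fun w => ∑ a ∈ s, f a w) ω = ∑ a ∈ s, E ρ t n (f a) ω := by
  induction n generalizing t ω with
  | zero => rfl
  | succ n ih =>
    rw [E_succ, ih, ih, mul_sum, mul_sum, ← sum_add_distrib]
    rfl

theorem E_tower (t n m : ℕ) (f : (ℕ → Bool) → ℝ) (ω : ℕ → Bool) :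
    E ρ t (n + m) f ω = E ρ t n (E ρ (t + n) m f) ω := by
  induction n generalizing t ω with
  | zero => simp [E_zero]
  | succ n ih =>
    rw [show n + 1 + m = (n + m) + 1 by ring, E_succ, E_succ, ih, ih,
      show t + 1 + n = t + (n + 1) by ring]

theorem E_le_const (h0 : 0 ≤ ρ) (h1 : ρ ≤ 1) {t n : ℕ} {f : (ℕ → Bool) → ℝ} {ω : ℕ → Bool}
    {c : ℝ} (h : ∀ ω', Agr t ω ω' → f ω' ≤ c) : E ρ t n f ω ≤ c :=
  (E_mono h0 h1 h).trans_eq (E_const t n c ω)

theorem E_nonneg (h0 : 0 ≤ ρ) (h1 : ρ ≤ 1) {t n : ℕ} {f : (ℕ → Bool) → ℝ} {ω : ℕ → Bool}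
    (h : ∀ ω', Agr t ω ω' → 0 ≤ f ω') : 0 ≤ E ρ t n f ω :=
  (E_const t n 0 ω).symm.trans_le (E_mono h0 h1 h)

/-- Conditioning on the coins before time `u`. -/
theorem E_cond (h0 : 0 ≤ ρ) (h1 : ρ ≤ 1) {t u T : ℕ} (htu : t ≤ u) (huT : u ≤ T)
    {f g : (ℕ → Bool) → ℝ} {ω : ℕ → Bool}
    (h : ∀ ω', Agr t ω ω' → E ρ u (T - u) f ω' ≤ E ρ u (T - u) g ω') :
    E ρ t (T - t) f ω ≤ E ρ t (T - t) g ω := by
  rw [show T - t = (u - t) + (T - u) by omega, E_tower, E_tower, show t + (u - t) = u by omega]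
  exact E_mono h0 h1 h

/-- A factor that is known at time `u` times a quantity of conditional expectation at most one. -/
theorem E_pull (h0 : 0 ≤ ρ) (h1 : ρ ≤ 1) {t u T : ℕ} (htu : t ≤ u) (huT : u ≤ T)
    {f g : (ℕ → Bool) → ℝ} (ω : ℕ → Bool) (hf0 : ∀ w, 0 ≤ f w)
    (hf : ∀ w w', Agr u w w' → f w' = f w) (hg : ∀ w, E ρ u (T - u) g w ≤ 1) :
    E ρ t (T - t) (fun w => f w * g w) ω ≤ E ρ t (T - t) f ω := by
  refine E_cond h0 h1 htu huT fun w _ => ?_
  rw [E_congr (g := fun w' => f w * g w') fun w' hw' => by rw [hf w w' hw'], E_mul,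
    E_congr (f := f) (g := fun _ => f w) fun w' hw' => hf w w' hw', E_const]
  exact mul_le_of_le_one_right (hf0 w) (hg w)

/-- Optional stopping. -/
theorem E_stop (h0 : 0 ≤ ρ) (h1 : ρ ≤ 1) {T : ℕ} (τ : (ℕ → Bool) → ℕ) (f : (ℕ → Bool) → ℝ)
    (G : ℕ → (ℕ → Bool) → ℝ) (hτ : ∀ w, τ w ≤ T) (hf0 : ∀ w, 0 ≤ f w)
    (hs : ∀ w w', Agr (τ w) w w' → τ w' = τ w ∧ f w' = f w) {t0 : ℕ}
    (hG : ∀ u, t0 ≤ u → u ≤ T → ∀ w, E ρ u (T - u) (G u) w ≤ 1) :
    ∀ n t, t + n = T → t0 ≤ t → ∀ ω, t ≤ τ ω →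
      E ρ t n (fun w => f w * G (τ w) w) ω ≤ E ρ t n f ω := by
  have key : ∀ n t, t + n = T → t0 ≤ t → ∀ ω, τ ω = t →
      E ρ t n (fun w => f w * G (τ w) w) ω ≤ E ρ t n f ω := by
    intro n t htn ht ω hω
    rw [E_congr (g := fun w' => f ω * G t w') fun w' hw' => by
        obtain ⟨h2, h3⟩ := hs ω w' (hω ▸ hw'); rw [h2, h3, hω], E_mul,
      E_congr (f := f) (g := fun _ => f ω) fun w' hw' => (hs ω w' (hω ▸ hw')).2, E_const]
    refine mul_le_of_le_one_right (hf0 ω) ?_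
    have := hG t ht (by omega) ω
    rwa [show T - t = n by omega] at this
  intro n
  induction n with
  | zero =>
    intro t htn ht ω hω
    exact key 0 t htn ht ω (by have := hτ ω; omega)
  | succ n ih =>
    intro t htn ht ω hω
    rcases hω.eq_or_lt with h | h
    · exact key _ t htn ht ω h.symm
    · have h2 : ∀ b, t + 1 ≤ τ (Function.update ω t b) := by
        intro b
        by_contra h3
        have := (hs (Function.update ω t b) ω ((agr_update t ω b).symm.mono (by omega))).1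
        omega
      rw [E_succ, E_succ]
      have := ih (t + 1) (by omega) (by omega) _ (h2 true)
      have := ih (t + 1) (by omega) (by omega) _ (h2 false)
      have : 0 ≤ 1 - ρ := by linarith
      gcongr

/-- A function of the position at time `u` does not see later coins. -/
theorem E_pos_late (t n u : ℕ) (hu : u ≤ t) (φ : ℕ → ℝ) (ω : ℕ → Bool) :
    E ρ t n (fun w => φ (pos w u)) ω = φ (pos ω u) := by
  rw [E_congr (g := fun _ => φ (pos ω u)) fun w hw => by rw [pos_congr hw hu], E_const]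

theorem E_pos_cut (t m n : ℕ) (hmn : m ≤ n) (φ : ℕ → ℝ) (ω : ℕ → Bool) :
    E ρ t n (fun w => φ (pos w (t + m))) ω = E ρ t m (fun w => φ (pos w (t + m))) ω := by
  rw [show n = m + (n - m) by omega, E_tower]
  exact E_congr fun w _ => E_pos_late _ _ _ le_rfl φ w

/-- The binomial weights. -/
noncomputable def bin (ρ : ℝ) (n j : ℕ) : ℝ := (n.choose j : ℝ) * ρ ^ j * (1 - ρ) ^ (n - j)

theorem bin_nonneg (h0 : 0 ≤ ρ) (h1 : ρ ≤ 1) (n j : ℕ) : 0 ≤ bin ρ n j := by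
  have : 0 ≤ 1 - ρ := by linarith
  unfold bin; positivity

theorem bin_succ_zero (n : ℕ) : bin ρ (n + 1) 0 = (1 - ρ) * bin ρ n 0 := by
  simp [bin, pow_succ]; ring

theorem bin_succ_succ (n j : ℕ) :
    bin ρ (n + 1) (j + 1) = ρ * bin ρ n j + (1 - ρ) * bin ρ n (j + 1) := by
  unfold bin
  rw [Nat.choose_succ_succ', Nat.add_sub_add_right]
  rcases lt_or_ge j n with h | h
  · obtain ⟨d, rfl⟩ : ∃ d, n = j + 1 + d := ⟨n - (j + 1), by omega⟩
    rw [show j + 1 + d - j = d + 1 by omega, show j + 1 + d - (j + 1) = d by omega]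
    push_cast; ring
  · rw [Nat.choose_eq_zero_of_lt (by omega : n < j + 1)]
    push_cast; ring

theorem bin_of_lt {n j : ℕ} (h : n < j) : bin ρ n j = 0 := by
  simp [bin, Nat.choose_eq_zero_of_lt h]

theorem bin_rec (n : ℕ) (φ : ℕ → ℝ) :
    ∑ j ∈ range (n + 2), bin ρ (n + 1) j * φ j =
      ρ * ∑ j ∈ range (n + 1), bin ρ n j * φ (j + 1) +
        (1 - ρ) * ∑ j ∈ range (n + 1), bin ρ n j * φ j := by
  rw [sum_range_succ', bin_succ_zero]
  simp only [bin_succ_succ, add_mul, sum_add_distrib]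
  have h1 : ∑ j ∈ range (n + 1), bin ρ n j * φ j =
      ∑ j ∈ range (n + 1), bin ρ n (j + 1) * φ (j + 1) + bin ρ n 0 * φ 0 := by
    rw [← sum_range_succ' (fun j => bin ρ n j * φ j), sum_range_succ _ (n + 1),
      bin_of_lt (by omega : n < n + 1)]
    simp
  rw [h1, mul_add, mul_sum, mul_sum]
  simp only [mul_assoc, add_assoc]

theorem E_law (t n : ℕ) (φ : ℕ → ℝ) (ω : ℕ → Bool) :
    E ρ t n (fun w => φ (pos w (t + n))) ω =
      ∑ j ∈ range (n + 1), bin ρ n j * φ (pos ω t + j) := by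
  induction n generalizing t ω with
  | zero => simp [E_zero, bin]
  | succ n ih =>
    rw [E_succ, show t + (n + 1) = t + 1 + n by ring, ih, ih, pos_update_true, pos_update_false,
      bin_rec n fun j => φ (pos ω t + j)]
    simp only [add_assoc, add_comm 1]

theorem bin_sum (n : ℕ) : ∑ j ∈ range (n + 1), bin ρ n j = 1 := by
  induction n with
  | zero => simp [bin]
  | succ n ih =>
    have := bin_rec (ρ := ρ) n fun _ => 1
    simp only [mul_one] at this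
    rw [this, ih]; ring

theorem bin_mean (n : ℕ) : ∑ j ∈ range (n + 1), bin ρ n j * (j : ℝ) = n * ρ := by
  induction n with
  | zero => simp
  | succ n ih =>
    rw [bin_rec n fun j => (j : ℝ)]
    push_cast
    simp only [mul_add, mul_one, sum_add_distrib, ih, bin_sum]
    ring

theorem bin_sq (n : ℕ) :
    ∑ j ∈ range (n + 1), bin ρ n j * (j : ℝ) ^ 2 = (n * ρ) ^ 2 + n * ρ * (1 - ρ) := by
  induction n with
  | zero => simp
  | succ n ih =>
    rw [bin_rec n fun j => (j : ℝ) ^ 2]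
    push_cast
    have : ∀ j : ℕ, bin ρ n j * ((j : ℝ) + 1) ^ 2 =
        bin ρ n j * (j : ℝ) ^ 2 + 2 * (bin ρ n j * j) + bin ρ n j := fun j => by ring
    simp only [this, sum_add_distrib, ← mul_sum, ih, bin_sum, bin_mean]
    ring

theorem bin_var (n : ℕ) :
    ∑ j ∈ range (n + 1), bin ρ n j * ((j : ℝ) - n * ρ) ^ 2 = n * ρ * (1 - ρ) := by
  have : ∀ j : ℕ, bin ρ n j * ((j : ℝ) - n * ρ) ^ 2 =
      bin ρ n j * (j : ℝ) ^ 2 - 2 * (n * ρ) * (bin ρ n j * j) + (n * ρ) ^ 2 * bin ρ n j :=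
    fun j => by ring
  simp only [this, sum_add_distrib, sum_sub_distrib, ← mul_sum, bin_sq, bin_sum, bin_mean]
  ring

theorem bin_ratio (n j : ℕ) (h : j < n) :
    ((j : ℝ) + 1) * (1 - ρ) * bin ρ n (j + 1) = ((n : ℝ) - j) * ρ * bin ρ n j := by
  unfold bin
  obtain ⟨d, rfl⟩ : ∃ d, n = j + 1 + d := ⟨n - (j + 1), by omega⟩
  rw [show j + 1 + d - j = d + 1 by omega, show j + 1 + d - (j + 1) = d by omega]
  have h1 := Nat.choose_succ_right_eq (j + 1 + d) j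
  rw [show j + 1 + d - j = d + 1 by omega] at h1
  have h2 : ((j + 1 + d).choose (j + 1) : ℝ) * (j + 1) = (j + 1 + d).choose j * (d + 1) := by
    exact_mod_cast h1
  push_cast
  calc ((j : ℝ) + 1) * (1 - ρ) * (((j + 1 + d).choose (j + 1) : ℝ) * ρ ^ (j + 1) * (1 - ρ) ^ d)
      = (((j + 1 + d).choose (j + 1) : ℝ) * (j + 1)) * (ρ ^ (j + 1) * (1 - ρ) ^ (d + 1)) := by ring
    _ = _ := by rw [h2]; ring

theorem bin_moivre (n j : ℕ) (h : j ≤ n) :
    ∑ i ∈ range j, bin ρ n i * (n * ρ - i) = j * (1 - ρ) * bin ρ n j := by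
  induction j with
  | zero => simp
  | succ j ih =>
    rw [sum_range_succ, ih (by omega)]
    push_cast
    rw [bin_ratio n j (by omega)]
    ring

theorem bin_le (h0 : 0 < ρ) (h1 : ρ < 1) {n : ℕ} (hn : 0 < n) (j : ℕ) :
    bin ρ n j ≤ 1 / Real.sqrt (n * ρ * (1 - ρ)) := by
  have hq : 0 < 1 - ρ := by linarith
  have hn' : (0 : ℝ) < n := by exact_mod_cast hn
  have hv : 0 < n * ρ * (1 - ρ) := by positivity
  set σ := Real.sqrt (n * ρ * (1 - ρ)) with hσ
  have hσ0 : 0 < σ := Real.sqrt_pos.mpr hv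
  have hσ2 : σ ^ 2 = n * ρ * (1 - ρ) := Real.sq_sqrt hv.le
  have hb := bin_nonneg h0.le h1.le n
  rcases lt_or_ge n j with h | h
  · rw [bin_of_lt h]; positivity
  have hmad : ∀ m, m ≤ n + 1 → ∑ i ∈ range m, bin ρ n i * (n * ρ - i) ≤ σ := by
    intro m hm
    calc ∑ i ∈ range m, bin ρ n i * (n * ρ - i)
        ≤ ∑ i ∈ range m, bin ρ n i * ((((i : ℝ) - n * ρ) ^ 2 / σ + σ) / 2) := by
          refine sum_le_sum fun i _ => mul_le_mul_of_nonneg_left ?_ (hb i)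
          rw [le_div_iff₀ two_pos, div_add' _ _ _ hσ0.ne', le_div_iff₀ hσ0]
          nlinarith [sq_nonneg ((n * ρ - i) - σ)]
      _ ≤ ∑ i ∈ range (n + 1), bin ρ n i * ((((i : ℝ) - n * ρ) ^ 2 / σ + σ) / 2) :=
          sum_le_sum_of_subset_of_nonneg (range_subset_range.mpr hm) fun i _ _ =>
            mul_nonneg (hb i) (by positivity)
      _ = (∑ i ∈ range (n + 1), bin ρ n i * ((i : ℝ) - n * ρ) ^ 2) / σ / 2 +
            σ / 2 * ∑ i ∈ range (n + 1), bin ρ n i := by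
          rw [sum_div, sum_div, mul_sum, ← sum_add_distrib]
          exact sum_congr rfl fun i _ => by ring
      _ = σ := by rw [bin_var, bin_sum, ← hσ2]; field_simp; ring
  have h2 := hmad j (by omega)
  have h3 := hmad (j + 1) (by omega)
  rw [sum_range_succ] at h3
  rw [bin_moivre n j h] at h2 h3
  rw [le_div_iff₀ hσ0]
  have h4 : σ ^ 2 * bin ρ n j ≤ σ := by
    rcases le_total (n * ρ) j with h5 | h5
    · refine le_trans (mul_le_mul_of_nonneg_right ?_ (hb j)) h2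
      rw [hσ2]; exact mul_le_mul_of_nonneg_right h5 hq.le
    · refine le_trans ?_ h3
      rw [hσ2]
      have : n * ρ * (1 - ρ) ≤ j * (1 - ρ) + (n * ρ - j) := by nlinarith
      nlinarith [hb j]
  nlinarith

/-- The walk hits a given point with small probability. -/
theorem E_hit (h0 : 0 < ρ) (h1 : ρ < 1) {t u n : ℕ} (htu : t < u) (hu : u ≤ t + n) (x : ℕ)
    (ω : ℕ → Bool) :
    E ρ t n (fun w => if pos w u = x then 1 else 0) ω ≤
      1 / Real.sqrt (((u - t : ℕ) : ℝ) * ρ * (1 - ρ)) := by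
  obtain ⟨m, rfl⟩ : ∃ m, u = t + m := ⟨u - t, by omega⟩
  rw [E_pos_cut t m n (by omega) fun y => if y = x then 1 else 0,
    E_law t m fun y => if y = x then 1 else 0, show t + m - t = m by omega]
  calc ∑ j ∈ range (m + 1), bin ρ m j * (if pos ω t + j = x then 1 else 0)
      ≤ ∑ j ∈ range (m + 1), if j = x - pos ω t then bin ρ m j else 0 := by
        refine sum_le_sum fun j _ => ?_
        have := bin_nonneg h0.le h1.le m j
        split_ifs with h2 h3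
        · simp
        · omega
        · simpa using this
        · simp
    _ ≤ _ := by
        rw [sum_ite_eq']
        split_ifs
        · exact bin_le h0 h1 (by omega) _
        · positivity

theorem E_two_pow (t n : ℕ) (ω : ℕ → Bool) :
    E ρ t n (fun w => (2 : ℝ) ^ pos w (t + n)) ω = 2 ^ pos ω t * (1 + ρ) ^ n := by
  induction n generalizing t ω with
  | zero => simp [E_zero]
  | succ n ih =>
    rw [E_succ, show t + (n + 1) = t + 1 + n by ring, ih, ih, pos_update_true, pos_update_false]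
    ring

/-- Tail bound for the displacement. -/
theorem E_tail (h0 : 0 ≤ ρ) (h1 : ρ ≤ 1) {t u n : ℕ} (htu : t ≤ u) (hu : u ≤ t + n) (d : ℕ)
    (ω : ℕ → Bool) :
    E ρ t n (fun w => if pos ω t + d ≤ pos w u then 1 else 0) ω ≤
      Real.exp (ρ * ((u - t : ℕ) : ℝ)) / 2 ^ d := by
  obtain ⟨m, rfl⟩ : ∃ m, u = t + m := ⟨u - t, by omega⟩
  rw [E_pos_cut t m n (by omega) fun y => if pos ω t + d ≤ y then 1 else 0,
    show t + m - t = m by omega]
  calc E ρ t m (fun w => if pos ω t + d ≤ pos w (t + m) then 1 else 0) ω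
      ≤ E ρ t m (fun w => (1 / 2 ^ (pos ω t + d)) * (2 : ℝ) ^ pos w (t + m)) ω := by
        refine E_mono h0 h1 fun w _ => ?_
        split_ifs with h
        · rw [one_div, ← div_eq_inv_mul, one_le_div (by positivity)]
          exact pow_le_pow_right₀ one_le_two h
        · positivity
    _ = (1 + ρ) ^ m / 2 ^ d := by
        rw [E_mul, E_two_pow, pow_add]; field_simp
    _ ≤ _ := by
        gcongr
        rw [mul_comm, Real.exp_nat_mul]
        gcongr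
        linarith [Real.add_one_le_exp ρ]

end basic

end Pool.Agent.Lib.MP_a9e7ee_nt
end

-- part Pool.Agent.Lib.MP_a9e7ee_nt.Geom
section

/-!
Geometry of the black triangles of a phase system.
-/

namespace Pool.Agent.Lib.MP_a9e7ee_nt

open Finset

/-- The corner `C` covers the point `P`. -/
def Cov (ε : ℝ) (θ : ℕ × ℕ → UnitAddCircle) (C P : ℕ × ℕ) : Prop :=
  C.1 ≤ P.1 ∧ P.2 ≤ C.2 ∧ ‖θ C‖ * (3 ^ (P.1 - C.1) * 2 ^ (C.2 - P.2)) < ε

/-- Two points lie in a common black triangle. -/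
def Rel (ε : ℝ) (θ : ℕ × ℕ → UnitAddCircle) (P Q : ℕ × ℕ) : Prop :=
  ∃ C, Cov ε θ C P ∧ Cov ε θ C Q

theorem exists_lift (z : UnitAddCircle) : ∃ η : ℝ, (η : UnitAddCircle) = z ∧ |η| = ‖z‖ := by
  induction z using QuotientAddGroup.induction_on with
  | H x =>
    refine ⟨x - round x, ?_, ?_⟩
    · rw [AddCircle.coe_sub, sub_eq_self, AddCircle.coe_eq_zero_iff]
      exact ⟨round x, by simp⟩
    · exact UnitAddCircle.norm_eq.symm

theorem norm_coe_le (η : ℝ) : ‖(η : UnitAddCircle)‖ ≤ |η| := by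
  rw [UnitAddCircle.norm_eq]
  simpa using round_le η 0

theorem lift_unique {η η' : ℝ} (h : (η : UnitAddCircle) = η') (h' : |η - η'| < 1) : η = η' := by
  rw [← sub_eq_zero, ← AddCircle.coe_sub, AddCircle.coe_eq_zero_iff] at h
  obtain ⟨n, hn⟩ := h
  rw [← hn, zsmul_eq_mul, mul_one] at h'
  have : |n| < 1 := by exact_mod_cast h'
  have h0 : n = 0 := by rw [abs_lt] at this; omega
  rw [h0] at hn
  simp at hn
  linarith

theorem coe_nsmul' (n : ℕ) (η : ℝ) : ((n * η : ℝ) : UnitAddCircle) = n • (η : UnitAddCircle) := by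
  rw [← AddCircle.coe_nsmul, nsmul_eq_mul]

section sys

variable {θ : ℕ × ℕ → UnitAddCircle} {ε : ℝ}

theorem Sys.right (h : Sys θ) (x y a : ℕ) : θ (x + a, y) = 3 ^ a • θ (x, y) := by
  induction a with
  | zero => simp
  | succ a ih => rw [← add_assoc, h.1, ih, pow_succ', mul_smul]

theorem Sys.down (h : Sys θ) (x y b : ℕ) : θ (x, y) = 2 ^ b • θ (x, y + b) := by
  induction b with
  | zero => simp
  | succ b ih => rw [ih, h.2 x (y + b), pow_succ, mul_smul, add_assoc]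

theorem Sys.move (h : Sys θ) {C Z : ℕ × ℕ} (h1 : C.1 ≤ Z.1) (h2 : Z.2 ≤ C.2) :
    θ Z = (3 ^ (Z.1 - C.1) * 2 ^ (C.2 - Z.2)) • θ C := by
  obtain ⟨x, y⟩ := C
  obtain ⟨x', y'⟩ := Z
  simp only at h1 h2 ⊢
  obtain ⟨a, rfl⟩ := Nat.exists_eq_add_of_le h1
  obtain ⟨b, rfl⟩ := Nat.exists_eq_add_of_le h2
  rw [h.right, h.down x y' b, Nat.add_sub_cancel_left, Nat.add_sub_cancel_left, mul_smul]

theorem Sys.norm_le (h : Sys θ) {C Z : ℕ × ℕ} (h1 : C.1 ≤ Z.1) (h2 : Z.2 ≤ C.2) :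
    ‖θ Z‖ ≤ ‖θ C‖ * (3 ^ (Z.1 - C.1) * 2 ^ (C.2 - Z.2)) := by
  rw [h.move h1 h2, mul_comm]
  refine (norm_nsmul_le).trans_eq ?_
  push_cast; ring

theorem pow32_le {a b a' b' i : ℕ} (ha : a ≤ a' + i) (hb : b + 2 * i ≤ b') :
    (3 : ℝ) ^ a * 2 ^ b ≤ 3 ^ a' * 2 ^ b' := by
  calc (3 : ℝ) ^ a * 2 ^ b ≤ 3 ^ (a' + i) * 2 ^ b := by gcongr; norm_num
    _ = 3 ^ a' * (3 ^ i * 2 ^ b) := by rw [pow_add]; ring
    _ ≤ 3 ^ a' * (4 ^ i * 2 ^ b) := by gcongr; norm_num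
    _ = 3 ^ a' * 2 ^ (b + 2 * i) := by
        rw [pow_add, pow_mul]; norm_num; ring
    _ ≤ _ := by gcongr; norm_num

theorem pow32_le' {a b a' b' i : ℕ} (ha : a + i ≤ a') (hb : b ≤ b' + i) :
    (3 : ℝ) ^ a * 2 ^ b ≤ 3 ^ a' * 2 ^ b' := by
  calc (3 : ℝ) ^ a * 2 ^ b ≤ 3 ^ a * 2 ^ (b' + i) := by gcongr; norm_num
    _ = 3 ^ a * 2 ^ i * 2 ^ b' := by rw [pow_add]; ring
    _ ≤ 3 ^ a * 3 ^ i * 2 ^ b' := by gcongr; norm_num
    _ = 3 ^ (a + i) * 2 ^ b' := by rw [pow_add]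
    _ ≤ _ := by gcongr; norm_num

/-- A covered point may be moved up and right along steep directions. -/
theorem Cov.shift {C P Z : ℕ × ℕ} (h : Cov ε θ C P) (i : ℕ) (h1 : C.1 ≤ Z.1) (h2 : Z.2 ≤ C.2)
    (h3 : Z.1 ≤ P.1 + i) (h4 : P.2 + 2 * i ≤ Z.2) : Cov ε θ C Z :=
  ⟨h1, h2, lt_of_le_of_lt (mul_le_mul_of_nonneg_left
    (pow32_le (i := i) (by have := h.1; omega) (by omega)) (norm_nonneg _)) h.2.2⟩

/-- A covered point may be moved left and down along flat directions. -/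
theorem Cov.shift' {C P Z : ℕ × ℕ} (h : Cov ε θ C P) (i : ℕ) (h1 : C.1 ≤ Z.1) (h2 : Z.2 ≤ C.2)
    (h3 : Z.1 + i ≤ P.1) (h4 : P.2 ≤ Z.2 + i) : Cov ε θ C Z :=
  ⟨h1, h2, lt_of_le_of_lt (mul_le_mul_of_nonneg_left
    (pow32_le' (i := i) (by omega) (by have := h.2.1; omega)) (norm_nonneg _)) h.2.2⟩

/-- An intermediate corner covers too. -/
theorem Cov.mid (hs : Sys θ) {C P Z : ℕ × ℕ} (h : Cov ε θ C P) (h1 : C.1 ≤ Z.1) (h2 : Z.2 ≤ C.2)
    (h3 : Z.1 ≤ P.1) (h4 : P.2 ≤ Z.2) : Cov ε θ Z P := by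
  refine ⟨h3, h4, lt_of_le_of_lt ?_ h.2.2⟩
  calc ‖θ Z‖ * (3 ^ (P.1 - Z.1) * 2 ^ (Z.2 - P.2))
      ≤ ‖θ C‖ * (3 ^ (Z.1 - C.1) * 2 ^ (C.2 - Z.2)) * (3 ^ (P.1 - Z.1) * 2 ^ (Z.2 - P.2)) :=
        mul_le_mul_of_nonneg_right (hs.norm_le h1 h2) (by positivity)
    _ = _ := by
        rw [show P.1 - C.1 = (Z.1 - C.1) + (P.1 - Z.1) by omega,
          show C.2 - P.2 = (C.2 - Z.2) + (Z.2 - P.2) by omega, pow_add, pow_add]
        ring

theorem Cov.black (hs : Sys θ) {C P : ℕ × ℕ} (h : Cov ε θ C P) : ‖θ P‖ < ε :=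
  (hs.norm_le h.1 h.2.1).trans_lt h.2.2

theorem cov_self {P : ℕ × ℕ} (h : ‖θ P‖ < ε) : Cov ε θ P P := ⟨le_rfl, le_rfl, by simpa using h⟩

theorem Cov.mono {ε' : ℝ} {C P : ℕ × ℕ} (h : Cov ε θ C P) (h' : ε ≤ ε') : Cov ε' θ C P :=
  ⟨h.1, h.2.1, h.2.2.trans_le h'⟩

theorem Rel.symm {P Q : ℕ × ℕ} (h : Rel ε θ P Q) : Rel ε θ Q P := by
  obtain ⟨C, h1, h2⟩ := h; exact ⟨C, h2, h1⟩

theorem Rel.mono {ε' : ℝ} {P Q : ℕ × ℕ} (h : Rel ε θ P Q) (h' : ε ≤ ε') : Rel ε' θ P Q := by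
  obtain ⟨C, h1, h2⟩ := h; exact ⟨C, h1.mono h', h2.mono h'⟩

theorem Rel.black_left (hs : Sys θ) {P Q : ℕ × ℕ} (h : Rel ε θ P Q) : ‖θ P‖ < ε := by
  obtain ⟨C, h1, -⟩ := h; exact h1.black hs

theorem Rel.black_right (hs : Sys θ) {P Q : ℕ × ℕ} (h : Rel ε θ P Q) : ‖θ Q‖ < ε :=
  h.symm.black_left hs

theorem rel_self {P : ℕ × ℕ} (h : ‖θ P‖ < ε) : Rel ε θ P P := ⟨P, cov_self h, cov_self h⟩

theorem Cov.rel {C P : ℕ × ℕ} (h : Cov ε θ C P) : Rel ε θ C P :=
  ⟨C, cov_self (lt_of_le_of_lt (le_mul_of_one_le_right (norm_nonneg _)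
    (one_le_mul_of_one_le_of_one_le (one_le_pow₀ (by norm_num)) (one_le_pow₀ (by norm_num))))
    h.2.2), h⟩

/-- The upper left corner of two related points covers both. -/
theorem Rel.corner (hs : Sys θ) {P Q : ℕ × ℕ} (h : Rel ε θ P Q) (h1 : P.1 ≤ Q.1)
    (h2 : P.2 ≤ Q.2) : Cov ε θ (P.1, Q.2) P ∧ Cov ε θ (P.1, Q.2) Q := by
  obtain ⟨C, hP, hQ⟩ := h
  exact ⟨hP.mid hs hP.1 hQ.2.1 le_rfl h2, hQ.mid hs hP.1 hQ.2.1 h1 le_rfl⟩

/-- Two corners that cover a common point have compatible lifts. -/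
theorem lifts_eq (hs : Sys θ) (hε : ε ≤ 1 / 2) {C C' Q : ℕ × ℕ} (h : Cov ε θ C Q)
    (h' : Cov ε θ C' Q) {η η' : ℝ} (e : (η : UnitAddCircle) = θ C) (a : |η| = ‖θ C‖)
    (e' : (η' : UnitAddCircle) = θ C') (a' : |η'| = ‖θ C'‖) :
    (3 ^ (Q.1 - C.1) * 2 ^ (C.2 - Q.2)) * η = (3 ^ (Q.1 - C'.1) * 2 ^ (C'.2 - Q.2)) * η' := by
  apply lift_unique
  · have h1 := coe_nsmul' (3 ^ (Q.1 - C.1) * 2 ^ (C.2 - Q.2)) η
    have h2 := coe_nsmul' (3 ^ (Q.1 - C'.1) * 2 ^ (C'.2 - Q.2)) η'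
    push_cast at h1 h2
    rw [h1, h2, e, e', ← hs.move h.1 h.2.1, ← hs.move h'.1 h'.2.1]
  · refine (abs_sub _ _).trans_lt ?_
    rw [abs_mul _ η, abs_mul _ η', a, a', abs_of_pos (by positivity), abs_of_pos (by positivity)]
    have := h.2.2
    have := h'.2.2
    linarith [mul_comm ‖θ C‖ (3 ^ (Q.1 - C.1) * 2 ^ (C.2 - Q.2)),
      mul_comm ‖θ C'‖ (3 ^ (Q.1 - C'.1) * 2 ^ (C'.2 - Q.2))]

theorem cov_join_aux (hs : Sys θ) (hε : ε ≤ 1 / 2) {C C' Q : ℕ × ℕ} (h : Cov ε θ C Q)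
    (h' : Cov ε θ C' Q) (hx : C.1 ≤ C'.1) :
    ∃ D : ℕ × ℕ, ∀ P, (Cov ε θ C P ∨ Cov ε θ C' P) → Cov ε θ D P := by
  obtain ⟨η, e, a⟩ := exists_lift (θ C)
  obtain ⟨η', e', a'⟩ := exists_lift (θ C')
  have key := lifts_eq hs hε h h' e a e' a'
  obtain ⟨x, y⟩ := C
  obtain ⟨x', y'⟩ := C'
  obtain ⟨u, v⟩ := Q
  have hu := h'.1
  have hv := h.2.1
  have hv' := h'.2.1
  simp only at hx hu hv hv' key
  obtain ⟨i, rfl⟩ := Nat.exists_eq_add_of_le hx
  obtain ⟨j, rfl⟩ := Nat.exists_eq_add_of_le hu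
  rw [show x + i + j - x = i + j by omega, show x + i + j - (x + i) = j by omega] at key
  rcases le_total y' y with hy | hy
  · obtain ⟨b, rfl⟩ := Nat.exists_eq_add_of_le hy
    rw [show y' + b - v = (y' - v) + b by omega, pow_add, pow_add] at key
    have k2 : η' = 3 ^ i * 2 ^ b * η := by
      have h0 : (0 : ℝ) < 3 ^ j * 2 ^ (y' - v) := by positivity
      apply mul_left_cancel₀ h0.ne'
      rw [← key]; ring
    refine ⟨(x, y' + b), fun P hP => hP.elim id fun hP => ?_⟩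
    obtain ⟨p1, p2, p3⟩ := hP
    simp only at p1 p2 p3
    refine ⟨by simp only; omega, by simp only; omega, lt_of_eq_of_lt ?_ p3⟩
    simp only
    rw [← a, ← a', k2, abs_mul, abs_of_pos (by positivity : (0 : ℝ) < 3 ^ i * 2 ^ b),
      show P.1 - x = (P.1 - (x + i)) + i by omega, show y' + b - P.2 = (y' - P.2) + b by omega,
      pow_add, pow_add]
    ring
  · obtain ⟨b, rfl⟩ := Nat.exists_eq_add_of_le hy
    rw [show y + b - v = (y - v) + b by omega, pow_add, pow_add] at key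
    have k2 : 3 ^ i * η = 2 ^ b * η' := by
      have h0 : (0 : ℝ) < 3 ^ j * 2 ^ (y - v) := by positivity
      apply mul_left_cancel₀ h0.ne'
      linarith
    set ζ : ℝ := η / 2 ^ b with hζ
    have z1 : η = 2 ^ b * ζ := by rw [hζ]; field_simp
    have z2 : η' = 3 ^ i * ζ := by
      have h0 : (0 : ℝ) < 2 ^ b := by positivity
      apply mul_left_cancel₀ h0.ne'
      rw [← k2, z1]; ring
    have t1 : 2 ^ b • (θ (x, y + b) - (ζ : UnitAddCircle)) = 0 := by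
      have := coe_nsmul' (2 ^ b) ζ
      push_cast at this
      rw [smul_sub, ← hs.down, ← this, ← z1, e, sub_self]
    have t2 : 3 ^ i • (θ (x, y + b) - (ζ : UnitAddCircle)) = 0 := by
      have := coe_nsmul' (3 ^ i) ζ
      push_cast at this
      rw [smul_sub, ← hs.right, ← this, ← z2, e', sub_self]
    have t3 : θ (x, y + b) = (ζ : UnitAddCircle) := by
      have d1 := addOrderOf_dvd_of_nsmul_eq_zero t1
      have d2 := addOrderOf_dvd_of_nsmul_eq_zero t2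
      have hc : Nat.Coprime (2 ^ b) (3 ^ i) := Nat.Coprime.pow _ _ (by norm_num)
      have := Nat.eq_one_of_dvd_coprimes hc d1 d2
      rwa [AddMonoid.addOrderOf_eq_one_iff, sub_eq_zero] at this
    have t4 : ‖θ (x, y + b)‖ ≤ |ζ| := by rw [t3]; exact norm_coe_le ζ
    refine ⟨(x, y + b), fun P hP => ?_⟩
    rcases hP with ⟨p1, p2, p3⟩ | ⟨p1, p2, p3⟩
    · simp only at p1 p2 p3
      refine ⟨p1, by simp only; omega, lt_of_le_of_lt ?_ p3⟩
      simp only
      refine (mul_le_mul_of_nonneg_right t4 (by positivity)).trans_eq ?_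
      rw [← a, z1, abs_mul, abs_of_pos (by positivity : (0 : ℝ) < 2 ^ b),
        show y + b - P.2 = (y - P.2) + b by omega, pow_add]
      ring
    · simp only at p1 p2 p3
      refine ⟨by simp only; omega, p2, lt_of_le_of_lt ?_ p3⟩
      simp only
      refine (mul_le_mul_of_nonneg_right t4 (by positivity)).trans_eq ?_
      rw [← a', z2, abs_mul, abs_of_pos (by positivity : (0 : ℝ) < 3 ^ i),
        show P.1 - x = (P.1 - (x + i)) + i by omega, pow_add]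
      ring

theorem Rel.trans (hs : Sys θ) (hε : ε ≤ 1 / 2) {P Q R : ℕ × ℕ} (h : Rel ε θ P Q)
    (h' : Rel ε θ Q R) : Rel ε θ P R := by
  obtain ⟨C, h1, h2⟩ := h
  obtain ⟨C', h3, h4⟩ := h'
  rcases le_total C.1 C'.1 with hx | hx
  · obtain ⟨D, hD⟩ := cov_join_aux hs hε h2 h3 hx
    exact ⟨D, hD _ (Or.inl h1), hD _ (Or.inr h4)⟩
  · obtain ⟨D, hD⟩ := cov_join_aux hs hε h3 h2 hx
    exact ⟨D, hD _ (Or.inr h1), hD _ (Or.inl h4)⟩

theorem rel_up (hs : Sys θ) (hε : ε ≤ 1 / 5) {x y : ℕ} (h : ‖θ (x, y)‖ < ε)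
    (h' : ‖θ (x, y + 1)‖ < ε) : Rel ε θ (x, y) (x, y + 1) := by
  obtain ⟨η, e, a⟩ := exists_lift (θ (x, y))
  obtain ⟨η', e', a'⟩ := exists_lift (θ (x, y + 1))
  have key : (2 : ℝ) * η' = η := by
    apply lift_unique
    · have := coe_nsmul' 2 η'
      push_cast at this
      rw [this, e', e, hs.2 x y]
    · refine (abs_sub _ _).trans_lt ?_
      rw [abs_mul, a, a', abs_two]; linarith
  refine ⟨(x, y + 1), ⟨le_rfl, by simp, ?_⟩, cov_self h'⟩
  simp only [Nat.sub_self, Nat.add_sub_cancel_left, pow_zero, pow_one, one_mul]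
  rw [← a, ← key, abs_mul, abs_two] at h
  rw [← a']; linarith

theorem rel_diag (hs : Sys θ) (hε : ε ≤ 1 / 5) {x y : ℕ} (h : ‖θ (x, y)‖ < ε)
    (h' : ‖θ (x + 1, y + 1)‖ < ε) : Rel ε θ (x, y) (x + 1, y + 1) := by
  obtain ⟨η, e, a⟩ := exists_lift (θ (x, y))
  obtain ⟨η', e', a'⟩ := exists_lift (θ (x + 1, y + 1))
  have e3 : ((η' - η : ℝ) : UnitAddCircle) = θ (x, y + 1) := by
    rw [AddCircle.coe_sub, e, e', hs.1, hs.2 x y, succ_nsmul _ 2, add_sub_cancel_left]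
  have key : (2 : ℝ) * (η' - η) = η := by
    apply lift_unique
    · have := coe_nsmul' 2 (η' - η)
      push_cast at this
      rw [this, e3, e, hs.2 x y]
    · rw [show 2 * (η' - η) - η = 2 * η' - 3 * η by ring]
      refine (abs_sub _ _).trans_lt ?_
      rw [abs_mul, abs_mul, a, a', abs_two, abs_of_pos (by norm_num : (0 : ℝ) < 3)]; linarith
  have t4 : ‖θ (x, y + 1)‖ ≤ |η' - η| := by rw [← e3]; exact norm_coe_le _
  refine ⟨(x, y + 1), ⟨le_rfl, by simp, ?_⟩, ⟨by simp, le_rfl, ?_⟩⟩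
  · simp only [Nat.sub_self, Nat.add_sub_cancel_left, pow_zero, pow_one, one_mul]
    rw [← a, ← key, abs_mul, abs_two] at h
    linarith
  · simp only [Nat.sub_self, Nat.add_sub_cancel_left, pow_zero, pow_one, mul_one]
    have k3 : η' = 3 * (η' - η) := by linarith
    rw [← a', k3, abs_mul, abs_of_pos (by norm_num : (0 : ℝ) < 3)] at h'
    linarith

/-- Consecutive black points of a path are related. -/
theorem rel_step (hs : Sys θ) (hε : ε ≤ 1 / 5) {x x' y : ℕ} (hx : x' = x ∨ x' = x + 1)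
    (h : ‖θ (x, y)‖ < ε) (h' : ‖θ (x', y + 1)‖ < ε) : Rel ε θ (x, y) (x', y + 1) := by
  rcases hx with rfl | rfl
  · exact rel_up hs hε h h'
  · exact rel_diag hs hε h h'

theorem rel_of_black (hs : Sys θ) (hε : ε ≤ 1 / 5) {X : ℕ → ℕ} (hX : IsPath X) {a b : ℕ}
    (hab : a ≤ b) (h : ∀ u, a ≤ u → u ≤ b → ‖θ (X u, u)‖ < ε) : Rel ε θ (X a, a) (X b, b) := by
  induction b, hab using Nat.le_induction with
  | base => exact rel_self (h a le_rfl le_rfl)
  | succ b hb ih =>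
    exact (ih fun u h1 h2 => h u h1 (by omega)).trans hs (by linarith)
      (rel_step hs hε (hX b) (h b hb (by omega)) (h (b + 1) (by omega) le_rfl))

/-- A deep point: its phase is smaller than `ε / 2^d`. -/
def Deep (ε : ℝ) (θ : ℕ × ℕ → UnitAddCircle) (Z : ℕ × ℕ) (d : ℕ) : Prop := ‖θ Z‖ * 2 ^ d < ε

theorem Deep.cov {Z P : ℕ × ℕ} {d : ℕ} (h : Deep ε θ Z d) (h1 : Z.1 ≤ P.1) (h2 : P.2 ≤ Z.2)
    (h3 : 2 * (P.1 - Z.1) + (Z.2 - P.2) ≤ d) : Cov ε θ Z P := by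
  refine ⟨h1, h2, lt_of_le_of_lt (mul_le_mul_of_nonneg_left ?_ (norm_nonneg _)) h⟩
  simpa using pow32_le (a := P.1 - Z.1) (b := Z.2 - P.2) (a' := 0) (b' := d) (i := P.1 - Z.1)
    (by omega) (by omega)

theorem Deep.mono {Z : ℕ × ℕ} {d d' : ℕ} (h : Deep ε θ Z d) (h' : d' ≤ d) : Deep ε θ Z d' :=
  lt_of_le_of_lt (mul_le_mul_of_nonneg_left (pow_le_pow_right₀ one_le_two h') (norm_nonneg _)) h

theorem Cov.deep {Z P : ℕ × ℕ} (h : Cov ε θ Z P) {d : ℕ} (hd : d ≤ (P.1 - Z.1) + (Z.2 - P.2)) :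
    Deep ε θ Z d := by
  refine lt_of_le_of_lt (mul_le_mul_of_nonneg_left ?_ (norm_nonneg _)) h.2.2
  simpa using pow32_le' (a := 0) (b := d) (a' := P.1 - Z.1) (b' := Z.2 - P.2) (i := P.1 - Z.1)
    (by omega) (by omega)

theorem Deep.move (hs : Sys θ) {Z P : ℕ × ℕ} {d d' : ℕ} (h : Deep ε θ Z d) (h1 : Z.1 ≤ P.1)
    (h2 : P.2 ≤ Z.2) (h3 : 2 * (P.1 - Z.1) + (Z.2 - P.2) + d' ≤ d) : Deep ε θ P d' := by
  refine lt_of_le_of_lt ?_ h
  calc ‖θ P‖ * 2 ^ d' ≤ ‖θ Z‖ * (3 ^ (P.1 - Z.1) * 2 ^ (Z.2 - P.2)) * 2 ^ d' :=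
        mul_le_mul_of_nonneg_right (hs.norm_le h1 h2) (by positivity)
    _ = ‖θ Z‖ * (3 ^ (P.1 - Z.1) * 2 ^ (Z.2 - P.2 + d')) := by rw [pow_add]; ring
    _ ≤ _ := by
      refine mul_le_mul_of_nonneg_left ?_ (norm_nonneg _)
      simpa using pow32_le (a := P.1 - Z.1) (b := Z.2 - P.2 + d') (a' := 0) (b' := d)
        (i := P.1 - Z.1) (by omega) (by omega)

/-- Related points at different heights give a deep corner. -/
theorem Rel.deep (hs : Sys θ) {P Q : ℕ × ℕ} (h : Rel ε θ P Q) (h1 : P.1 ≤ Q.1) (h2 : P.2 ≤ Q.2) :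
    Deep ε θ (P.1, Q.2) (Q.2 - P.2) :=
  (h.corner hs h1 h2).1.deep (by simp)

/-- The guarantee lemma. -/
theorem guarantee (hs : Sys θ) {X : ℕ → ℕ} (hX : IsPath X) {x' x1 e L d : ℕ}
    (hw : White θ (x1, e + 1)) (hd : Deep (1 / 10) θ (x', e) d) (hx' : x' ≤ x1) (hL : L ≤ e)
    (h1 : 2 * (x1 - x') ≤ d) (h2 : 2 * (x1 - X (e - L)) ≤ L) (h3 : 2 * (X e - x') ≤ d) :
    ∃ u, e - L ≤ u ∧ u ≤ e + 1 ∧ White θ (X u, u) := by
  by_contra hc
  push Not at hc
  have hb : ∀ u, e - L ≤ u → u ≤ e + 1 → ‖θ (X u, u)‖ < 1 / 10 := fun u a b =>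
    not_le.mp (hc u a b)
  rcases le_or_gt (X (e - L)) x1 with h | h
  · have r := rel_of_black hs (by norm_num) hX (by omega : e - L ≤ e + 1) hb
    have := (r.deep hs (hX.mono (by omega)) (by simp only; omega)).cov (P := (x1, e + 1)) h
      le_rfl (by simp only; omega)
    exact not_lt.mpr hw (this.black hs)
  · have hm := hX.mono (by omega : e - L ≤ e)
    have hm' := hX.mono (by omega : e ≤ e + 1)
    have c1 : Cov (1 / 10) θ (x', e) (X e, e) := hd.cov (by simp only; omega) le_rfl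
      (by simp only; omega)
    have c2 : Cov (1 / 10) θ (x', e) (x1, e) := hd.cov hx' le_rfl (by simp only; omega)
    have r1 := rel_step hs (by norm_num) (hX e) (hb e (by omega) (by omega))
      (hb (e + 1) (by omega) le_rfl)
    have r2 := (c2.rel.symm.trans hs (by norm_num) c1.rel).trans hs (by norm_num) r1
    have := (r2.corner hs (by simp only; omega) (by simp)).1
    exact not_lt.mpr hw (this.rel.black_left hs)

end sys

end Pool.Agent.Lib.MP_a9e7ee_nt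
end

-- part Pool.Agent.Lib.MP_a9e7ee_nt.Count
section

/-!
Counting the points where two large triangles nearly touch, at many scales.
-/

namespace Pool.Agent.Lib.MP_a9e7ee_nt

open Finset

/-- The point `P` is at the top of a triangle of height about `s`, and within distance `r` of it
begins another triangle of height about `s`. -/
def BadRS (θ : ℕ × ℕ → UnitAddCircle) (r s : ℕ) (P : ℕ × ℕ) : Prop :=
  ∃ P' Q Q' : ℕ × ℕ, P'.1 ≤ P.1 ∧ P'.2 + s ≤ P.2 + 1 ∧ Rel (1 / 10) θ P' P ∧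
    P.1 ≤ Q.1 ∧ Q.1 ≤ P.1 + r ∧ P.2 ≤ Q.2 ∧ Q.2 ≤ P.2 + r ∧
    Q.1 ≤ Q'.1 ∧ Q.2 + s ≤ Q'.2 + 1 ∧ Rel (1 / 10) θ Q Q' ∧ ¬ Rel (1 / 10) θ P Q

theorem div_close {a b d n : ℕ} (hd : 0 < d) (h : a ≤ b + n * d) : a / d ≤ b / d + n := by
  rw [← Nat.add_mul_div_right b n hd]
  exact Nat.div_le_div_right h

theorem lt_add_of_div_eq {a b s : ℕ} (hs : 0 < s) (h : a / s = b / s) : a < b + s := by
  have h1 := Nat.lt_div_mul_add (a := a) hs
  have h2 := Nat.div_mul_le_self b s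
  rw [h] at h1
  omega

section

variable {θ : ℕ × ℕ → UnitAddCircle}

theorem BadRS.norm (hs : Sys θ) {r s : ℕ} {P : ℕ × ℕ} (h : BadRS θ r s P) (hs1 : 1 ≤ s) :
    ∃ (z : ℕ) (Q : ℕ × ℕ), z ≤ P.1 ∧ P.1 ≤ z + s ∧ Deep (1 / 10) θ (z, P.2) (s - 1) ∧
      Cov (1 / 10) θ (z, P.2) P ∧ P.1 ≤ Q.1 ∧ Q.1 ≤ P.1 + r ∧ P.2 ≤ Q.2 ∧ Q.2 ≤ P.2 + r ∧
      Deep (1 / 10) θ (Q.1, Q.2 + s - 1) (s - 1) ∧ ¬ Rel (1 / 10) θ P Q := by
  obtain ⟨P', Q, Q', h1, h2, h3, h4, h5, h6, h7, h8, h9, h10, h11⟩ := h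
  have hQ : Deep (1 / 10) θ (Q.1, Q.2 + s - 1) (s - 1) := by
    have c := (h10.corner hs h8 (by omega)).1
    exact (c.mid hs (Z := (Q.1, Q.2 + s - 1)) le_rfl (by simp only; omega) le_rfl
      (by simp only; omega)).deep (by simp only; omega)
  have c := h3.corner hs h1 (by omega)
  rcases le_total P.1 (P'.1 + s) with h | h
  · exact ⟨P'.1, Q, h1, h, c.1.deep (by simp only; omega), c.2, h4, h5, h6, h7, hQ, h11⟩
  · have c' := c.2.mid hs (Z := (P.1 - s, P.2)) (by simp only; omega) le_rfl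
      (by simp only; omega) le_rfl
    exact ⟨P.1 - s, Q, by omega, by omega, c'.deep (by simp only; omega), c', h4, h5, h6, h7, hQ,
      h11⟩

theorem close_pair (hs : Sys θ) {r s : ℕ} {P1 Q1 P2 Q2 : ℕ × ℕ} (hrs : 2 * r + 1 ≤ s)
    (hP : Rel (1 / 10) θ P1 P2) (hQ : Rel (1 / 10) θ Q1 Q2) (n1 : ¬ Rel (1 / 10) θ P1 Q1)
    (n2 : ¬ Rel (1 / 10) θ P2 Q2) (a1 : P1.1 ≤ Q1.1) (a2 : Q1.1 ≤ P1.1 + r) (a3 : P1.2 ≤ Q1.2)
    (a4 : Q1.2 ≤ P1.2 + r) (b1 : P2.1 ≤ Q2.1) (b2 : Q2.1 ≤ P2.1 + r) (b3 : P2.2 ≤ Q2.2)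
    (b4 : Q2.2 ≤ P2.2 + r) (d1 : Deep (1 / 10) θ (Q1.1, Q1.2 + s - 1) (s - 1)) :
    P2.1 ≤ P1.1 + 3 * r ∧ P2.2 ≤ P1.2 + 3 * r := by
  obtain ⟨C, c1, c2⟩ := hP
  obtain ⟨C', c3, c4⟩ := hQ
  have e1 := c1.1
  have e2 := c2.2.1
  have e3 := c3.1
  have e4 := c4.2.1
  constructor
  · by_contra hc
    have y1 : Cov (1 / 10) θ C' (Q2.1 - 2 * r, Q2.2 - r) :=
      c4.shift' r (by simp only; omega) (by simp only; omega) (by simp only; omega)
        (by simp only; omega)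
    have y2 : Cov (1 / 10) θ C (Q2.1 - 2 * r, Q2.2 - r) :=
      c2.shift' r (by simp only; omega) (by simp only; omega) (by simp only; omega)
        (by simp only; omega)
    exact n2 (Rel.trans hs (by norm_num) ⟨C, c2, y2⟩ ⟨C', y1, c4⟩)
  · by_contra hc
    have y1 : Cov (1 / 10) θ C (Q1.1, Q1.2 + 2 * r) :=
      c1.shift r (by simp only; omega) (by simp only; omega) (by simp only; omega)
        (by simp only; omega)
    have y2 : Cov (1 / 10) θ (Q1.1, Q1.2 + s - 1) (Q1.1, Q1.2 + 2 * r) :=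
      d1.cov le_rfl (by simp only; omega) (by simp only; omega)
    have y3 : Cov (1 / 10) θ (Q1.1, Q1.2 + s - 1) Q1 :=
      d1.cov le_rfl (by simp only; omega) (by simp only; omega)
    exact n1 (Rel.trans hs (by norm_num) ⟨C, c1, y1⟩ ⟨_, y2, y3⟩)

theorem grid_cov {z y d : ℕ} (hd : 0 < d) (h : Deep (1 / 10) θ (z, y) (4 * d - 1)) :
    Cov (1 / 10) θ (z, y) ((z / d + 1) * d, y / d * d) := by
  have h1 := Nat.lt_div_mul_add (a := z) hd
  have h2 := Nat.div_mul_le_self z d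
  have h3 := Nat.lt_div_mul_add (a := y) hd
  have h4 := Nat.div_mul_le_self y d
  refine h.cov ?_ h4 ?_ <;> simp only [add_mul, one_mul] <;> omega

theorem card_bad_cells (hs : Sys θ) {r d m : ℕ} (hr : 0 < r) (hrd : r ≤ d) (hm : r * m = 4 * d)
    (I J : ℕ) (A : Finset (ℕ × ℕ)) (hA : ∀ c ∈ A, c.1 / m = I ∧ c.2 / m = J ∧
      ∃ P : ℕ × ℕ, P.1 / r = c.1 ∧ P.2 / r = c.2 ∧ BadRS θ r (4 * d) P) : A.card ≤ 2 ^ 20 := by
  have hd : 0 < d := by omega
  have hA' : ∀ c : ℕ × ℕ, ∃ (P : ℕ × ℕ) (z : ℕ) (Q : ℕ × ℕ), c ∈ A →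
      P.1 / r = c.1 ∧ P.2 / r = c.2 ∧ P.1 / (4 * d) = I ∧ P.2 / (4 * d) = J ∧
      z ≤ P.1 ∧ P.1 ≤ z + 4 * d ∧ Deep (1 / 10) θ (z, P.2) (4 * d - 1) ∧
      Cov (1 / 10) θ (z, P.2) P ∧ P.1 ≤ Q.1 ∧ Q.1 ≤ P.1 + r ∧ P.2 ≤ Q.2 ∧ Q.2 ≤ P.2 + r ∧
      Deep (1 / 10) θ (Q.1, Q.2 + 4 * d - 1) (4 * d - 1) ∧ ¬ Rel (1 / 10) θ P Q := by
    intro c
    by_cases hc : c ∈ A
    · obtain ⟨h1, h2, P, h3, h4, h5⟩ := hA c hc
      obtain ⟨z, Q, h6⟩ := h5.norm hs (by omega)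
      refine ⟨P, z, Q, fun _ => ⟨h3, h4, ?_, ?_, h6⟩⟩
      · rw [← hm, ← Nat.div_div_eq_div_mul, h3, h1]
      · rw [← hm, ← Nat.div_div_eq_div_mul, h4, h2]
    · exact ⟨0, 0, 0, fun h => absurd h hc⟩
  choose P z Q hPQ using hA'
  let lab : ℕ × ℕ → ℕ × ℕ × ℕ × ℕ × ℕ × ℕ := fun c =>
    (z c / d % 16, (P c).2 / d % 16, (Q c).1 / d % 16, ((Q c).2 + 4 * d - 1) / d % 16,
      c.1 % 4, c.2 % 4)
  have hcard : (range 16 ×ˢ range 16 ×ˢ range 16 ×ˢ range 16 ×ˢ range 4 ×ˢ range 4).card =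
      2 ^ 20 := by simp only [card_product, card_range]; norm_num
  rw [← hcard]
  refine card_le_card_of_injOn lab (fun c _ => ?_) fun c hc c' hc' hl => ?_
  · simp only [lab, coe_product, Set.mem_prod, mem_coe, mem_range]
    omega
  obtain ⟨p1, p2, p3, p4, p5, p6, p7, p8, p9, p10, p11, p12, p13, p14⟩ := hPQ c hc
  obtain ⟨q1, q2, q3, q4, q5, q6, q7, q8, q9, q10, q11, q12, q13, q14⟩ := hPQ c' hc'
  simp only [lab, Prod.mk.injEq] at hl
  obtain ⟨l1, l2, l3, l4, l5, l6⟩ := hl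
  have x1 := lt_add_of_div_eq (by omega : 0 < 4 * d) (p3.trans q3.symm)
  have x2 := lt_add_of_div_eq (by omega : 0 < 4 * d) (q3.trans p3.symm)
  have y1 := lt_add_of_div_eq (by omega : 0 < 4 * d) (p4.trans q4.symm)
  have y2 := lt_add_of_div_eq (by omega : 0 < 4 * d) (q4.trans p4.symm)
  have g1 : z c / d = z c' / d := by
    have := div_close (a := z c) (b := z c') (n := 8) hd (by omega)
    have := div_close (a := z c') (b := z c) (n := 8) hd (by omega)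
    omega
  have g2 : (P c).2 / d = (P c').2 / d := by
    have := div_close (a := (P c).2) (b := (P c').2) (n := 8) hd (by omega)
    have := div_close (a := (P c').2) (b := (P c).2) (n := 8) hd (by omega)
    omega
  have g3 : (Q c).1 / d = (Q c').1 / d := by
    have := div_close (a := (Q c).1) (b := (Q c').1) (n := 8) hd (by omega)
    have := div_close (a := (Q c').1) (b := (Q c).1) (n := 8) hd (by omega)
    omega
  have g4 : ((Q c).2 + 4 * d - 1) / d = ((Q c').2 + 4 * d - 1) / d := by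
    have := div_close (a := (Q c).2 + 4 * d - 1) (b := (Q c').2 + 4 * d - 1) (n := 8) hd
      (by omega)
    have := div_close (a := (Q c').2 + 4 * d - 1) (b := (Q c).2 + 4 * d - 1) (n := 8) hd
      (by omega)
    omega
  have rP : Rel (1 / 10) θ (P c) (P c') := by
    have u1 := grid_cov hd p7
    have u2 := grid_cov hd q7
    rw [g1, g2] at u1
    exact Rel.trans hs (by norm_num) ⟨_, p8, u1⟩ ⟨_, u2, q8⟩
  have rQ : Rel (1 / 10) θ (Q c) (Q c') := by
    have u1 := grid_cov hd p13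
    have u2 := grid_cov hd q13
    rw [g3, g4] at u1
    have v1 : Cov (1 / 10) θ ((Q c).1, (Q c).2 + 4 * d - 1) (Q c) :=
      p13.cov le_rfl (by simp only; omega) (by simp only; omega)
    have v2 : Cov (1 / 10) θ ((Q c').1, (Q c').2 + 4 * d - 1) (Q c') :=
      q13.cov le_rfl (by simp only; omega) (by simp only; omega)
    exact Rel.trans hs (by norm_num) ⟨_, v1, u1⟩ ⟨_, u2, v2⟩
  obtain ⟨w1, w2⟩ := close_pair hs (s := 4 * d) (by omega) rP rQ p14 q14 p9 p10 p11 p12 q9 q10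
    q11 q12 p13
  obtain ⟨w3, w4⟩ := close_pair hs (s := 4 * d) (by omega) rP.symm rQ.symm q14 p14 q9 q10 q11 q12
    p9 p10 p11 p12 q13
  have := div_close hr w1
  have := div_close hr w2
  have := div_close hr w3
  have := div_close hr w4
  ext <;> omega

end

/-- The basic scale. -/
@[irreducible] def S0 : ℕ := 2 ^ 21

/-- The ratio of consecutive scales. -/
@[irreducible] def K0 : ℕ := S0 ^ 16

/-- The auxiliary scale of the class `B`. -/
@[irreducible] def g0 (B : ℕ) : ℕ := S0 ^ (2 * B)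

theorem S0_ge : 2 ^ 20 + 1 ≤ S0 := by unfold S0; norm_num

theorem S0_pos : 0 < S0 := by have := S0_ge; omega

theorem K0_four : K0 = 4 * (K0 / 4) := by
  have : 4 ∣ K0 := by
    unfold K0 S0
    rw [← pow_mul]
    exact pow_dvd_pow 2 (by norm_num : 2 ≤ 21 * 16)
  exact (Nat.mul_div_cancel' this).symm

theorem K0_ge : 16 ≤ K0 := by
  have h := S0_ge
  calc 16 ≤ S0 ^ 1 := by rw [pow_one]; omega
    _ ≤ K0 := by unfold K0; exact Nat.pow_le_pow_right S0_pos (by norm_num)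

theorem K0_pow (B : ℕ) : K0 ^ B = g0 B ^ 8 := by
  unfold K0 g0; rw [← pow_mul, ← pow_mul]; congr 1; ring

/-- Bad points at level `b`. -/
def Bad (θ : ℕ × ℕ → UnitAddCircle) (b : ℕ) (P : ℕ × ℕ) : Prop := BadRS θ (K0 ^ b) (K0 ^ (b + 1)) P

open Classical in
/-- The number of bad levels below `B`. -/
noncomputable def nb (θ : ℕ × ℕ → UnitAddCircle) (B : ℕ) (P : ℕ × ℕ) : ℕ :=
  ((range B).filter fun b => Bad θ b P).card

/-- Points that are bad at most levels below `B`. -/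
def Lucky (θ : ℕ × ℕ → UnitAddCircle) (B : ℕ) (P : ℕ × ℕ) : Prop := 31 * B ≤ 32 * nb θ B P

section

variable {θ : ℕ × ℕ → UnitAddCircle}

theorem card_cells {m : ℕ} (hm : 0 < m) (I J : ℕ) (A : Finset (ℕ × ℕ))
    (hA : ∀ c ∈ A, c.1 / m = I ∧ c.2 / m = J) : A.card ≤ m ^ 2 := by
  have : A ⊆ Ico (I * m) (I * m + m) ×ˢ Ico (J * m) (J * m + m) := by
    intro c hc
    obtain ⟨h1, h2⟩ := hA c hc
    have a1 := Nat.lt_div_mul_add (a := c.1) hm
    have a2 := Nat.div_mul_le_self c.1 m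
    have a3 := Nat.lt_div_mul_add (a := c.2) hm
    have a4 := Nat.div_mul_le_self c.2 m
    rw [h1] at a1 a2
    rw [h2] at a3 a4
    simp only [mem_product, mem_Ico]
    omega
  refine (card_le_card this).trans_eq ?_
  simp [card_product, sq]

theorem sum_pow_nb (hs : Sys θ) (B : ℕ) : ∀ (I J : ℕ) (A : Finset (ℕ × ℕ)),
    (∀ P ∈ A, P.1 / K0 ^ B = I ∧ P.2 / K0 ^ B = J) →
    ∑ P ∈ A, (K0 ^ 2) ^ nb θ B P ≤ (S0 * K0 ^ 2) ^ B := by
  classical
  have hK : 0 < K0 := by have := K0_ge; omega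
  induction B with
  | zero =>
    intro I J A hA
    simpa [nb] using card_cells one_pos I J A (by simpa using hA)
  | succ B ih =>
    intro I J A hA
    let f : ℕ × ℕ → ℕ × ℕ := fun P => (P.1 / K0 ^ B, P.2 / K0 ^ B)
    let bad : ℕ × ℕ → Prop := fun c => ∃ P : ℕ × ℕ, P.1 / K0 ^ B = c.1 ∧ P.2 / K0 ^ B = c.2 ∧
      Bad θ B P
    have him : ∀ c ∈ A.image f, c.1 / K0 = I ∧ c.2 / K0 = J := by
      intro c hc
      obtain ⟨P, hP, rfl⟩ := mem_image.mp hc
      simp only [f, Nat.div_div_eq_div_mul, ← pow_succ]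
      exact hA P hP
    have h1 : ∀ c ∈ A.image f, ∑ P ∈ A with f P = c, (K0 ^ 2) ^ nb θ (B + 1) P ≤
        (if bad c then K0 ^ 2 else 1) * (S0 * K0 ^ 2) ^ B := by
      intro c _
      refine le_trans ?_ (Nat.mul_le_mul_left _ (ih c.1 c.2 (A.filter fun P => f P = c) ?_))
      · rw [mul_sum]
        refine sum_le_sum fun P hP => ?_
        have hf := (mem_filter.mp hP).2
        unfold nb
        rw [range_add_one, filter_insert]
        by_cases hb : Bad θ B P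
        · rw [if_pos hb, card_insert_of_notMem (by simp), if_pos ⟨P, by rw [← hf], by rw [← hf], hb⟩,
            pow_succ']
        · rw [if_neg hb]
          refine Nat.le_mul_of_pos_left _ ?_
          split_ifs <;> positivity
      · intro P hP
        have hf := (mem_filter.mp hP).2
        rw [← hf]; exact ⟨rfl, rfl⟩
    rw [← sum_fiberwise_of_maps_to (g := f) (t := A.image f) fun P hP => mem_image_of_mem f hP]
    refine (sum_le_sum h1).trans ?_
    rw [← sum_mul, pow_succ' (S0 * K0 ^ 2)]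
    refine Nat.mul_le_mul_right _ ?_
    have h2 : ((A.image f).filter bad).card ≤ 2 ^ 20 := by
      refine card_bad_cells hs (r := K0 ^ B) (d := K0 ^ B * (K0 / 4)) (m := K0) (by positivity)
        (Nat.le_mul_of_pos_right _ (by have := K0_ge; omega)) ?_ I J _ fun c hc => ?_
      · conv_lhs => rw [show K0 ^ B * K0 = K0 ^ B * (4 * (K0 / 4)) by rw [← K0_four]]
        ring
      · obtain ⟨c1, c2⟩ := mem_filter.mp hc
        obtain ⟨P, p1, p2, p3⟩ := c2
        refine ⟨(him c c1).1, (him c c1).2, P, p1, p2, ?_⟩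
        rwa [show 4 * (K0 ^ B * (K0 / 4)) = K0 ^ (B + 1) by
          rw [pow_succ]
          conv_rhs => rw [show K0 ^ B * K0 = K0 ^ B * (4 * (K0 / 4)) by rw [← K0_four]]
          ring]
    have h3 := card_cells hK I J _ him
    calc ∑ c ∈ A.image f, (if bad c then K0 ^ 2 else 1)
        ≤ ∑ c ∈ A.image f, ((if bad c then K0 ^ 2 else 0) + 1) :=
          sum_le_sum fun c _ => by split_ifs <;> omega
      _ = ((A.image f).filter bad).card * K0 ^ 2 + (A.image f).card := by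
          rw [sum_add_distrib, ← sum_filter]; simp
      _ ≤ 2 ^ 20 * K0 ^ 2 + K0 ^ 2 := by gcongr
      _ = (2 ^ 20 + 1) * K0 ^ 2 := by ring
      _ ≤ _ := Nat.mul_le_mul_right _ S0_ge

/-- Each cell of level `B` contains few lucky points. -/
theorem card_lucky (hs : Sys θ) (B I J : ℕ) (A : Finset (ℕ × ℕ))
    (hA : ∀ P ∈ A, P.1 / K0 ^ B = I ∧ P.2 / K0 ^ B = J ∧ Lucky θ B P) : A.card ≤ g0 B := by
  have h1 := sum_pow_nb hs B I J A fun P hP => ⟨(hA P hP).1, (hA P hP).2.1⟩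
  have h2 : A.card * S0 ^ (31 * B) ≤ ∑ P ∈ A, (K0 ^ 2) ^ nb θ B P := by
    rw [← smul_eq_mul]
    refine card_nsmul_le_sum _ _ _ fun P hP => ?_
    unfold K0
    rw [← pow_mul, ← pow_mul]
    exact Nat.pow_le_pow_right S0_pos (by have := (hA P hP).2.2; unfold Lucky at this; omega)
  have h3 : (S0 * K0 ^ 2) ^ B = g0 B * S0 ^ (31 * B) := by
    unfold K0 g0
    rw [← pow_mul, ← pow_succ', ← pow_mul, ← pow_add]; congr 1; ring
  exact Nat.le_of_mul_le_mul_right (h2.trans (h1.trans_eq h3)) (pow_pos S0_pos _)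

/-- Lucky points in a rectangle. -/
theorem card_lucky_rect (hs : Sys θ) (B x y a b : ℕ) (A : Finset (ℕ × ℕ))
    (hA : ∀ P ∈ A, x ≤ P.1 ∧ P.1 ≤ x + a * K0 ^ B ∧ y ≤ P.2 / K0 ^ B ∧ P.2 / K0 ^ B ≤ y + b ∧
      Lucky θ B P) : A.card ≤ (a + 1) * (b + 1) * g0 B := by
  classical
  have hK : 0 < K0 ^ B := by have := K0_ge; positivity
  let f : ℕ × ℕ → ℕ × ℕ := fun P => (P.1 / K0 ^ B, P.2 / K0 ^ B)
  have h1 : ∀ P ∈ A, f P ∈ Icc (x / K0 ^ B) (x / K0 ^ B + a) ×ˢ Icc y (y + b) := by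
    intro P hP
    obtain ⟨p1, p2, p3, p4, -⟩ := hA P hP
    simp only [f, mem_product, mem_Icc]
    exact ⟨⟨Nat.div_le_div_right p1, div_close hK p2⟩, p3, p4⟩
  refine (card_le_mul_card_image_of_maps_to h1 (g0 B) fun c _ => ?_).trans_eq ?_
  · refine card_lucky hs B c.1 c.2 _ fun P hP => ?_
    obtain ⟨p1, p2⟩ := mem_filter.mp hP
    rw [← p2]
    exact ⟨rfl, rfl, (hA P p1).2.2.2.2⟩
  · rw [card_product, Nat.card_Icc, Nat.card_Icc, mul_comm]
    congr 2 <;> omega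

end

end Pool.Agent.Lib.MP_a9e7ee_nt
end

-- part Pool.Agent.Lib.MP_a9e7ee_nt.Arith
section

/-!
The 2-adic digits of `-3^(-i)` and the inverses of the powers of 2 modulo the powers of 3.
-/

namespace Pool.Agent.Lib.MP_a9e7ee_nt

/-- The residue of `-3^(-i)` modulo `2^s`, in `[0, 2^s)`. -/
noncomputable def resA (i s : ℕ) : ℕ :=
  (PadicInt.toZModPow (p := 2) s (-(Ring.inverse (3 : ℤ_[2])) ^ i)).val

theorem resA_lt (i s : ℕ) : resA i s < 2 ^ s := ZMod.val_lt _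

theorem resA_mod (i s : ℕ) : resA i (s + 1) % 2 ^ s = resA i s := by
  unfold resA
  rw [← PadicInt.cast_toZModPow s (s + 1) (Nat.le_succ s), ZMod.cast_eq_val, ZMod.val_natCast]

theorem digit_eq (s i : ℕ) : digit s i = resA i (s + 1) / 2 ^ s := rfl

theorem resA_succ (i s : ℕ) : resA i (s + 1) = resA i s + digit s i * 2 ^ s := by
  rw [digit_eq, ← resA_mod i s, mul_comm]
  exact (Nat.mod_add_div _ _).symm

theorem resA_zero (i : ℕ) : resA i 0 = 0 := by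
  have := resA_lt i 0
  omega

theorem digit_le_one (s i : ℕ) : digit s i ≤ 1 := by
  rw [digit_eq]
  apply Nat.le_of_lt_succ
  rw [Nat.div_lt_iff_lt_mul (by positivity)]
  have := resA_lt i (s + 1)
  rw [pow_succ] at this
  omega

theorem three_mul_inverse : (3 : ℤ_[2]) * Ring.inverse 3 = 1 := by
  apply Ring.mul_inverse_cancel
  rw [PadicInt.isUnit_iff]
  have h : ‖((3 : ℤ) : ℤ_[2])‖ = 1 := by
    rw [PadicInt.norm_intCast_eq_one_iff]
    norm_num
  simpa using h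

theorem resA_sum (i N : ℕ) :
    ∑ s ∈ Finset.range N, (digit s i : ℤ_[2]) * 2 ^ s = (resA i N : ℤ_[2]) := by
  induction N with
  | zero => simp [resA_zero]
  | succ N ih =>
    rw [Finset.sum_range_succ, ih, resA_succ]
    push_cast
    ring

theorem norm_two_pow (N : ℕ) : ‖(2 : ℤ_[2]) ^ N‖ = (1 / 2 : ℝ) ^ N := by
  have h := PadicInt.norm_p (p := 2)
  rw [norm_pow]
  congr 1
  simpa using h

theorem resA_close (i N : ℕ) :
    ‖(resA i N : ℤ_[2]) - (-(Ring.inverse (3 : ℤ_[2])) ^ i)‖ ≤ (1 / 2 : ℝ) ^ N := by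
  have h : (resA i N : ℤ_[2]) - (-(Ring.inverse (3 : ℤ_[2])) ^ i) ∈
      RingHom.ker (PadicInt.toZModPow (p := 2) N) := by
    rw [RingHom.mem_ker, map_sub, map_natCast, resA, ZMod.natCast_zmod_val, sub_self]
  rw [PadicInt.ker_toZModPow, Ideal.mem_span_singleton] at h
  obtain ⟨c, hc⟩ := h
  rw [hc, norm_mul]
  have h2 : ‖((2 : ℕ) : ℤ_[2]) ^ N‖ = (1 / 2 : ℝ) ^ N := by simpa using norm_two_pow N
  rw [h2]
  have := PadicInt.norm_le_one c
  have h0 : (0 : ℝ) ≤ (1 / 2) ^ N := by positivity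
  nlinarith

/-- Sanity check of the definition of the digits. -/
theorem digit_hasSum (i : ℕ) :
    HasSum (fun s => (digit s i : ℤ_[2]) * 2 ^ s) (-(Ring.inverse (3 : ℤ_[2])) ^ i) := by
  have hs : Summable fun s => ‖(digit s i : ℤ_[2]) * 2 ^ s‖ := by
    refine Summable.of_nonneg_of_le (fun _ => norm_nonneg _) (fun s => ?_) summable_geometric_two
    rw [norm_mul, norm_two_pow]
    have := PadicInt.norm_le_one (digit s i : ℤ_[2])
    have h0 : (0 : ℝ) ≤ (1 / 2) ^ s := by positivity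
    nlinarith
  rw [hasSum_iff_tendsto_nat_of_summable_norm hs]
  simp only [resA_sum]
  rw [tendsto_iff_norm_sub_tendsto_zero]
  refine squeeze_zero (fun _ => norm_nonneg _) (fun N => resA_close i N) ?_
  exact tendsto_pow_atTop_nhds_zero_of_lt_one (by norm_num) (by norm_num)

theorem resA_dvd (i s : ℕ) : (2 : ℤ) ^ s ∣ 3 ^ i * (resA i s : ℤ) + 1 := by
  have h : ((3 ^ i * resA i s + 1 : ℕ) : ZMod (2 ^ s)) = 0 := by
    have h1 : (3 : ℤ_[2]) ^ i * (-(Ring.inverse (3 : ℤ_[2])) ^ i) + 1 = 0 := by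
      rw [mul_neg, ← mul_pow, three_mul_inverse]
      simp
    have h2 := congrArg (PadicInt.toZModPow (p := 2) s) h1
    rw [map_add, map_mul, map_pow, map_one, map_zero, map_ofNat] at h2
    push_cast
    rw [resA, ZMod.natCast_zmod_val]
    exact h2
  rw [ZMod.natCast_eq_zero_iff] at h
  exact_mod_cast h

theorem mm_mul (i s : ℕ) : 2 ^ s * mm i s = 3 ^ i * (resA i s : ℤ) + 1 :=
  Int.mul_ediv_cancel' (resA_dvd i s)

theorem mm_pos (i s : ℕ) : 0 < mm i s := by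
  have h := mm_mul i s
  have h1 : (0 : ℤ) < 2 ^ s * mm i s := by rw [h]; positivity
  exact (mul_pos_iff_of_pos_left (by positivity)).1 h1

theorem mm_le (i s : ℕ) : mm i s ≤ 3 ^ i := by
  have h := mm_mul i s
  have h1 : (resA i s : ℤ) + 1 ≤ 2 ^ s := by exact_mod_cast resA_lt i s
  have h3 : (1 : ℤ) ≤ 3 ^ i := one_le_pow₀ (by norm_num)
  have h2 : (0 : ℤ) < 2 ^ s := by positivity
  have : 2 ^ s * mm i s ≤ 2 ^ s * 3 ^ i := by nlinarith
  exact le_of_mul_le_mul_left this h2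

theorem mm_inv (i s : ℕ) : 2 ^ s * mm i s ≡ 1 [ZMOD 3 ^ i] := by
  rw [mm_mul]
  apply Int.ModEq.symm
  rw [Int.modEq_iff_dvd]
  simp

theorem mm_succ (i s : ℕ) : 2 * mm i (s + 1) = mm i s + 3 ^ i * (digit s i : ℤ) := by
  have h1 := mm_mul i s
  have h2 := mm_mul i (s + 1)
  rw [resA_succ] at h2
  push_cast at h2
  have h0 : (2 : ℤ) ^ s ≠ 0 := by positivity
  apply mul_left_cancel₀ h0
  rw [mul_add, h1, ← mul_assoc, ← pow_succ, h2]
  ring

theorem mm_mod (i j s : ℕ) (h : j ≤ i) : mm i s ≡ mm j s [ZMOD 3 ^ j] := by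
  have h1 : 2 ^ s * mm i s ≡ 1 [ZMOD 3 ^ j] := (mm_inv i s).of_dvd (pow_dvd_pow _ h)
  have h2 := h1.trans (mm_inv j s).symm
  rw [Int.modEq_iff_dvd] at h2 ⊢
  rw [← mul_sub] at h2
  refine IsCoprime.dvd_of_dvd_mul_left ?_ h2
  apply IsCoprime.pow
  norm_num

theorem coe_add_int (r : ℝ) (n : ℤ) : ((r + n : ℝ) : UnitAddCircle) = (r : UnitAddCircle) := by
  rw [AddCircle.coe_add]
  have : ((n : ℝ) : UnitAddCircle) = 0 := by
    rw [AddCircle.coe_eq_zero_iff]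
    exact ⟨n, by simp⟩
  rw [this, add_zero]

theorem beta_eq (k p x y : ℕ) (h : x ≤ k) :
    beta k p (x, y) = (((mm (k - x) (y + p + 5) : ℝ) / 3 ^ (k - x) : ℝ) : UnitAddCircle) := by
  obtain ⟨i, rfl⟩ := Nat.exists_eq_add_of_le h
  rw [Nat.add_sub_cancel_left]
  obtain ⟨c, hc⟩ := (mm_mod (x + i) i (y + p + 5) (Nat.le_add_left _ _)).symm.dvd
  unfold beta
  rw [← coe_add_int ((mm i (y + p + 5) : ℝ) / 3 ^ i) c]
  congr 1
  have hc' : (mm (x + i) (y + p + 5) : ℝ) = mm i (y + p + 5) + 3 ^ i * c := by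
    have : mm (x + i) (y + p + 5) = mm i (y + p + 5) + 3 ^ i * c := by linarith
    exact_mod_cast this
  simp only
  rw [hc', pow_add]
  field_simp

theorem theta_sys (k p : ℕ) (l : ℤ) : Sys (theta k p l) := by
  constructor
  · intro x y
    unfold theta
    rw [smul_comm]
    congr 1
    unfold beta
    rw [← AddCircle.coe_nsmul]
    congr 1
    simp only [nsmul_eq_mul]
    push_cast
    ring
  · intro x y
    unfold theta
    rw [smul_comm]
    congr 1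
    unfold beta
    rw [← AddCircle.coe_nsmul, ← coe_add_int _ (3 ^ x * digit (y + p + 5) k)]
    congr 1
    have h : (2 : ℝ) * mm k (y + p + 5 + 1) = mm k (y + p + 5) + 3 ^ k * (digit (y + p + 5) k : ℝ) := by
      exact_mod_cast mm_succ k (y + p + 5)
    simp only [nsmul_eq_mul]
    rw [show y + 1 + p + 5 = y + p + 5 + 1 by ring]
    push_cast
    field_simp
    linarith

end Pool.Agent.Lib.MP_a9e7ee_nt
end
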