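import Pool.Agent.Lib.MP_a9e7ee_nt.Kernel

-- part Pool.Agent.Lib.MP_a9e7ee_nt.Block
section

/-!
The short steep lucky pieces: a block argument with stopping times.
-/

namespace Pool.Agent.Lib.MP_a9e7ee_nt

open Finset

open Classical in
/-- The end of the block that starts at time `t`. -/
noncomputable def sg (T h c : ℕ) (X : ℕ → ℕ) (t : ℕ) : ℕ :=
  Nat.find (⟨t + h, by omega, Or.inr (Or.inl le_rfl)⟩ :
    ∃ u, t ≤ u ∧ (T ≤ u ∨ t + h ≤ u ∨ X t + c ≤ X u))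

section

variable {T h c : ℕ} {X : ℕ → ℕ} {t : ℕ}

theorem sg_spec : t ≤ sg T h c X t ∧ (T ≤ sg T h c X t ∨ t + h ≤ sg T h c X t ∨
    X t + c ≤ X (sg T h c X t)) := by
  classical
  exact Nat.find_spec (p := fun u => t ≤ u ∧ (T ≤ u ∨ t + h ≤ u ∨ X t + c ≤ X u)) _

theorem sg_le {u : ℕ} (h1 : t ≤ u) (h2 : T ≤ u ∨ t + h ≤ u ∨ X t + c ≤ X u) :
    sg T h c X t ≤ u := by
  classical
  exact Nat.find_min' (p := fun u => t ≤ u ∧ (T ≤ u ∨ t + h ≤ u ∨ X t + c ≤ X u)) _ ⟨h1, h2⟩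

theorem le_sg : t ≤ sg T h c X t := sg_spec.1

theorem sg_le_T (ht : t ≤ T) : sg T h c X t ≤ T := sg_le ht (Or.inl le_rfl)

theorem sg_le_h : sg T h c X t ≤ t + h := sg_le (by omega) (Or.inr (Or.inl le_rfl))

theorem lt_sg (ht : t < T) (hh : 0 < h) (hc : 0 < c) : t < sg T h c X t := by
  obtain ⟨h1, h2⟩ := sg_spec (T := T) (h := h) (c := c) (X := X) (t := t)
  rcases h1.eq_or_lt with h3 | h3
  · rw [← h3] at h2; omega
  · exact h3

theorem sg_disp (hX : IsPath X) : X (sg T h c X t) ≤ X t + c := by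
  rcases (le_sg (T := T) (h := h) (c := c) (X := X) (t := t)).eq_or_lt with h3 | h3
  · rw [← h3]; omega
  · obtain ⟨u, hu⟩ : ∃ u, sg T h c X t = u + 1 := ⟨sg T h c X t - 1, by omega⟩
    have : ¬ X t + c ≤ X u := fun h4 => by
      have := sg_le (T := T) (h := h) (by omega : t ≤ u) (Or.inr (Or.inr h4)); omega
    rw [hu]
    rcases hX u with h5 | h5 <;> omega

theorem sg_congr {X' : ℕ → ℕ} (hX : ∀ u, u ≤ sg T h c X t → X' u = X u) :
    sg T h c X' t = sg T h c X t := by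
  obtain ⟨h1, h2⟩ := sg_spec (T := T) (h := h) (c := c) (X := X) (t := t)
  have a1 : sg T h c X' t ≤ sg T h c X t := sg_le h1 (by rw [hX _ h1, hX _ le_rfl]; exact h2)
  obtain ⟨h3, h4⟩ := sg_spec (T := T) (h := h) (c := c) (X := X') (t := t)
  exact le_antisymm a1 (sg_le h3 (by rwa [hX _ h1, hX _ a1] at h4))

end

/-- The possible ends of short steep lucky pieces of class `B`. -/
def GB (θ : ℕ × ℕ → UnitAddCircle) (B T : ℕ) (P : ℕ × ℕ) : Prop :=
  Lucky θ B P ∧ P.2 + 1 < T ∧ ∃ x' x1, x' ≤ P.1 ∧ P.1 ≤ x' + g0 B ^ 7 ∧ P.1 ≤ x1 ∧ x1 ≤ P.1 + 1 ∧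
    White θ (x1, P.2 + 1) ∧ Deep (1 / 10) θ (x', P.2) (g0 B ^ 8 - 1)

open Classical in
/-- The active rows. -/
noncomputable def Act (θ : ℕ × ℕ → UnitAddCircle) (B T h t x : ℕ) : Finset ℕ :=
  ((Ico t (t + 2 * h)).filter fun e => t + g0 B ^ 8 ≤ e + 1 ∧
    ∃ y, x ≤ y ∧ y ≤ x + 4 * g0 B ^ 7 ∧ GB θ B T (y, e)).image (· / g0 B ^ 8)

/-- The end of the double block. -/
noncomputable def sg2 (B T h : ℕ) (X : ℕ → ℕ) (t : ℕ) : ℕ :=
  sg T h (2 * g0 B ^ 7) X (sg T h (2 * g0 B ^ 7) X t)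

open Classical in
/-- The rows in which the path meets a possible end in the second half of the double block. -/
noncomputable def Ntil (θ : ℕ × ℕ → UnitAddCircle) (B T h : ℕ) (X : ℕ → ℕ) (t : ℕ) : Finset ℕ :=
  ((Ico (sg T h (2 * g0 B ^ 7) X t) (sg2 B T h X t)).filter fun e => t + g0 B ^ 8 ≤ e + 1 ∧
    GB θ B T (X e, e)).image (· / g0 B ^ 8)

theorem g0_facts {B : ℕ} (hB : 16 ≤ B) : 16 * g0 B ^ 7 ≤ g0 B ^ 8 ∧ 1 ≤ g0 B ^ 7 :=
  ⟨by rw [pow_succ' _ 7]; exact Nat.mul_le_mul_right _ (K0_ge.trans (K0_le_g0 hB)),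
    Nat.one_le_pow _ _ (g0_pos B)⟩

section

variable {θ : ℕ × ℕ → UnitAddCircle} {B T h t : ℕ} {X : ℕ → ℕ}

theorem card_rows {R a n : ℕ} (hR : 0 < R) (A : Finset ℕ)
    (hA : ∀ y ∈ A, a / R ≤ y ∧ y ≤ (a + n) / R) : A.card * R ≤ n + 2 * R := by
  have h1 : A ⊆ Icc (a / R) ((a + n) / R) := fun y hy => mem_Icc.mpr (hA y hy)
  have h2 := card_le_card h1
  rw [Nat.card_Icc] at h2
  have h3 := Nat.div_mul_le_self (a + n) R
  have h4 := Nat.lt_div_mul_add (a := a) hR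
  have h5 : a / R ≤ (a + n) / R := Nat.div_le_div_right (by omega)
  obtain ⟨d, hd⟩ := Nat.exists_eq_add_of_le h5
  rw [hd] at h2 h3
  have h6 : A.card * R ≤ (d + 1) * R := Nat.mul_le_mul_right _ (by omega)
  rw [add_mul] at h3 h6
  omega

theorem card_Act (x : ℕ) : (Act θ B T h t x).card * g0 B ^ 8 ≤ 2 * h + 2 * g0 B ^ 8 := by
  classical
  refine card_rows (a := t) (pow_pos (g0_pos B) _) _ fun y hy => ?_
  obtain ⟨e, he, rfl⟩ := mem_image.mp hy
  have := mem_Ico.mp (mem_filter.mp he).1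
  exact ⟨Nat.div_le_div_right this.1, Nat.div_le_div_right this.2.le⟩

theorem Ntil_subset (hX : IsPath X) : Ntil θ B T h X t ⊆ Act θ B T h t (X t) := by
  classical
  refine image_subset_image fun e he => ?_
  obtain ⟨h1, h2, h3⟩ := mem_filter.mp he
  rw [mem_Ico] at h1
  have a1 := le_sg (T := T) (h := h) (c := 2 * g0 B ^ 7) (X := X) (t := t)
  have a2 := sg_le_h (T := T) (h := h) (c := 2 * g0 B ^ 7) (X := X) (t := t)
  have a3 := sg_le_h (T := T) (h := h) (c := 2 * g0 B ^ 7) (X := X)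
    (t := sg T h (2 * g0 B ^ 7) X t)
  have a4 := sg_disp (T := T) (h := h) (c := 2 * g0 B ^ 7) (t := t) hX
  have a5 := sg_disp (T := T) (h := h) (c := 2 * g0 B ^ 7) (t := sg T h (2 * g0 B ^ 7) X t) hX
  have a6 := hX.mono h1.2.le
  unfold sg2 at h1 a6
  exact mem_filter.mpr ⟨mem_Ico.mpr ⟨by omega, by omega⟩, h2, X e, hX.mono (by omega), by omega,
    h3⟩

theorem typ_sg (hX : IsPath X) (ht : t ≤ T) (hy : X (min (t + 2 * h) T) < X t + 2 * g0 B ^ 7) :
    min (t + h) T ≤ sg T h (2 * g0 B ^ 7) X t ∧ min (t + 2 * h) T ≤ sg2 B T h X t := by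
  obtain ⟨a1, a2⟩ := sg_spec (T := T) (h := h) (c := 2 * g0 B ^ 7) (X := X) (t := t)
  have a3 := sg_le_h (T := T) (h := h) (c := 2 * g0 B ^ 7) (X := X) (t := t)
  have a4 := sg_le_T (h := h) (c := 2 * g0 B ^ 7) (X := X) ht
  obtain ⟨b1, b2⟩ := sg_spec (T := T) (h := h) (c := 2 * g0 B ^ 7) (X := X)
    (t := sg T h (2 * g0 B ^ 7) X t)
  have b3 := sg_le_h (T := T) (h := h) (c := 2 * g0 B ^ 7) (X := X)
    (t := sg T h (2 * g0 B ^ 7) X t)
  have b4 := sg_le_T (h := h) (c := 2 * g0 B ^ 7) (X := X) a4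
  have c1 := hX.mono (show sg T h (2 * g0 B ^ 7) X t ≤ min (t + 2 * h) T by omega)
  have c2 := hX.mono (show sg T h (2 * g0 B ^ 7) X (sg T h (2 * g0 B ^ 7) X t) ≤
    min (t + 2 * h) T by omega)
  have c3 := hX.mono a1
  unfold sg2
  omega

theorem typ_white (hs : Sys θ) (hX : IsPath X) (hB : 16 ≤ B) (ht : t ≤ T)
    (hy : X (min (t + 2 * h) T) < X t + 2 * g0 B ^ 7) :
    (Act θ B T h t (X t)).card ≤ 3 * Wc θ X (t + 1) (min (sg2 B T h X t + 1) T) := by
  classical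
  obtain ⟨g1, g2⟩ := g0_facts hB
  have hR : 0 < g0 B ^ 8 := by omega
  obtain ⟨-, s2⟩ := typ_sg (B := B) hX ht hy
  let Wt := (Ico (t + 1) (min (sg2 B T h X t + 1) T)).filter fun u => White θ (X u, u)
  have h1 : Act θ B T h t (X t) ⊆ Wt.biUnion fun u => Icc (u / g0 B ^ 8 - 1) (u / g0 B ^ 8 + 1) := by
    intro r hr
    obtain ⟨e, he, rfl⟩ := mem_image.mp hr
    obtain ⟨a1, a2, y, a3, a4, -, a5, x', x1, a6, a7, a8, a9, a10, a11⟩ := mem_filter.mp he
    rw [mem_Ico] at a1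
    simp only at a5 a6 a7 a8 a9 a10 a11
    have m1 := hX.mono (show t ≤ e - (g0 B ^ 8 - 2) by omega)
    have m2 := hX.mono (show e ≤ min (t + 2 * h) T by omega)
    obtain ⟨u, u1, u2, u3⟩ := guarantee hs hX (L := g0 B ^ 8 - 2) a10 a11 (by omega) (by omega)
      (by omega) (by omega) (by omega)
    refine mem_biUnion.mpr ⟨u, mem_filter.mpr ⟨mem_Ico.mpr ⟨by omega, by omega⟩, u3⟩, ?_⟩
    have d1 := div_close (a := u) (b := e) (n := 1) hR (by omega)
    have d2 := div_close (a := e) (b := u) (n := 1) hR (by omega)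
    exact mem_Icc.mpr ⟨Nat.sub_le_of_le_add d1, d2⟩
  have h2 := (card_le_card h1).trans (card_biUnion_le_card_mul _ _ 3 fun u _ => by
    rw [Nat.card_Icc]; omega)
  rw [mul_comm] at h2
  exact h2

theorem block_step (hs : Sys θ) {ρ q x s : ℝ} (hq : 0 < q) (h0 : 0 < ρ) (h1 : ρ ≤ 1 - q)
    (hB : 16 ≤ B) (hh1 : (g0 B : ℝ) ^ 4 ≤ ρ * h) (hh2 : ρ * h ≤ 2 * (g0 B : ℝ) ^ 4)
    (hh3 : g0 B ^ 8 ≤ h) (hx0 : 0 ≤ x) (hx : x ≤ 2 * ρ * g0 B) (hs0 : 0 ≤ s) (hs1 : s ≤ ρ)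
    (hxs : 72 * x ≤ s * g0 B * Real.sqrt q) (ht : t ≤ T) (ω : ℕ → Bool) :
    E ρ t (T - t) (fun w => Real.exp (x * (Ntil θ B T h (pos w) t).card -
      s * Wc θ (pos w) (t + 1) (min (sg2 B T h (pos w) t + 1) T))) ω ≤ 1 := by
  classical
  obtain ⟨g1, g2⟩ := g0_facts hB
  have hg16 : (16 : ℝ) ≤ g0 B := by exact_mod_cast K0_ge.trans (K0_le_g0 hB)
  have hg : (0 : ℝ) < g0 B := by linarith
  have hsq : 0 < Real.sqrt q := Real.sqrt_pos.mpr hq
  have hsq1 : Real.sqrt q ≤ 1 := Real.sqrt_le_one.mpr (by linarith)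
  set x0 := pos ω t with hx0'
  set n : ℝ := ((Act θ B T h t x0).card : ℝ) with hn
  have hn0 : 0 ≤ n := by positivity
  have hn1 : ρ * n * g0 B ≤ 1 / 2 := by
    have a1 : (Act θ B T h t x0).card * g0 B ^ 8 ≤ 4 * h := by
      have := card_Act (θ := θ) (B := B) (T := T) (h := h) (t := t) x0; omega
    have a2 : n * (g0 B : ℝ) ^ 8 ≤ 4 * h := by rw [hn]; exact_mod_cast a1
    have a3 : ρ * n * g0 B * (g0 B : ℝ) ^ 7 ≤ 8 * (g0 B : ℝ) ^ 4 := by nlinarith
    have a4 : 8 * (g0 B : ℝ) ^ 4 ≤ 1 / 2 * (g0 B : ℝ) ^ 7 := by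
      have : (16 : ℝ) ≤ (g0 B : ℝ) ^ 3 := hg16.trans (le_self_pow₀ (by linarith) (by norm_num))
      have h4 : (0 : ℝ) < (g0 B : ℝ) ^ 4 := by positivity
      nlinarith
    exact le_of_mul_le_mul_right (a3.trans a4) (by positivity)
  let A : (ℕ → Bool) → ℝ := fun w =>
    if x0 + 2 * g0 B ^ 7 ≤ pos w (min (t + 2 * h) T) then 1 else 0
  let F := (Icc x0 (x0 + 4 * g0 B ^ 7) ×ˢ Ico (t + h) T).filter fun P =>
    P.2 / g0 B ^ 8 ∈ Act θ B T h t x0 ∧ Lucky θ B P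
  have hF : F.card ≤ 2 * g0 B * (Act θ B T h t x0).card := by
    refine card_le_mul_card_image_of_maps_to (f := fun P => P.2 / g0 B ^ 8)
      (fun P hP => (mem_filter.mp hP).2.1) _ fun r _ => ?_
    refine (card_lucky_rect hs B x0 r 1 0 _ fun P hP => ?_).trans_eq (by ring)
    obtain ⟨a1, a2⟩ := mem_filter.mp hP
    obtain ⟨a3, -, a4⟩ := mem_filter.mp a1
    have a5 := mem_Icc.mp (mem_product.mp a3).1
    rw [K0_pow]
    exact ⟨a5.1, by omega, a2.ge, a2.le, a4⟩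
  have hA : E ρ t (T - t) A ω ≤ 1 / g0 B := by
    refine (E_tail h0.le (by linarith) (by omega) (by omega) _ ω).trans ?_
    have a1 : ((min (t + 2 * h) T - t : ℕ) : ℝ) ≤ 2 * h := by
      exact_mod_cast (by omega : min (t + 2 * h) T - t ≤ 2 * h)
    have a2 : Real.exp (ρ * ((min (t + 2 * h) T - t : ℕ) : ℝ)) ≤ Real.exp (4 * (g0 B : ℝ) ^ 5) := by
      refine Real.exp_le_exp.mpr ?_
      have : (g0 B : ℝ) ^ 4 ≤ (g0 B : ℝ) ^ 5 := pow_le_pow_right₀ (by linarith) (by norm_num)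
      nlinarith
    have a3 := tail_small (K0_ge.trans (K0_le_g0 hB))
    have a4 : (g0 B : ℝ) ≤ (g0 B : ℝ) ^ 10 := le_self_pow₀ (by linarith) (by norm_num)
    have a5 : (2 : ℝ) ^ (g0 B ^ 7) ≤ 2 ^ (2 * g0 B ^ 7) := pow_le_pow_right₀ one_le_two (by omega)
    rw [div_le_div_iff₀ (by positivity) hg]
    calc _ ≤ Real.exp (4 * (g0 B : ℝ) ^ 5) * (g0 B : ℝ) ^ 10 := by gcongr
      _ ≤ _ := by linarith
  have hH : ∀ P ∈ F, E ρ t (T - t) (fun w => if pos w P.2 = P.1 then 1 else 0) ω ≤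
      1 / (g0 B ^ 2 * Real.sqrt q) := by
    intro P hP
    have b1 := mem_Ico.mp (mem_product.mp (mem_filter.mp hP).1).2
    refine (E_hit h0 (by linarith) (by omega) (by omega) P.1 ω).trans ?_
    refine one_div_le_one_div_of_le (by positivity) (Real.le_sqrt_of_sq_le ?_)
    have b4 : (h : ℝ) ≤ ((P.2 - t : ℕ) : ℝ) := by exact_mod_cast (by omega : h ≤ P.2 - t)
    rw [mul_pow, Real.sq_sqrt hq.le]
    refine mul_le_mul ?_ (by linarith) hq.le (by positivity)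
    nlinarith
  have hpt : ∀ w, Agr t ω w → Real.exp (x * (Ntil θ B T h (pos w) t).card -
      s * Wc θ (pos w) (t + 1) (min (sg2 B T h (pos w) t + 1) T)) ≤
      (1 - s * n / 6) + ((2 * x * n + s * n / 6) * A w +
        2 * x * ∑ P ∈ F, if pos w P.2 = P.1 then 1 else 0) := by
    intro w hw
    have hx1 : pos w t = x0 := pos_congr hw le_rfl
    have hX := pos_isPath w
    set N : ℝ := ((Ntil θ B T h (pos w) t).card : ℝ) with hN
    set W : ℝ := (Wc θ (pos w) (t + 1) (min (sg2 B T h (pos w) t + 1) T) : ℝ) with hW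
    have hN0 : 0 ≤ N := by positivity
    have hW0 : 0 ≤ W := by positivity
    have hsub := Ntil_subset (θ := θ) (B := B) (T := T) (h := h) (t := t) hX
    rw [hx1] at hsub
    have hNn : N ≤ n := by rw [hN, hn]; exact_mod_cast card_le_card hsub
    have e1 : Real.exp (x * N) ≤ 1 + 2 * (x * N) := by
      have a1 : x * N ≤ 1 := by
        calc x * N ≤ (2 * ρ * g0 B) * n := by gcongr
          _ ≤ 1 := by linarith
      have := Real.abs_exp_sub_one_le (x := x * N) (by rwa [abs_of_nonneg (by positivity)])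
      rw [abs_of_nonneg (by positivity : 0 ≤ x * N)] at this
      linarith [le_abs_self (Real.exp (x * N) - 1)]
    have e2 : Real.exp (x * N - s * W) ≤ 2 * x * N + Real.exp (-(s * W)) := by
      have a1 : 1 ≤ Real.exp (x * N) := Real.one_le_exp (by positivity)
      have a2 : Real.exp (-(s * W)) ≤ 1 := Real.exp_le_one_iff.mpr (by
        have : 0 ≤ s * W := by positivity
        linarith)
      rw [sub_eq_add_neg, Real.exp_add]
      nlinarith
    have hS : (0 : ℝ) ≤ ∑ P ∈ F, if pos w P.2 = P.1 then 1 else 0 :=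
      sum_nonneg fun _ _ => by split_ifs <;> norm_num
    refine e2.trans ?_
    by_cases hy : x0 + 2 * g0 B ^ 7 ≤ pos w (min (t + 2 * h) T)
    · have a2 : Real.exp (-(s * W)) ≤ 1 := Real.exp_le_one_iff.mpr (by
        have : 0 ≤ s * W := by positivity
        linarith)
      simp only [A, if_pos hy]
      nlinarith [mul_le_mul_of_nonneg_left hNn hx0, mul_nonneg hx0 hS]
    · simp only [A, if_neg hy]
      rw [← hx1] at hy
      have b1 := typ_white (h := h) hs hX hB ht (not_le.mp hy)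
      obtain ⟨b2, -⟩ := typ_sg (B := B) hX ht (not_le.mp hy)
      rw [hx1] at b1
      have b3 : n ≤ 3 * W := by rw [hn, hW]; exact_mod_cast b1
      have b4 : Real.exp (-(s * W)) ≤ 1 - s * n / 6 := by
        have c0 : 0 ≤ s * n := by positivity
        have c1 : s * n ≤ 1 := by
          have : ρ * n * 16 ≤ ρ * n * g0 B := by gcongr
          have : s * n ≤ ρ * n := by gcongr
          linarith
        have c2 : Real.exp (-(s * W)) ≤ Real.exp (-(s * n / 3)) :=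
          Real.exp_le_exp.mpr (by nlinarith)
        have c3 := Real.add_one_le_exp (s * n / 3)
        have c4 : Real.exp (-(s * n / 3)) * Real.exp (s * n / 3) = 1 := by
          rw [← Real.exp_add]; simp
        have c5 := Real.exp_pos (-(s * n / 3))
        refine c2.trans (le_of_mul_le_mul_right ?_ (by linarith : 0 < s * n / 3 + 1))
        nlinarith
      have b5 : N ≤ ∑ P ∈ F, if pos w P.2 = P.1 then 1 else 0 := by
        rw [← sum_filter, sum_const, nsmul_eq_mul, mul_one, hN, Nat.cast_le]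
        refine card_image_le.trans (card_le_card_of_injOn (fun e => (pos w e, e)) (fun e he => ?_)
          fun e _ e' _ h => (Prod.ext_iff.mp h).2)
        have c0 := hsub (mem_image_of_mem (· / g0 B ^ 8) he)
        obtain ⟨c1, c2, c3⟩ := mem_filter.mp he
        rw [mem_Ico] at c1
        have c4 := c3.2.1
        have a1 := le_sg (T := T) (h := h) (c := 2 * g0 B ^ 7) (X := pos w) (t := t)
        have a4 := sg_disp (T := T) (h := h) (c := 2 * g0 B ^ 7) (t := t) hX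
        have a5 := sg_disp (T := T) (h := h) (c := 2 * g0 B ^ 7)
          (t := sg T h (2 * g0 B ^ 7) (pos w) t) hX
        have a6 := hX.mono c1.2.le
        have a7 := hX.mono (show t ≤ e by omega)
        unfold sg2 at a6
        simp only [F, coe_filter, mem_filter, mem_product, mem_Icc, mem_Ico, Set.mem_ofPred_eq]
        simp only at c4
        exact ⟨⟨⟨⟨by omega, by omega⟩, by omega, by omega⟩, c0, c3.1⟩, trivial⟩
      nlinarith [mul_le_mul_of_nonneg_left b5 hx0]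
  refine (E_mono h0.le (by linarith) hpt).trans ?_
  rw [E_add, E_add, E_const, E_mul, E_mul, E_sum]
  have f1 := sum_le_card_nsmul _ _ _ hH
  have f2 : (F.card : ℝ) ≤ 2 * g0 B * n := by rw [hn]; exact_mod_cast hF
  have f3 : F.card • (1 / (g0 B ^ 2 * Real.sqrt q)) ≤ 2 * n * (1 / (g0 B * Real.sqrt q)) := by
    rw [nsmul_eq_mul]
    calc _ ≤ 2 * g0 B * n * (1 / (g0 B ^ 2 * Real.sqrt q)) := by gcongr
      _ = _ := by field_simp
  have f4 : 1 / (g0 B : ℝ) ≤ 1 / (g0 B * Real.sqrt q) :=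
    one_div_le_one_div_of_le (by positivity) (by nlinarith)
  have f5 : 1 / (g0 B : ℝ) ≤ 1 / 2 := one_div_le_one_div_of_le (by norm_num) (by linarith)
  have f6 : 72 * x * (1 / (g0 B * Real.sqrt q)) ≤ s := by
    rw [mul_one_div, div_le_iff₀ (by positivity)]; linarith
  have f7 : 2 * x * n * E ρ t (T - t) A ω ≤ 2 * x * n * (1 / (g0 B * Real.sqrt q)) :=
    mul_le_mul_of_nonneg_left (hA.trans f4) (by positivity)
  have f8 : s * n / 6 * E ρ t (T - t) A ω ≤ s * n / 6 * (1 / 2) :=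
    mul_le_mul_of_nonneg_left (hA.trans f5) (by positivity)
  have f9 := mul_le_mul_of_nonneg_left (f1.trans f3) (by positivity : 0 ≤ 2 * x)
  have f10 := mul_le_mul_of_nonneg_left f6 hn0
  nlinarith

end

end Pool.Agent.Lib.MP_a9e7ee_nt
end

-- part Pool.Agent.Lib.MP_a9e7ee_nt.Core
section

/-!
The core inequality: the code length is paid by the white times.
-/

namespace Pool.Agent.Lib.MP_a9e7ee_nt

open Finset

/-- The total of the majorants over the chain of double blocks that starts at time `t`. -/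
noncomputable def SN (θ : ℕ × ℕ → UnitAddCircle) (B T h : ℕ) (X : ℕ → ℕ) : ℕ → ℕ → ℕ
  | 0, _ => 0
  | n + 1, t => (Ntil θ B T h X t).card + SN θ B T h X n (sg2 B T h X t)

open Classical in
/-- The short steep lucky pieces of class `B`. -/
noncomputable def LB (θ : ℕ × ℕ → UnitAddCircle) (X : ℕ → ℕ) (T B : ℕ) : Finset ℕ :=
  (LS θ X T).filter fun s => cls θ X T s = B ∧ X (nxt θ X T s - 1) < X (s - 1) + g0 B ^ 7

/-- The number of short steep lucky pieces of class `B` that end in `[a, b)`. -/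
noncomputable def NB (θ : ℕ × ℕ → UnitAddCircle) (X : ℕ → ℕ) (T B a b : ℕ) : ℕ :=
  ((LB θ X T B).filter fun s => a ≤ nxt θ X T s - 1 ∧ nxt θ X T s - 1 < b).card

section

variable {θ : ℕ × ℕ → UnitAddCircle} {B T h t : ℕ} {X : ℕ → ℕ}

theorem le_sg2 : sg T h (2 * g0 B ^ 7) X t ≤ sg2 B T h X t := le_sg

theorem sg2_le (ht : t ≤ T) : sg2 B T h X t ≤ T := sg_le_T (sg_le_T ht)

theorem sg2_congr {X' : ℕ → ℕ} (hX : ∀ u, u ≤ sg2 B T h X t → X' u = X u) :
    sg T h (2 * g0 B ^ 7) X' t = sg T h (2 * g0 B ^ 7) X t ∧ sg2 B T h X' t = sg2 B T h X t := by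
  have h1 : sg T h (2 * g0 B ^ 7) X' t = sg T h (2 * g0 B ^ 7) X t :=
    sg_congr fun u hu => hX u (hu.trans le_sg2)
  refine ⟨h1, ?_⟩
  unfold sg2
  rw [h1]
  exact sg_congr hX

theorem chain_bound (hs : Sys θ) {ρ q x s : ℝ} (hq : 0 < q) (h0 : 0 < ρ) (h1 : ρ ≤ 1 - q)
    (hB : 16 ≤ B) (hh1 : (g0 B : ℝ) ^ 4 ≤ ρ * h) (hh2 : ρ * h ≤ 2 * (g0 B : ℝ) ^ 4)
    (hh3 : g0 B ^ 8 ≤ h) (hx0 : 0 ≤ x) (hx : x ≤ 2 * ρ * g0 B) (hs0 : 0 ≤ s) (hs1 : s ≤ ρ)
    (hxs : 72 * x ≤ s * g0 B * Real.sqrt q) (n : ℕ) : ∀ t, t ≤ T → ∀ ω : ℕ → Bool,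
    E ρ t (T - t) (fun w => Real.exp (x * SN θ B T h (pos w) n t -
      s * Wc θ (pos w) (t + 1) T)) ω ≤ 1 := by
  classical
  induction n with
  | zero =>
    intro t _ ω
    refine E_le_const h0.le (by linarith) fun w _ => Real.exp_le_one_iff.mpr ?_
    have : 0 ≤ s * Wc θ (pos w) (t + 1) T := by positivity
    simp only [SN, Nat.cast_zero, mul_zero]
    linarith
  | succ n ih =>
    intro t ht ω
    have key := E_stop h0.le (by linarith : ρ ≤ 1) (T := T) (fun w => sg2 B T h (pos w) t)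
      (fun w => Real.exp (x * (Ntil θ B T h (pos w) t).card -
        s * Wc θ (pos w) (t + 1) (min (sg2 B T h (pos w) t + 1) T)))
      (fun u w => Real.exp (x * SN θ B T h (pos w) n u - s * Wc θ (pos w) (u + 1) T))
      (fun w => sg2_le ht) (fun w => (Real.exp_pos _).le) (t0 := t) (by
        intro w w' hw
        have a1 : ∀ u, u ≤ sg2 B T h (pos w) t → pos w' u = pos w u := fun u hu => pos_congr hw hu
        obtain ⟨a2, a3⟩ := sg2_congr a1
        refine ⟨a3, ?_⟩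
        have a4 : Ntil θ B T h (pos w') t = Ntil θ B T h (pos w) t := by
          unfold Ntil
          rw [a2, a3]
          congr 1
          exact filter_congr fun e he => by rw [a1 e (mem_Ico.mp he).2.le]
        rw [a3, a4, Wc_congr (X := pos w) (X' := pos w') fun u hu => a1 u (by omega)])
      (fun u _ hu w => ih u hu w) (T - t) t (by omega) le_rfl ω (le_sg.trans le_sg2)
    refine le_trans (E_mono h0.le (by linarith) fun w _ => ?_) (key.trans
      (block_step hs hq h0 h1 hB hh1 hh2 hh3 hx0 hx hs0 hs1 hxs ht ω))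
    rw [← Real.exp_add]
    refine Real.exp_le_exp.mpr ?_
    have a1 : Wc θ (pos w) (t + 1) (min (sg2 B T h (pos w) t + 1) T) +
        Wc θ (pos w) (sg2 B T h (pos w) t + 1) T ≤ Wc θ (pos w) (t + 1) T := by
      have b1 : t ≤ sg2 B T h (pos w) t := le_sg.trans le_sg2
      rcases le_or_gt (sg2 B T h (pos w) t + 1) T with h2 | h2
      · rw [min_eq_left h2, ← Wc_add _ (by omega) h2]
      · rw [min_eq_right h2.le]
        simp [Wc, Ico_eq_empty_of_le h2.le]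
    have a2 : (Wc θ (pos w) (t + 1) (min (sg2 B T h (pos w) t + 1) T) : ℝ) +
        Wc θ (pos w) (sg2 B T h (pos w) t + 1) T ≤ Wc θ (pos w) (t + 1) T := by exact_mod_cast a1
    simp only [SN]
    push_cast
    nlinarith

theorem LB_spec {s : ℕ} (h : s ∈ LB θ X T B) :
    s ∈ St θ X T ∧ 0 < s ∧ nxt θ X T s < T ∧ 16 ≤ B ∧
      Lucky θ B (X (nxt θ X T s - 1), nxt θ X T s - 1) ∧ ¬ White θ (X s, s) ∧
      X (nxt θ X T s - 1) < X (s - 1) + g0 B ^ 7 ∧ s + g0 B ^ 8 ≤ nxt θ X T s := by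
  classical
  obtain ⟨h1, h2, h3⟩ := mem_filter.mp h
  obtain ⟨a1, a2, a3, a4, a5, a6⟩ := LS_spec h1
  have a7 := pow_cls_le (θ := θ) (X := X) (T := T) s
  have a8 := lt_nxt (θ := θ) (X := X) (T := T) s
  rw [h2] at a4 a5 a7
  rw [K0_pow] at a7
  exact ⟨a1, a2, a3, a4, a5, a6, h3, by omega⟩

theorem LB_injOn : Set.InjOn (fun s => (nxt θ X T s - 1) / g0 B ^ 8) (LB θ X T B : Set ℕ) := by
  have key : ∀ s ∈ LB θ X T B, ∀ s' ∈ LB θ X T B, s < s' →
      (nxt θ X T s - 1) / g0 B ^ 8 < (nxt θ X T s' - 1) / g0 B ^ 8 := by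
    intro s hs s' hs' hl
    have hR : 0 < g0 B ^ 8 := pow_pos (g0_pos B) _
    have a1 := nxt_le_of_lt (LB_spec hs).1 (LB_spec hs').1 hl
    have a2 := (LB_spec hs').2.2.2.2.2.2.2
    have a3 := lt_nxt (θ := θ) (X := X) (T := T) s
    have a4 : (nxt θ X T s - 1 + g0 B ^ 8) / g0 B ^ 8 ≤ (nxt θ X T s' - 1) / g0 B ^ 8 :=
      Nat.div_le_div_right (by omega)
    rw [Nat.add_div_right _ hR] at a4
    exact a4
  intro s hs s' hs' he
  rcases lt_trichotomy s s' with h | h | h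
  · exact absurd he (key s hs s' hs' h).ne
  · exact h
  · exact absurd he (key s' hs' s hs h).ne'

theorem NB_le_Ntil (hs : Sys θ) (hX : IsPath X) (hh3 : g0 B ^ 8 ≤ h) :
    NB θ X T B (sg T h (2 * g0 B ^ 7) X t) (sg2 B T h X t) ≤ (Ntil θ B T h X t).card := by
  classical
  refine card_le_card_of_injOn (fun s => (nxt θ X T s - 1) / g0 B ^ 8) (fun s hs1 => ?_)
    (LB_injOn.mono (coe_subset.mpr (filter_subset _ _)))
  obtain ⟨b1, b2, b3⟩ := mem_filter.mp hs1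
  obtain ⟨a1, a2, a3, a4, a5, a6, a7, a8⟩ := LB_spec b1
  obtain ⟨g1, g2⟩ := g0_facts a4
  obtain ⟨c1, -, c3, -⟩ := nxt_spec (St_lt a1) a6
  have c4 := white_nxt hs hX a6 a3
  obtain ⟨e, he⟩ : ∃ e, nxt θ X T s = e + 1 := ⟨nxt θ X T s - 1, by omega⟩
  simp only [he, Nat.add_sub_cancel] at *
  have m1 := hX.mono (show s - 1 ≤ s by omega)
  have m2 := hX.mono (show s ≤ e by omega)
  refine mem_coe.mpr (mem_image_of_mem _ (mem_filter.mpr ⟨mem_Ico.mpr ⟨b2, b3⟩, ?_, a5, a3,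
    X s, X (e + 1), m2, by simp only; omega, hX.mono (by simp), ?_, c4, ?_⟩))
  · by_contra hc
    obtain ⟨d1, d2⟩ := sg_spec (T := T) (h := h) (c := 2 * g0 B ^ 7) (X := X) (t := t)
    have m3 := hX.mono (show s - 1 ≤ t by omega)
    have m4 := hX.mono b2
    omega
  · rcases hX e with h1 | h1 <;> simp only <;> omega
  · exact (c3.deep hs m2 (by simp only; omega)).mono (by simp only; omega)

theorem NB_add {a b c : ℕ} : NB θ X T B a c ≤ NB θ X T B a b + NB θ X T B b c := by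
  unfold NB
  refine le_trans (card_le_card fun s hs => ?_) (card_union_le _ _)
  simp only [mem_union, mem_filter] at hs ⊢
  rcases lt_or_ge (nxt θ X T s - 1) b with h | h
  · exact Or.inl ⟨hs.1, hs.2.1, h⟩
  · exact Or.inr ⟨hs.1, h, hs.2.2⟩

theorem NB_chain (hs : Sys θ) (hX : IsPath X) (hh3 : g0 B ^ 8 ≤ h) (n : ℕ) :
    ∀ t, t ≤ T → T - t ≤ n → NB θ X T B (sg T h (2 * g0 B ^ 7) X t) T ≤
      SN θ B T h X n t + SN θ B T h X n (sg T h (2 * g0 B ^ 7) X t) := by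
  have h0 : ∀ t, t = T → NB θ X T B (sg T h (2 * g0 B ^ 7) X t) T = 0 := by
    rintro t rfl
    refine card_eq_zero.mpr (filter_eq_empty_iff.mpr fun s _ => ?_)
    have := le_sg (T := t) (h := h) (c := 2 * g0 B ^ 7) (X := X) (t := t)
    omega
  induction n with
  | zero => intro t h1 h2; rw [h0 t (by omega)]; omega
  | succ n ih =>
    intro t h1 h2
    rcases h1.eq_or_lt with h3 | h3
    · rw [h0 t h3]; omega
    have g1 : 0 < g0 B ^ 8 := pow_pos (g0_pos B) _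
    have g2 : 0 < g0 B ^ 7 := pow_pos (g0_pos B) _
    have a1 := lt_sg (h := h) (c := 2 * g0 B ^ 7) (X := X) h3 (by omega) (by omega)
    have a2 := le_sg2 (B := B) (T := T) (h := h) (X := X) (t := t)
    have a3 := ih (sg2 B T h X t) (sg2_le h1) (by omega)
    have a4 := NB_le_Ntil (T := T) (t := t) hs hX hh3
    have a5 := NB_le_Ntil (T := T) (t := sg T h (2 * g0 B ^ 7) X t) hs hX hh3
    have a6 := NB_add (θ := θ) (X := X) (T := T) (B := B) (a := sg T h (2 * g0 B ^ 7) X t)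
      (b := sg2 B T h X t) (c := T)
    have a7 := NB_add (θ := θ) (X := X) (T := T) (B := B) (a := sg2 B T h X t)
      (b := sg T h (2 * g0 B ^ 7) X (sg2 B T h X t)) (c := T)
    simp only [SN]
    unfold sg2 at *
    omega

theorem class_part (hs : Sys θ) {ρ q a s : ℝ} (hq : 0 < q) (h0 : 0 < ρ) (h1 : ρ ≤ 1 - q)
    (hB : 16 ≤ B) (hρ : ρ * (g0 B : ℝ) ^ 4 ≤ 1) (ha0 : 0 ≤ a) (ha : a ≤ ρ * g0 B) (hs0 : 0 ≤ s)
    (hs1 : s ≤ ρ) (has : 144 * a ≤ s * g0 B * Real.sqrt q) (ω : ℕ → Bool) :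
    E ρ 0 T (fun w => Real.exp (a * (LB θ (pos w) T B).card - s * Wc θ (pos w) 0 T)) ω ≤ 3 := by
  have hg16 : (16 : ℝ) ≤ g0 B := by exact_mod_cast K0_ge.trans (K0_le_g0 hB)
  have hg : (0 : ℝ) < g0 B := by linarith
  have hg4 : (1 : ℝ) ≤ (g0 B : ℝ) ^ 4 := one_le_pow₀ (by linarith)
  set h : ℕ := ⌈(g0 B : ℝ) ^ 4 / ρ⌉₊ with hh
  have hh1 : (g0 B : ℝ) ^ 4 ≤ ρ * h := by
    have := Nat.le_ceil ((g0 B : ℝ) ^ 4 / ρ)
    rwa [div_le_iff₀' h0] at this
  have hh2 : ρ * h ≤ 2 * (g0 B : ℝ) ^ 4 := by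
    have := (Nat.ceil_lt_add_one (show 0 ≤ (g0 B : ℝ) ^ 4 / ρ by positivity)).le
    have h2 := mul_le_mul_of_nonneg_left this h0.le
    rw [mul_add, mul_div_cancel₀ _ h0.ne'] at h2
    linarith
  have hh3 : g0 B ^ 8 ≤ h := by
    have : (g0 B : ℝ) ^ 8 ≤ h := by
      calc (g0 B : ℝ) ^ 8 = g0 B ^ 4 * g0 B ^ 4 := by ring
        _ ≤ (ρ * h) * g0 B ^ 4 := by gcongr
        _ = h * (ρ * g0 B ^ 4) := by ring
        _ ≤ h * 1 := by gcongr
        _ = h := mul_one _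
    exact_mod_cast this
  have cb := chain_bound (T := T) (x := 2 * a) hs hq h0 h1 hB hh1 hh2 hh3 (by positivity)
    (by linarith) hs0 hs1 (by linarith) T
  have c1 := cb 0 (Nat.zero_le _) ω
  have c2 := E_stop h0.le (by linarith : ρ ≤ 1) (T := T)
    (fun w => sg T h (2 * g0 B ^ 7) (pos w) 0) (fun _ => 1)
    (fun u w => Real.exp (2 * a * SN θ B T h (pos w) T u - s * Wc θ (pos w) (u + 1) T))
    (fun w => sg_le_T (Nat.zero_le _)) (fun _ => zero_le_one) (t0 := 0)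
    (fun w w' hw => ⟨sg_congr fun u hu => pos_congr hw hu, rfl⟩)
    (fun u _ hu w => cb u hu w) T 0 (by omega) le_rfl ω (Nat.zero_le _)
  rw [E_const] at c2
  simp only [Nat.sub_zero, one_mul] at c1 c2
  have hpt : ∀ w, Agr 0 ω w →
      Real.exp (a * (LB θ (pos w) T B).card - s * Wc θ (pos w) 0 T) ≤ 3 / 2 *
      (Real.exp (2 * a * SN θ B T h (pos w) T 0 - s * Wc θ (pos w) (0 + 1) T) +
        Real.exp (2 * a * SN θ B T h (pos w) T (sg T h (2 * g0 B ^ 7) (pos w) 0) -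
          s * Wc θ (pos w) (sg T h (2 * g0 B ^ 7) (pos w) 0 + 1) T)) := by
    intro w _
    have hX := pos_isPath w
    set σ := sg T h (2 * g0 B ^ 7) (pos w) 0 with hσ
    have a1 : (LB θ (pos w) T B).card = NB θ (pos w) T B 0 T := by
      unfold NB
      rw [filter_true_of_mem fun s hs1 => ⟨Nat.zero_le _, by have := (LB_spec hs1).2.2.1; omega⟩]
    have a2 := NB_add (θ := θ) (X := pos w) (T := T) (B := B) (a := 0) (b := σ) (c := T)
    have a3 := NB_chain (T := T) hs hX hh3 T 0 (Nat.zero_le _) (by omega)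
    rw [← hσ] at a3
    have a4 : NB θ (pos w) T B 0 σ * g0 B ^ 8 ≤ h + 2 * g0 B ^ 8 := by
      unfold NB
      rw [← card_image_of_injOn (LB_injOn.mono (coe_subset.mpr (filter_subset _ _)))]
      refine card_rows (a := 0) (pow_pos (g0_pos B) _) _ fun y hy => ?_
      obtain ⟨e, he, rfl⟩ := mem_image.mp hy
      have := (mem_filter.mp he).2.2
      have := sg_le_h (T := T) (h := h) (c := 2 * g0 B ^ 7) (X := pos w) (t := 0)
      exact ⟨by simp, Nat.div_le_div_right (by omega)⟩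
    have a5 : a * NB θ (pos w) T B 0 σ ≤ 1 := by
      have b1 : (NB θ (pos w) T B 0 σ : ℝ) * (g0 B : ℝ) ^ 8 ≤ 3 * h := by
        exact_mod_cast (by omega : NB θ (pos w) T B 0 σ * g0 B ^ 8 ≤ 3 * h)
      have b2 : (6 : ℝ) ≤ (g0 B : ℝ) ^ 3 :=
        le_trans (by linarith) (le_self_pow₀ (by linarith) (by norm_num))
      refine le_of_mul_le_mul_right ?_ (by positivity : (0 : ℝ) < (g0 B : ℝ) ^ 8)
      calc a * NB θ (pos w) T B 0 σ * (g0 B : ℝ) ^ 8
          = a * (NB θ (pos w) T B 0 σ * (g0 B : ℝ) ^ 8) := by ring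
        _ ≤ (ρ * g0 B) * (3 * h) := by gcongr
        _ = 3 * (ρ * h) * g0 B := by ring
        _ ≤ 3 * (2 * (g0 B : ℝ) ^ 4) * g0 B := by gcongr
        _ = 6 * (g0 B : ℝ) ^ 5 := by ring
        _ ≤ (g0 B : ℝ) ^ 3 * (g0 B : ℝ) ^ 5 := by gcongr
        _ ≤ (g0 B : ℝ) ^ 8 := by rw [← pow_add]
        _ = _ := (one_mul _).symm
    have a6 : ((LB θ (pos w) T B).card : ℝ) ≤ NB θ (pos w) T B 0 σ +
        (SN θ B T h (pos w) T 0 + SN θ B T h (pos w) T σ) := by
      exact_mod_cast (by omega : (LB θ (pos w) T B).card ≤ NB θ (pos w) T B 0 σ +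
        (SN θ B T h (pos w) T 0 + SN θ B T h (pos w) T σ))
    have a7 : (Wc θ (pos w) (0 + 1) T : ℝ) ≤ Wc θ (pos w) 0 T := by
      exact_mod_cast Wc_mono _ (by omega) le_rfl
    have a8 : (Wc θ (pos w) (σ + 1) T : ℝ) ≤ Wc θ (pos w) 0 T := by
      exact_mod_cast Wc_mono _ (by omega) le_rfl
    set u := 2 * a * SN θ B T h (pos w) T 0 - s * Wc θ (pos w) (0 + 1) T with hu
    set v := 2 * a * SN θ B T h (pos w) T σ - s * Wc θ (pos w) (σ + 1) T with hv
    have a9 : a * (LB θ (pos w) T B).card - s * Wc θ (pos w) 0 T ≤ 1 + (u / 2 + v / 2) := by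
      have := mul_le_mul_of_nonneg_left a6 ha0
      have := mul_le_mul_of_nonneg_left a7 hs0
      have := mul_le_mul_of_nonneg_left a8 hs0
      rw [hu, hv]; linarith
    refine (Real.exp_le_exp.mpr a9).trans ?_
    have e1 : Real.exp u = Real.exp (u / 2) ^ 2 := by rw [← Real.exp_nat_mul]; congr 1; ring
    have e2 : Real.exp v = Real.exp (v / 2) ^ 2 := by rw [← Real.exp_nat_mul]; congr 1; ring
    rw [Real.exp_add, Real.exp_add, e1, e2]
    have e3 : Real.exp 1 ≤ 3 := by linarith [Real.exp_one_lt_d9]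
    have e4 : 0 ≤ Real.exp (u / 2) * Real.exp (v / 2) := by positivity
    nlinarith [sq_nonneg (Real.exp (u / 2) - Real.exp (v / 2))]
  refine (E_mono h0.le (by linarith) hpt).trans ?_
  rw [E_mul, E_add]
  linarith

theorem exp_sum_le {α : Type*} (s : Finset α) (w y : α → ℝ) (hw : ∀ i ∈ s, 0 ≤ w i)
    (h1 : ∑ i ∈ s, w i ≤ 1) :
    Real.exp (∑ i ∈ s, w i * y i) ≤ 1 + ∑ i ∈ s, w i * Real.exp (y i) := by
  set m := ∑ i ∈ s, w i * y i with hm
  have h2 : ∀ z, Real.exp m * (1 + z - m) ≤ Real.exp z := fun z => by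
    have := mul_le_mul_of_nonneg_left (Real.add_one_le_exp (z - m)) (Real.exp_pos m).le
    rw [← Real.exp_add, add_sub_cancel] at this
    linarith
  have h3 : ∑ i ∈ s, w i * (Real.exp m * (1 + y i - m)) ≤ ∑ i ∈ s, w i * Real.exp (y i) :=
    sum_le_sum fun i hi => mul_le_mul_of_nonneg_left (h2 _) (hw i hi)
  have h4 : ∑ i ∈ s, w i * (Real.exp m * (1 + y i - m)) =
      Real.exp m * ((1 - m) * ∑ i ∈ s, w i + m) := by
    conv_rhs => rw [hm, mul_sum, ← sum_add_distrib, mul_sum, ← hm]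
    exact sum_congr rfl fun i _ => by ring
  have h5 := mul_le_mul_of_nonneg_left (h2 0) (sub_nonneg.mpr h1)
  have h6 : 0 ≤ ∑ i ∈ s, w i := sum_nonneg hw
  rw [Real.exp_zero] at h5
  nlinarith

end

/-- The core inequality. -/
theorem core {q γ : ℝ} (hq : 0 < q) (hγ : 0 < γ) : ∃ κ : ℝ, 0 < κ ∧ ∀ ρ : ℝ, 0 < ρ → ρ ≤ 1 - q →
    ∀ θ : ℕ × ℕ → UnitAddCircle, Sys θ → ∀ T : ℕ, 0 < T → ∀ ω : ℕ → Bool,
    E ρ 0 T (fun w => Real.exp (ρ * (κ * len θ (pos w) T - γ * Wc θ (pos w) 0 T))) ω ≤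
      4 * Real.exp (ρ * (1 + Real.log T)) := by
  classical
  obtain ⟨C, hC, hlen⟩ := len_le
  have hsq : 0 < Real.sqrt q := Real.sqrt_pos.mpr hq
  set σ : ℝ := min (γ / 2) 1 with hσ
  have hσ0 : 0 < σ := lt_min (by linarith) one_pos
  set M : ℝ := (K0 + 1) ^ 2 / Real.sqrt q with hM
  have hM0 : 0 < M := by positivity
  set κ : ℝ := min (min (1 / 4) (γ / 2)) (min (σ / (4 * M)) (σ * Real.sqrt q / 576)) with hκ
  have hκ0 : 0 < κ := lt_min (lt_min (by norm_num) (by linarith)) (lt_min (by positivity)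
    (by positivity))
  have k1 : κ ≤ 1 / 4 := (min_le_left _ _).trans (min_le_left _ _)
  have k2 : κ ≤ γ / 2 := (min_le_left _ _).trans (min_le_right _ _)
  have k3 : κ ≤ σ / (4 * M) := (min_le_right _ _).trans (min_le_left _ _)
  have k4 : κ ≤ σ * Real.sqrt q / 576 := (min_le_right _ _).trans (min_le_right _ _)
  have s1 : σ ≤ γ / 2 := min_le_left _ _
  have s2 : σ ≤ 1 := min_le_right _ _
  refine ⟨κ / C, by positivity, fun ρ h0 h1 θ hs T hT ω => ?_⟩
  have hlog : 0 ≤ Real.log T := Real.log_nonneg (by exact_mod_cast hT)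
  let I := (range (T + 1)).filter fun B => 16 ≤ B ∧ ρ * (g0 B : ℝ) ^ 4 ≤ 1
  let y0 : (ℕ → Bool) → ℝ := fun w => ρ * (2 * κ * ∑ s ∈ LK θ ρ (pos w) T,
    (cls θ (pos w) T s : ℝ) - σ * Wc θ (pos w) 0 T)
  let y : ℕ → (ℕ → Bool) → ℝ := fun B w => ρ * κ * B * 2 ^ (B + 2) * (LB θ (pos w) T B).card -
    ρ * σ * Wc θ (pos w) 0 T
  have hw : ∑ B ∈ I, (1 / 2 : ℝ) ^ (B + 2) ≤ 1 / 2 := by
    have a1 : ∑ B ∈ I, (1 / 2 : ℝ) ^ (B + 2) ≤ ∑ B ∈ range (T + 1), (1 / 2 : ℝ) ^ (B + 2) :=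
      sum_le_sum_of_subset_of_nonneg (filter_subset _ _) fun _ _ _ => by positivity
    have a2 := sum_geometric_two_le (T + 1)
    simp only [pow_add, ← sum_mul] at a1 ⊢
    linarith
  have hpt : ∀ w, Agr 0 ω w →
      Real.exp (ρ * (κ / C * len θ (pos w) T - γ * Wc θ (pos w) 0 T)) ≤
      Real.exp (ρ * (1 + Real.log T)) * (1 + (1 / 2 * Real.exp (y0 w) +
        ∑ B ∈ I, (1 / 2 : ℝ) ^ (B + 2) * Real.exp (y B w))) := by
    intro w _
    have hX := pos_isPath w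
    have a1 := exp_sum_le (insertNone I) (fun o => o.elim (1 / 2) fun B => (1 / 2 : ℝ) ^ (B + 2))
      (fun o => o.elim (y0 w) fun B => y B w) (fun o _ => by cases o <;> simp)
      (by rw [sum_insertNone]; simp only [Option.elim]; linarith)
    simp only [sum_insertNone, Option.elim] at a1
    refine le_trans ?_ (mul_le_mul_of_nonneg_left a1 (Real.exp_pos _).le)
    rw [← Real.exp_add]
    refine Real.exp_le_exp.mpr ?_
    set W : ℝ := (Wc θ (pos w) 0 T : ℝ) with hW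
    have hW0 : 0 ≤ W := by positivity
    have a2 := hlen θ (pos w) T hs hX hT
    rw [← hW] at a2
    have a3 : ∑ s ∈ LS θ (pos w) T, (cls θ (pos w) T s : ℝ) ≤
        ∑ s ∈ LK θ ρ (pos w) T, (cls θ (pos w) T s : ℝ) +
          ∑ B ∈ I, (B : ℝ) * (LB θ (pos w) T B).card := by
      unfold LK
      rw [← sum_filter_add_sum_filter_not (LS θ (pos w) T) fun s =>
        1 < ρ * (g0 (cls θ (pos w) T s) : ℝ) ^ 4 ∨
          pos w (s - 1) + g0 (cls θ (pos w) T s) ^ 7 ≤ pos w (nxt θ (pos w) T s - 1)]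
      gcongr
      rw [← sum_fiberwise_of_maps_to (g := cls θ (pos w) T) (t := I) fun s hs1 => by
        obtain ⟨b1, b2⟩ := mem_filter.mp hs1
        obtain ⟨c1, -, -, c4, -⟩ := LS_spec b1
        have := (cls_le c1).trans (Nat.log_le_self _ _)
        exact mem_filter.mpr ⟨mem_range.mpr (by omega), c4, not_lt.mp fun h => b2 (Or.inl h)⟩]
      refine sum_le_sum fun B _ => ?_
      rw [sum_congr rfl (g := fun _ => (B : ℝ)) fun s hs1 => by rw [(mem_filter.mp hs1).2],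
        sum_const, nsmul_eq_mul, mul_comm]
      gcongr with s
      intro s hs1
      obtain ⟨b1, b2⟩ := mem_filter.mp hs1
      obtain ⟨b3, b4⟩ := mem_filter.mp b1
      exact mem_filter.mpr ⟨b3, b2, by rw [← b2]; exact not_le.mp fun h => b4 (Or.inr h)⟩
    have a4 : ∑ B ∈ I, (1 / 2 : ℝ) ^ (B + 2) * y B w =
        ρ * κ * ∑ B ∈ I, (B : ℝ) * (LB θ (pos w) T B).card -
          ρ * σ * W * ∑ B ∈ I, (1 / 2 : ℝ) ^ (B + 2) := by
      rw [mul_sum, mul_sum, ← sum_sub_distrib]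
      refine sum_congr rfl fun B _ => ?_
      have : (1 / 2 : ℝ) ^ (B + 2) * 2 ^ (B + 2) = 1 := by rw [← mul_pow]; norm_num
      simp only [y]
      linear_combination (ρ * κ * B * (LB θ (pos w) T B).card) * this
    rw [a4]
    simp only [y0]
    have a5 : κ / C * len θ (pos w) T ≤ κ * (W + 1 + Real.log T) +
        κ * ∑ s ∈ LS θ (pos w) T, (cls θ (pos w) T s : ℝ) := by
      have := mul_le_mul_of_nonneg_left a2 (by positivity : 0 ≤ κ / C)
      refine this.trans_eq ?_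
      field_simp
    have a6 := mul_le_mul_of_nonneg_left a3 hκ0.le
    have a7 := mul_le_mul_of_nonneg_left hw (by positivity : 0 ≤ σ * W)
    have a8 : κ * (1 + Real.log T) ≤ 1 + Real.log T := by nlinarith
    have a9 : κ * W + σ * W ≤ γ * W := by nlinarith
    have a10 : κ / C * len θ (pos w) T - γ * W ≤ (1 + Real.log T) +
        (1 / 2 * (2 * κ * ∑ s ∈ LK θ ρ (pos w) T, (cls θ (pos w) T s : ℝ) - σ * W) +
        (κ * ∑ B ∈ I, (B : ℝ) * (LB θ (pos w) T B).card -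
          σ * W * ∑ B ∈ I, (1 / 2 : ℝ) ^ (B + 2))) := by linarith
    have a11 := mul_le_mul_of_nonneg_left a10 h0.le
    linarith
  refine (E_mono h0.le (by linarith) hpt).trans ?_
  rw [E_mul, E_add, E_add, E_const, E_mul, E_sum, mul_comm]
  gcongr
  have b1 := kernel_part hs (κ := 2 * κ) (σ := σ) hq h0 h1 (by positivity) (by linarith)
    (by rw [le_div_iff₀ (by positivity)] at k3; linarith) T ω
  have b2 : ∀ B ∈ I, E ρ 0 T (fun w => (1 / 2 : ℝ) ^ (B + 2) * Real.exp (y B w)) ω ≤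
      (1 / 2 : ℝ) ^ (B + 2) * 3 := by
    intro B hB
    obtain ⟨-, c1, c2⟩ := mem_filter.mp hB
    have c3 : (B : ℝ) * 2 ^ (B + 2) ≤ 4 * g0 B := by
      have d1 : (B : ℝ) ≤ 2 ^ B := by exact_mod_cast Nat.lt_two_pow_self.le
      have d2 : (64 : ℝ) ^ B ≤ g0 B := by exact_mod_cast g0_ge B
      calc (B : ℝ) * 2 ^ (B + 2) ≤ 2 ^ B * 2 ^ (B + 2) := by gcongr
        _ = 4 * 4 ^ B := by rw [pow_add, ← mul_assoc, ← mul_pow]; norm_num; ring
        _ ≤ 4 * 64 ^ B := by gcongr; norm_num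
        _ ≤ _ := by gcongr
    have c4 : ρ * κ * B * 2 ^ (B + 2) ≤ ρ * κ * (4 * g0 B) := by
      rw [mul_assoc (ρ * κ)]; gcongr
    have c5 : (0 : ℝ) ≤ ρ * g0 B := by positivity
    rw [E_mul]
    refine mul_le_mul_of_nonneg_left (class_part hs hq h0 h1 c1 c2 (by positivity) ?_
      (by positivity) ?_ ?_ ω) (by positivity)
    · nlinarith
    · nlinarith
    · rw [le_div_iff₀ (by norm_num)] at k4
      nlinarith
  have b3 := sum_le_sum b2
  rw [← sum_mul] at b3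
  simp only [y0]
  linarith

end Pool.Agent.Lib.MP_a9e7ee_nt
end
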