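import Pool.Agent.Lib.MP_a9e7ee_nt.Arith

-- part Pool.Agent.Lib.MP_a9e7ee_nt.FWalk
section

/-!
The averaging operator of the renewal walk, and the comparison of a subaveraging function with a
gain at white points with the exponential moment of the number of white times.
-/

namespace Pool.Agent.Lib.MP_a9e7ee_nt

/-- The `m`-step average of `f` along the walk. -/
noncomputable def Pm (ρ : ℝ) : ℕ → (ℕ → ℕ → ℝ) → ℕ → ℕ → ℝ
  | 0, f, x, y => f x y
  | m + 1, f, x, y => ρ * Pm ρ m f (x + 1) (y + 1) + (1 - ρ) * Pm ρ m f x (y + 1)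

open Classical in
/-- The exponential moment of the number of white times in the next `n` steps. -/
noncomputable def Vw (ρ g : ℝ) (θ : ℕ × ℕ → UnitAddCircle) : ℕ → ℕ → ℕ → ℝ
  | 0, _, _ => 1
  | n + 1, x, y => (if White θ (x, y) then Real.exp (-g) else 1) *
      (ρ * Vw ρ g θ n (x + 1) (y + 1) + (1 - ρ) * Vw ρ g θ n x (y + 1))

section
variable {ρ g : ℝ} {θ : ℕ × ℕ → UnitAddCircle}

theorem Pm_mono (h0 : 0 ≤ ρ) (h1 : ρ ≤ 1) {f f' : ℕ → ℕ → ℝ} (h : ∀ x y, f x y ≤ f' x y) (m : ℕ) :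
    ∀ x y, Pm ρ m f x y ≤ Pm ρ m f' x y := by
  induction m with
  | zero => exact h
  | succ m ih =>
    intro x y
    simp only [Pm]
    have h2 : 0 ≤ 1 - ρ := by linarith
    exact add_le_add (mul_le_mul_of_nonneg_left (ih _ _) h0) (mul_le_mul_of_nonneg_left (ih _ _) h2)

theorem Pm_const (c : ℝ) (m : ℕ) : ∀ x y, Pm ρ m (fun _ _ => c) x y = c := by
  induction m with
  | zero => intro x y; rfl
  | succ m ih =>
    intro x y
    simp only [Pm, ih]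
    ring

theorem Pm_nonneg (h0 : 0 ≤ ρ) (h1 : ρ ≤ 1) {f : ℕ → ℕ → ℝ} (h : ∀ x y, 0 ≤ f x y) (m x y : ℕ) :
    0 ≤ Pm ρ m f x y := by
  have := Pm_mono h0 h1 (f := fun _ _ => 0) h m x y
  rwa [Pm_const] at this

theorem Pm_le_succ (h0 : 0 ≤ ρ) (h1 : ρ ≤ 1) {f : ℕ → ℕ → ℝ} (h : ∀ x y, f x y ≤ Pm ρ 1 f x y)
    (m : ℕ) : ∀ x y, Pm ρ m f x y ≤ Pm ρ (m + 1) f x y := by
  induction m with
  | zero => exact h
  | succ m ih =>
    intro x y
    rw [Pm, Pm]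
    have h2 : 0 ≤ 1 - ρ := by linarith
    exact add_le_add (mul_le_mul_of_nonneg_left (ih _ _) h0) (mul_le_mul_of_nonneg_left (ih _ _) h2)

theorem Pm_le_of_le (h0 : 0 ≤ ρ) (h1 : ρ ≤ 1) {f : ℕ → ℕ → ℝ} (h : ∀ x y, f x y ≤ Pm ρ 1 f x y)
    {m m' : ℕ} (hm : m ≤ m') (x y : ℕ) : Pm ρ m f x y ≤ Pm ρ m' f x y := by
  induction hm with
  | refl => exact le_rfl
  | step _ ih => exact ih.trans (Pm_le_succ h0 h1 h _ x y)

theorem Vw_nonneg (h0 : 0 ≤ ρ) (h1 : ρ ≤ 1) (n : ℕ) : ∀ x y, 0 ≤ Vw ρ g θ n x y := by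
  induction n with
  | zero => intro x y; simp [Vw]
  | succ n ih =>
    intro x y
    have h2 : 0 ≤ 1 - ρ := by linarith
    rw [Vw]
    refine mul_nonneg ?_ (add_nonneg (mul_nonneg h0 (ih _ _)) (mul_nonneg h2 (ih _ _)))
    split_ifs
    · exact (Real.exp_pos _).le
    · exact zero_le_one

theorem exp_mul_Pm_le (h0 : 0 ≤ ρ) (h1 : ρ ≤ 1) (hg : 0 ≤ g) (m : ℕ) :
    ∀ n x y, Real.exp (-(g * m)) * Pm ρ m (Vw ρ g θ (n - m)) x y ≤ Vw ρ g θ n x y := by
  induction m with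
  | zero => intro n x y; simp [Pm]
  | succ m ih =>
    intro n x y
    have h2 : 0 ≤ 1 - ρ := by linarith
    rcases n with _ | n
    · have : Vw ρ g θ (0 - (m + 1)) = fun _ _ => 1 := by
        funext x y
        simp [Vw]
      rw [this, Pm_const, Vw, mul_one, Real.exp_le_one_iff]
      have : 0 ≤ g * ((m + 1 : ℕ) : ℝ) := by positivity
      linarith
    · rw [Nat.add_sub_add_right, Pm, Vw]
      have e1 : Real.exp (-(g * ((m + 1 : ℕ) : ℝ))) = Real.exp (-g) * Real.exp (-(g * m)) := by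
        rw [← Real.exp_add]
        congr 1
        push_cast
        ring
      have a1 := ih n (x + 1) (y + 1)
      have a2 := ih n x (y + 1)
      have b1 := Vw_nonneg (g := g) (θ := θ) h0 h1 n (x + 1) (y + 1)
      have b2 := Vw_nonneg (g := g) (θ := θ) h0 h1 n x (y + 1)
      have c1 : Real.exp (-(g * m)) * (ρ * Pm ρ m (Vw ρ g θ (n - m)) (x + 1) (y + 1) +
          (1 - ρ) * Pm ρ m (Vw ρ g θ (n - m)) x (y + 1)) ≤
          ρ * Vw ρ g θ n (x + 1) (y + 1) + (1 - ρ) * Vw ρ g θ n x (y + 1) := by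
        have := add_le_add (mul_le_mul_of_nonneg_left a1 h0) (mul_le_mul_of_nonneg_left a2 h2)
        linarith
      rw [e1, mul_assoc]
      refine (mul_le_mul_of_nonneg_left c1 (Real.exp_pos _).le).trans ?_
      refine mul_le_mul_of_nonneg_right ?_ (by positivity)
      split_ifs
      · exact le_rfl
      · rw [Real.exp_le_one_iff]
        linarith

theorem le_Vw (h0 : 0 ≤ ρ) (h1 : ρ ≤ 1) (hg : 0 ≤ g) {K : ℕ → ℕ → ℝ} (hK1 : ∀ x y, K x y ≤ 1)
    (hstep : ∀ x y, K x y ≤ Pm ρ 1 K x y)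
    (hw : ∀ x y, White θ (x, y) → K x y ≤ Real.exp (-(g * 5)) * Pm ρ 5 K x y) (n : ℕ) :
    ∀ x y, K x y ≤ Vw ρ g θ n x y := by
  induction n using Nat.strong_induction_on with
  | _ n ih =>
    intro x y
    rcases n with _ | n
    · exact hK1 x y
    · by_cases hW : White θ (x, y)
      · refine (hw x y hW).trans (le_trans ?_ (exp_mul_Pm_le h0 h1 hg 5 (n + 1) x y))
        refine mul_le_mul_of_nonneg_left ?_ (Real.exp_pos _).le
        exact Pm_mono h0 h1 (ih _ (by omega)) 5 x y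
      · rw [Vw, if_neg hW, one_mul]
        refine (hstep x y).trans ?_
        have h2 : 0 ≤ 1 - ρ := by linarith
        simp only [Pm]
        exact add_le_add (mul_le_mul_of_nonneg_left (ih n (by omega) _ _) h0)
          (mul_le_mul_of_nonneg_left (ih n (by omega) _ _) h2)

theorem pos_update_of_le (ω : ℕ → Bool) (y : ℕ) (b : Bool) {s : ℕ} (hs : s ≤ y) :
    pos (Function.update ω y b) s = pos ω s := by
  unfold pos
  congr 1
  apply Finset.filter_congr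
  intro j hj
  rw [Finset.mem_range] at hj
  rw [Function.update_of_ne (by omega)]

theorem pos_succ' (ω : ℕ → Bool) (y : ℕ) :
    pos ω (y + 1) = pos ω y + if ω y = true then 1 else 0 := by
  unfold pos
  rw [Finset.range_add_one, Finset.filter_insert]
  split_ifs
  · rw [Finset.card_insert_of_notMem (by simp)]
  · rfl

open Classical in
theorem Wc_succ' (X : ℕ → ℕ) (y : ℕ) :
    Wc θ X 0 (y + 1) = Wc θ X 0 y + if White θ (X y, y) then 1 else 0 := by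
  unfold Wc
  rw [← Finset.range_eq_Ico, ← Finset.range_eq_Ico, Finset.range_add_one, Finset.filter_insert]
  split_ifs
  · rw [Finset.card_insert_of_notMem (by simp)]
  · rfl

open Classical in
theorem Wc_congr' {X X' : ℕ → ℕ} {y : ℕ} (h : ∀ s < y, X s = X' s) : Wc θ X 0 y = Wc θ X' 0 y := by
  unfold Wc
  congr 1
  apply Finset.filter_congr
  intro j hj
  rw [h j (Finset.mem_Ico.1 hj).2]

theorem E_eq_Vw (n : ℕ) : ∀ (y : ℕ) (ω : ℕ → Bool),
    E ρ y n (fun w => Real.exp (-g * (Wc θ (pos w) 0 (y + n) : ℝ))) ω =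
      Real.exp (-g * (Wc θ (pos ω) 0 y : ℝ)) * Vw ρ g θ n (pos ω y) y := by
  induction n with
  | zero => intro y ω; simp [E, Vw]
  | succ n ih =>
    intro y ω
    rw [E, show y + (n + 1) = y + 1 + n by ring, ih, ih, Vw]
    have hW : ∀ b, Wc θ (pos (Function.update ω y b)) 0 (y + 1) = Wc θ (pos ω) 0 (y + 1) :=
      fun b => Wc_congr' fun s hs => pos_update_of_le ω y b (by omega)
    rw [hW, hW, pos_succ', pos_succ', pos_update_of_le ω y _ le_rfl, pos_update_of_le ω y _ le_rfl,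
      Wc_succ']
    simp only [Function.update_self, if_true, Bool.false_eq_true, if_false, add_zero]
    split_ifs
    · push_cast
      rw [mul_add, Real.exp_add, mul_one]
      ring
    · simp only [add_zero, one_mul]
      ring

theorem E_zero_eq_Vw (T : ℕ) (ω : ℕ → Bool) :
    E ρ 0 T (fun w => Real.exp (-g * (Wc θ (pos w) 0 T : ℝ))) ω = Vw ρ g θ T 0 0 := by
  have h := E_eq_Vw (ρ := ρ) (g := g) (θ := θ) T 0 ω
  simpa [Wc, pos] using h

/-- One Cauchy-Schwarz step with a gain in the second branch. -/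
theorem cs_step (h0 : 0 ≤ ρ) (h1 : ρ ≤ 1) {h a b A B δ : ℝ} (hh : 0 ≤ h)
    (hle : h ≤ ρ * a + (1 - ρ) * b) (hA : a ^ 2 ≤ A) (hδ : δ < 1) (hB : b ^ 2 ≤ (1 - δ) * B) :
    h ^ 2 ≤ (1 - (1 - ρ) * δ) * (ρ * A + (1 - ρ) * B) := by
  have h2 : 0 ≤ 1 - ρ := by linarith
  have hs : 0 < 1 - δ := by linarith
  set s := 1 - δ with hsdef
  have hb : b = s * (b / s) := by field_simp
  set c := b / s
  have hc : s * c ^ 2 ≤ B := by
    have : s * (s * c ^ 2) ≤ s * B := by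
      calc s * (s * c ^ 2) = (s * c) ^ 2 := by ring
        _ = b ^ 2 := by rw [← hb]
        _ ≤ _ := hB
    exact le_of_mul_le_mul_left this hs
  have e : 1 - (1 - ρ) * δ = ρ + (1 - ρ) * s := by rw [hsdef]; ring
  rw [e]
  calc h ^ 2 ≤ (ρ * a + (1 - ρ) * b) ^ 2 := pow_le_pow_left₀ hh hle 2
    _ ≤ (ρ + (1 - ρ) * s) * (ρ * a ^ 2 + (1 - ρ) * (s * c ^ 2)) := by
        rw [hb]
        have : 0 ≤ ρ * ((1 - ρ) * s) * (a - c) ^ 2 := by positivity
        nlinarith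
    _ ≤ _ := by
        apply mul_le_mul_of_nonneg_left _ (by positivity)
        exact add_le_add (mul_le_mul_of_nonneg_left hA h0) (mul_le_mul_of_nonneg_left hc h2)

/-- Propagation of a two-step gain down a column. -/
theorem gain_column (h0 : 0 ≤ ρ) (h1 : ρ ≤ 1) {H : ℕ → ℕ → ℝ} (hH : ∀ x y, 0 ≤ H x y)
    (hstep : ∀ x y, H x y ≤ ρ * H (x + 1) (y + 1) + (1 - ρ) * H x (y + 1))
    (hsq : ∀ x y, H x y ^ 2 ≤ Pm ρ 1 (fun x y => H x y ^ 2) x y)
    {γ : ℝ} (hγ0 : 0 ≤ γ) (hγ : γ < 1) (x : ℕ) (j : ℕ) : ∀ y,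
    H x (y + j) ^ 2 ≤ (1 - γ) * Pm ρ 2 (fun x y => H x y ^ 2) x (y + j) →
    H x y ^ 2 ≤ (1 - (1 - ρ) ^ j * γ) * Pm ρ (j + 2) (fun x y => H x y ^ 2) x y := by
  induction j with
  | zero => intro y h; simpa using h
  | succ j ih =>
    intro y h
    have h2 : 0 ≤ 1 - ρ := by linarith
    have hb := ih (y + 1) (by rwa [show y + 1 + j = y + (j + 1) by ring])
    have ha : H (x + 1) (y + 1) ^ 2 ≤ Pm ρ (j + 2) (fun x y => H x y ^ 2) (x + 1) (y + 1) :=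
      Pm_le_of_le h0 h1 hsq (Nat.zero_le _) _ _
    have hδ : (1 - ρ) ^ j * γ < 1 := by
      have : (1 - ρ) ^ j ≤ 1 := pow_le_one₀ h2 (by linarith)
      nlinarith
    have := cs_step h0 h1 (hH x y) (hstep x y) ha hδ hb
    rw [show j + 1 + 2 = (j + 2) + 1 by ring, Pm, pow_succ' (1 - ρ) j, mul_assoc]
    exact this

end

end Pool.Agent.Lib.MP_a9e7ee_nt
end

-- part Pool.Agent.Lib.MP_a9e7ee_nt.FCoef
section

/-!
The Fourier coefficients of the push-forward measure and their renewal recursion.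
-/

namespace Pool.Agent.Lib.MP_a9e7ee_nt

/-- The character `e(r) = exp (2 π i r)`. -/
noncomputable def ec (r : ℝ) : ℂ := Complex.exp (2 * Real.pi * r * Complex.I)

theorem norm_ec (r : ℝ) : ‖ec r‖ = 1 := by
  have : ec r = Complex.exp (((2 * Real.pi * r : ℝ) : ℂ) * Complex.I) := by
    unfold ec
    push_cast
    rfl
  rw [this, Complex.norm_exp_ofReal_mul_I]

theorem ec_add (r s : ℝ) : ec (r + s) = ec r * ec s := by
  unfold ec
  rw [← Complex.exp_add]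
  congr 1
  push_cast
  ring

theorem ec_zero : ec 0 = 1 := by simp [ec]

theorem ec_int (n : ℤ) : ec n = 1 := by
  unfold ec
  rw [← Complex.exp_int_mul_two_pi_mul_I n]
  congr 1
  push_cast
  ring

theorem ec_eq_one {r : ℝ} (h : ec r = 1) : ∃ n : ℤ, r = n := by
  unfold ec at h
  obtain ⟨n, hn⟩ := Complex.exp_eq_one_iff.1 h
  refine ⟨n, ?_⟩
  have h2 : (2 * Real.pi * Complex.I : ℂ) ≠ 0 := Complex.two_pi_I_ne_zero
  have : (r : ℂ) = n := by
    apply mul_right_cancel₀ h2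
    rw [← hn]
    ring
  exact_mod_cast this

theorem ec_nat_mul (r : ℝ) (j : ℕ) : ec (j * r) = ec r ^ j := by
  induction j with
  | zero => simp [ec_zero]
  | succ j ih =>
    rw [pow_succ, ← ih, ← ec_add]
    congr 1
    push_cast
    ring

/-- The product weight of a tuple. -/
noncomputable def wt (ρ : ℝ) {i : ℕ} (x : Fin i → ℕ+) : ℝ := ∏ j, ρ * (1 - ρ) ^ ((x j : ℕ) - 1)

/-- Splitting off the last coordinate. -/
def sn (i : ℕ) : ℕ × (Fin i → ℕ+) ≃ (Fin (i + 1) → ℕ+) :=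
  (Equiv.prodCongr Equiv.pnatEquivNat.symm (Equiv.refl _)).trans (Fin.snocEquiv fun _ => ℕ+)

theorem sn_last (i m : ℕ) (x : Fin i → ℕ+) : (sn i (m, x) (Fin.last i) : ℕ) = m + 1 := by
  simp [sn, Fin.snocEquiv]

theorem sn_castSucc (i m : ℕ) (x : Fin i → ℕ+) (j : Fin i) : sn i (m, x) j.castSucc = x j := by
  simp [sn, Fin.snocEquiv]

theorem wt_sn (ρ : ℝ) (i m : ℕ) (x : Fin i → ℕ+) :
    wt ρ (sn i (m, x)) = ρ * (1 - ρ) ^ m * wt ρ x := by
  unfold wt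
  rw [Fin.prod_univ_castSucc, sn_last, Nat.add_sub_cancel, mul_comm]
  simp only [sn_castSucc]

theorem tail_sn_last (i m : ℕ) (x : Fin i → ℕ+) : tail (sn i (m, x)) (Fin.last i) = m + 1 := by
  unfold tail
  rw [Finset.sum_filter, Fin.sum_univ_castSucc, sn_last, if_pos le_rfl, Finset.sum_eq_zero, zero_add]
  intro j _
  rw [if_neg (not_le.2 (Fin.castSucc_lt_last j))]

theorem tail_sn_castSucc (i m : ℕ) (x : Fin i → ℕ+) (j : Fin i) :
    tail (sn i (m, x)) j.castSucc = tail x j + (m + 1) := by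
  unfold tail
  rw [Finset.sum_filter, Finset.sum_filter, Fin.sum_univ_castSucc, sn_last,
    if_pos (Fin.le_last _)]
  simp only [sn_castSucc, Fin.castSucc_le_castSucc_iff]

section
variable {ρ : ℝ}

theorem wt_nonneg (h0 : 0 < ρ) (h1 : ρ ≤ 1) {i : ℕ} (x : Fin i → ℕ+) : 0 ≤ wt ρ x := by
  have h2 : 0 ≤ 1 - ρ := by linarith
  exact Finset.prod_nonneg fun j _ => by positivity

theorem geom_hasSum (h0 : 0 < ρ) (h1 : ρ ≤ 1) : HasSum (fun m : ℕ => ρ * (1 - ρ) ^ m) 1 := by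
  have h := (hasSum_geometric_of_lt_one (r := 1 - ρ) (by linarith) (by linarith)).mul_left ρ
  rwa [sub_sub_cancel, mul_inv_cancel₀ h0.ne'] at h

theorem wt_hasSum (h0 : 0 < ρ) (h1 : ρ ≤ 1) (i : ℕ) :
    HasSum (fun x : Fin i → ℕ+ => wt ρ x) 1 := by
  induction i with
  | zero =>
    simp [wt]
  | succ i ih =>
    rw [← (sn i).hasSum_iff]
    have h2 : 0 ≤ 1 - ρ := by linarith
    have hs := (geom_hasSum h0 h1).summable.mul_of_nonneg ih.summable
      (fun m => by positivity) (fun x => wt_nonneg h0 h1 x)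
    have h := (geom_hasSum h0 h1).mul ih hs
    rw [mul_one] at h
    have e : (fun x : Fin (i + 1) → ℕ+ => wt ρ x) ∘ sn i =
        fun x : ℕ × (Fin i → ℕ+) => ρ * (1 - ρ) ^ x.1 * wt ρ x.2 := by
      funext ⟨m, x⟩
      exact wt_sn ρ i m x
    rw [e]
    exact h

theorem summable_wt_mul (h0 : 0 < ρ) (h1 : ρ ≤ 1) {i : ℕ} (r : (Fin i → ℕ+) → ℝ) :
    Summable fun x => (wt ρ x : ℂ) * ec (r x) := by
  refine Summable.of_norm ?_
  simp only [norm_mul, norm_ec, mul_one, Complex.norm_real, Real.norm_eq_abs,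
    abs_of_nonneg (wt_nonneg h0 h1 _)]
  exact (wt_hasSum h0 h1 i).summable

end

/-- The Fourier coefficient with phases `φ`, started at time `b`. -/
noncomputable def Fc (ρ : ℝ) (φ : ℕ → ℕ → ℝ) (i b : ℕ) : ℂ :=
  ∑' x : Fin i → ℕ+, (wt ρ x : ℂ) * ec (∑ j : Fin i, φ (j + 1) (b + tail x j))

section
variable {ρ : ℝ} {φ : ℕ → ℕ → ℝ}

theorem Fc_zero (b : ℕ) : Fc ρ φ 0 b = 1 := by
  simp [Fc, wt, ec_zero]

theorem norm_Fc_le (h0 : 0 < ρ) (h1 : ρ ≤ 1) (i b : ℕ) : ‖Fc ρ φ i b‖ ≤ 1 := by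
  refine tsum_of_norm_bounded (wt_hasSum h0 h1 i) fun x => ?_
  simp only [norm_mul, norm_ec, mul_one, Complex.norm_real, Real.norm_eq_abs,
    abs_of_nonneg (wt_nonneg h0 h1 _), le_refl]

theorem Fc_hasSum (h0 : 0 < ρ) (h1 : ρ ≤ 1) (i b : ℕ) :
    HasSum (fun m : ℕ => ((ρ * (1 - ρ) ^ m : ℝ) : ℂ) * ec (φ (i + 1) (b + (m + 1))) *
      Fc ρ φ i (b + (m + 1))) (Fc ρ φ (i + 1) b) := by
  have h := (summable_wt_mul h0 h1
    (fun x : Fin (i + 1) → ℕ+ => ∑ j : Fin (i + 1), φ (j + 1) (b + tail x j))).hasSum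
  rw [← (sn i).hasSum_iff] at h
  refine h.prod_fiberwise fun m => ?_
  have h' := (summable_wt_mul h0 h1
    (fun x : Fin i → ℕ+ => ∑ j : Fin i, φ (j + 1) (b + (m + 1) + tail x j))).hasSum.mul_left
    (((ρ * (1 - ρ) ^ m : ℝ) : ℂ) * ec (φ (i + 1) (b + (m + 1))))
  refine (congrArg (fun f => HasSum f _) ?_).mpr h'
  funext x
  simp only [Function.comp_apply, wt_sn, Fin.sum_univ_castSucc, tail_sn_last, tail_sn_castSucc,
    ec_add, Fin.val_last, Fin.val_castSucc]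
  simp only [show ∀ t, b + (t + (m + 1)) = b + (m + 1) + t from fun t => by ring]
  push_cast
  ring

theorem Fc_succ (h0 : 0 < ρ) (h1 : ρ ≤ 1) (i b : ℕ) :
    Fc ρ φ (i + 1) b = ρ * ec (φ (i + 1) (b + 1)) * Fc ρ φ i (b + 1) +
      (1 - ρ) * Fc ρ φ (i + 1) (b + 1) := by
  have h := Fc_hasSum (φ := φ) h0 h1 i b
  have h' := (Fc_hasSum (φ := φ) h0 h1 i (b + 1)).mul_left (1 - ρ : ℂ)
  rw [← hasSum_nat_add_iff' 1] at h
  have e : (fun m : ℕ => ((ρ * (1 - ρ) ^ (m + 1) : ℝ) : ℂ) * ec (φ (i + 1) (b + (m + 1 + 1))) *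
      Fc ρ φ i (b + (m + 1 + 1))) = fun m : ℕ => (1 - ρ : ℂ) *
      (((ρ * (1 - ρ) ^ m : ℝ) : ℂ) * ec (φ (i + 1) (b + 1 + (m + 1))) *
      Fc ρ φ i (b + 1 + (m + 1))) := by
    funext m
    rw [show b + (m + 1 + 1) = b + 1 + (m + 1) by ring]
    push_cast
    ring
  rw [e] at h
  have := h.unique h'
  simp only [Finset.sum_range_one, pow_zero, mul_one, zero_add] at this
  rw [← this]
  ring

/-- The one-step recursion, valid also in the absorbed region. -/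
theorem Fc_step (h0 : 0 < ρ) (h1 : ρ ≤ 1) (i b : ℕ) : ∃ c : ℂ, ‖c‖ = 1 ∧
    Fc ρ φ i b = ρ * c * Fc ρ φ (i - 1) (b + 1) + (1 - ρ) * Fc ρ φ i (b + 1) := by
  rcases i with _ | i
  · refine ⟨1, norm_one, ?_⟩
    simp [Fc_zero]
  · exact ⟨_, norm_ec _, Fc_succ h0 h1 i b⟩

theorem norm_one_sub (h1 : ρ ≤ 1) : ‖(1 - ρ : ℂ)‖ = 1 - ρ := by
  rw [show (1 - ρ : ℂ) = ((1 - ρ : ℝ) : ℂ) by push_cast; rfl, Complex.norm_real,
    Real.norm_eq_abs, abs_of_nonneg (by linarith)]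

theorem norm_Fc_step (h0 : 0 < ρ) (h1 : ρ ≤ 1) (i b : ℕ) :
    ‖Fc ρ φ i b‖ ≤ ρ * ‖Fc ρ φ (i - 1) (b + 1)‖ + (1 - ρ) * ‖Fc ρ φ i (b + 1)‖ := by
  obtain ⟨c, hc, h⟩ := Fc_step (φ := φ) h0 h1 i b
  rw [h]
  refine (norm_add_le _ _).trans (le_of_eq ?_)
  rw [norm_mul, norm_mul, norm_mul, hc, norm_one_sub h1, Complex.norm_real, Real.norm_eq_abs,
    abs_of_pos h0, mul_one]

theorem norm_Fc_two (h0 : 0 < ρ) (h1 : ρ ≤ 1) (i b : ℕ) :
    ‖Fc ρ φ (i + 1) b‖ ≤ ρ ^ 2 * ‖Fc ρ φ (i - 1) (b + 1 + 1)‖ +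
      ρ * (1 - ρ) * ‖ec (φ (i + 1) (b + 1)) + ec (φ (i + 1) (b + 1 + 1))‖ *
        ‖Fc ρ φ i (b + 1 + 1)‖ + (1 - ρ) ^ 2 * ‖Fc ρ φ (i + 1) (b + 1 + 1)‖ := by
  obtain ⟨c, hc, h⟩ := Fc_step (φ := φ) h0 h1 i (b + 1)
  have e : Fc ρ φ (i + 1) b = ρ ^ 2 * (ec (φ (i + 1) (b + 1)) * c) * Fc ρ φ (i - 1) (b + 1 + 1) +
      ρ * (1 - ρ) * (ec (φ (i + 1) (b + 1)) + ec (φ (i + 1) (b + 1 + 1))) *
        Fc ρ φ i (b + 1 + 1) + (1 - ρ) ^ 2 * Fc ρ φ (i + 1) (b + 1 + 1) := by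
    rw [Fc_succ h0 h1 i b, Fc_succ h0 h1 i (b + 1), h]
    ring
  rw [e]
  refine (norm_add₃_le).trans (le_of_eq ?_)
  simp only [norm_mul, norm_pow, hc, norm_ec, norm_one_sub h1, Complex.norm_real, Real.norm_eq_abs,
    abs_of_pos h0, mul_one]

end

/-- The squared modulus of a sum of two characters at distance at least `1 / 60`. -/
theorem norm_ec_add_sq {r s : ℝ} (h : 1 / 60 ≤ ‖((r - s : ℝ) : UnitAddCircle)‖) :
    ‖ec r + ec s‖ ^ 2 ≤ 2 + 2 * Real.cos (Real.pi / 30) := by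
  rw [UnitAddCircle.norm_eq] at h
  set d := r - s - round (r - s) with hd
  have e : ec r + ec s = ec s * (ec d + 1) := by
    rw [mul_add, mul_one, ← ec_add]
    congr 1
    rw [← mul_one (ec (s + d)), ← ec_int (round (r - s)), ← ec_add]
    congr 1
    rw [hd]
    ring
  rw [e, norm_mul, norm_ec, one_mul]
  have e2 : ec d = Complex.exp (((2 * Real.pi * d : ℝ) : ℂ) * Complex.I) := by
    unfold ec
    push_cast
    rfl
  have e3 : ‖ec d + 1‖ ^ 2 = 2 + 2 * Real.cos (2 * Real.pi * d) := by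
    rw [Complex.sq_norm, Complex.normSq_apply, e2]
    simp only [Complex.add_re, Complex.add_im, Complex.exp_ofReal_mul_I_re,
      Complex.exp_ofReal_mul_I_im, Complex.one_re, Complex.one_im, add_zero]
    nlinarith [Real.sin_sq_add_cos_sq (2 * Real.pi * d)]
  rw [e3]
  have hd2 : |d| ≤ 1 / 2 := abs_sub_round _
  have hpi := Real.pi_pos
  have : Real.cos (2 * Real.pi * d) ≤ Real.cos (Real.pi / 30) := by
    rw [← Real.cos_abs, abs_mul, abs_of_pos (by positivity : 0 < 2 * Real.pi)]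
    apply Real.cos_le_cos_of_nonneg_of_le_pi (by positivity) <;> nlinarith
  linarith

/-- Orthogonality of the characters modulo `2 M`. -/
theorem sum_ec (M : ℕ) (hM : 0 < M) (d : ℤ) :
    ∑ l ∈ Finset.Ico (-(M : ℤ)) M, ec (l / (2 * M) * d) =
      if (2 * M : ℤ) ∣ d then (2 * M : ℂ) else 0 := by
  have hM' : (M : ℝ) ≠ 0 := by positivity
  split_ifs with h
  · obtain ⟨c, rfl⟩ := h
    have : ∀ l ∈ Finset.Ico (-(M : ℤ)) M, ec (l / (2 * M) * ((2 * M * c : ℤ) : ℝ)) = 1 := by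
      intro l _
      rw [← ec_int (l * c)]
      congr 1
      push_cast
      field_simp
    rw [Finset.sum_congr rfl this]
    simp only [Finset.sum_const, Int.card_Ico, sub_neg_eq_add, nsmul_eq_mul, mul_one]
    rw [show (M : ℤ) + M = ((2 * M : ℕ) : ℤ) by push_cast; ring, Int.toNat_natCast]
    push_cast
    ring
  · rw [Int.Ico_eq_finset_map, Finset.sum_map, sub_neg_eq_add,
      show (M : ℤ) + M = ((2 * M : ℕ) : ℤ) by push_cast; ring, Int.toNat_natCast]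
    have e : ∀ j ∈ Finset.range (2 * M),
        ec ((((Nat.castEmbedding.trans <| addLeftEmbedding (-(M : ℤ))) j : ℤ) : ℝ) / (2 * M) * d) =
        ec (-(d / 2)) * ec (d / (2 * M)) ^ j := by
      intro j _
      rw [← ec_nat_mul, ← ec_add]
      congr 1
      simp only [Function.Embedding.trans_apply, Nat.castEmbedding_apply, addLeftEmbedding_apply]
      push_cast
      field_simp
    rw [Finset.sum_congr rfl e, ← Finset.mul_sum]
    have hne : ec (d / (2 * M)) ≠ 1 := by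
      intro h1
      obtain ⟨n, hn⟩ := ec_eq_one h1
      apply h
      refine ⟨n, ?_⟩
      have : (d : ℝ) = 2 * M * n := by
        rw [← hn]
        field_simp
      exact_mod_cast this
    rw [geom_sum_eq hne, ← ec_nat_mul]
    have : ((2 * M : ℕ) : ℝ) * (d / (2 * M)) = d := by
      push_cast
      field_simp
    rw [this, ec_int]
    simp

end Pool.Agent.Lib.MP_a9e7ee_nt
end

-- part Pool.Agent.Lib.MP_a9e7ee_nt.Fourier
section

/-!
Reduction of the deviation from uniformity to exponential moments of the number of white times.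
-/

namespace Pool.Agent.Lib.MP_a9e7ee_nt

/-- The window of `p` digits of `-3^(-i)` starting at position `t`. -/
noncomputable def win (p i t : ℕ) : ℤ := ∑ r ∈ Finset.range p, 2 ^ r * (digit (r + t) i : ℤ)

/-- The fraction `mm i s / 3^i`. -/
noncomputable def uu (i s : ℕ) : ℝ := (mm i s : ℝ) / 3 ^ i

/-- The phase of the frequency `l`. -/
noncomputable def ph (p : ℕ) (l : ℤ) (i t : ℕ) : ℝ := l / 2 ^ p * win p i t

theorem uu_succ (i s : ℕ) : uu i s = 2 * uu i (s + 1) - digit s i := by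
  have h : (2 : ℝ) * mm i (s + 1) = mm i s + 3 ^ i * (digit s i : ℝ) := by
    exact_mod_cast mm_succ i s
  unfold uu
  field_simp
  linarith

theorem uu_pos (i s : ℕ) : 0 < uu i s := by
  have h : (0 : ℝ) < mm i s := by exact_mod_cast mm_pos i s
  unfold uu
  positivity

theorem uu_le (i s : ℕ) : uu i s ≤ 1 := by
  have h : (mm i s : ℝ) ≤ 3 ^ i := by exact_mod_cast mm_le i s
  unfold uu
  rwa [div_le_one (by positivity)]

theorem win_eq (p i t : ℕ) : (win p i t : ℝ) = 2 ^ p * uu i (p + t) - uu i t := by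
  unfold win
  induction p with
  | zero => simp
  | succ p ih =>
    rw [Finset.sum_range_succ]
    push_cast at ih ⊢
    rw [ih, uu_succ i (p + t), show p + 1 + t = p + t + 1 by ring]
    ring

theorem ph_sub (p : ℕ) (l : ℤ) (i t : ℕ) :
    ph p l i t - ph p l i (t + 1) = l * uu i (p + t + 1) +
      l / 2 ^ p * (digit t i - uu i (t + 1)) + ((-(l * digit (p + t) i) : ℤ) : ℝ) := by
  unfold ph
  rw [win_eq, win_eq, uu_succ i (p + t), uu_succ i t, ← add_assoc]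
  push_cast
  field_simp
  ring

theorem ph_sub_two (p : ℕ) (l : ℤ) (i t : ℕ) :
    (ph p l i t - ph p l i (t + 1)) - 2 * (ph p l i (t + 1) - ph p l i (t + 1 + 1)) =
      l / 2 ^ p * ((digit t i : ℝ) - digit (t + 1) i) +
        ((l * (digit (p + t + 1) i - digit (p + t) i) : ℤ) : ℝ) := by
  rw [ph_sub, ph_sub, uu_succ i (p + t + 1), uu_succ i (t + 1), ← add_assoc p t 1]
  push_cast
  ring

theorem norm_coe_le_abs (r : ℝ) : ‖(r : UnitAddCircle)‖ ≤ |r| :=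
  QuotientAddGroup.norm_mk_le_norm

theorem norm_coe_sub_ge (r s : ℝ) :
    ‖(r : UnitAddCircle)‖ - |s| ≤ ‖((r + s : ℝ) : UnitAddCircle)‖ := by
  have h : (r : UnitAddCircle) = ((r + s : ℝ) : UnitAddCircle) - (s : UnitAddCircle) := by
    rw [AddCircle.coe_add, add_sub_cancel_right]
  have := norm_sub_le ((r + s : ℝ) : UnitAddCircle) (s : UnitAddCircle)
  rw [← h] at this
  linarith [norm_coe_le_abs s]

theorem digit_eq_of_small (p : ℕ) (l : ℤ) (i t : ℕ) (h1 : 1 / 20 < |(l : ℝ) / 2 ^ p|)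
    (h2 : |(l : ℝ) / 2 ^ p| ≤ 1 / 2)
    (ha : ‖((ph p l i t - ph p l i (t + 1) : ℝ) : UnitAddCircle)‖ < 1 / 60)
    (hb : ‖((ph p l i (t + 1) - ph p l i (t + 1 + 1) : ℝ) : UnitAddCircle)‖ < 1 / 60) :
    digit t i = digit (t + 1) i := by
  by_contra hne
  have e := congrArg (fun r : ℝ => ‖(r : UnitAddCircle)‖) (ph_sub_two p l i t)
  simp only [coe_add_int] at e
  set a := ph p l i t - ph p l i (t + 1)
  set b := ph p l i (t + 1) - ph p l i (t + 1 + 1)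
  have e1 : ‖((a - 2 * b : ℝ) : UnitAddCircle)‖ < 1 / 20 := by
    rw [two_mul, AddCircle.coe_sub, AddCircle.coe_add]
    have := norm_sub_le (a : UnitAddCircle) ((b : UnitAddCircle) + (b : UnitAddCircle))
    have := norm_add_le (b : UnitAddCircle) (b : UnitAddCircle)
    linarith
  have hd : |(digit t i : ℝ) - digit (t + 1) i| = 1 := by
    have u1 := digit_le_one t i
    have u2 := digit_le_one (t + 1) i
    rcases (by omega : (digit t i = 0 ∧ digit (t + 1) i = 1) ∨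
      (digit t i = 1 ∧ digit (t + 1) i = 0)) with ⟨v, w⟩ | ⟨v, w⟩ <;> simp [v, w]
  have hab : |(l : ℝ) / 2 ^ p * ((digit t i : ℝ) - digit (t + 1) i)| = |(l : ℝ) / 2 ^ p| := by
    rw [abs_mul, hd, mul_one]
  rw [e, (AddCircle.norm_coe_eq_abs_iff (p := (1 : ℝ)) one_ne_zero).2 (by rw [hab]; simpa using h2),
    hab] at e1
  linarith

theorem abs_digit_sub_le (i s t : ℕ) : |(digit t i : ℝ) - uu i s| ≤ 1 := by
  have h1 : (digit t i : ℝ) ≤ 1 := by exact_mod_cast digit_le_one t i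
  have h0 : (0 : ℝ) ≤ digit t i := by positivity
  have := uu_pos i s
  have := uu_le i s
  rw [abs_le]
  constructor <;> linarith

theorem exists_far (p : ℕ) (l : ℤ) (i t : ℕ) (h2 : |(l : ℝ) / 2 ^ p| ≤ 1 / 2)
    (hw : 1 / 10 ≤ ‖((l * uu i (p + (t + 3) + 1) : ℝ) : UnitAddCircle)‖) :
    ∃ j ≤ 3, 1 / 60 ≤ ‖((ph p l i (t + j) - ph p l i (t + j + 1) : ℝ) : UnitAddCircle)‖ := by
  by_contra hc
  push Not at hc
  have h3 := hc 3 le_rfl
  rw [ph_sub, coe_add_int] at h3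
  have h4 := norm_coe_sub_ge (l * uu i (p + (t + 3) + 1))
    (l / 2 ^ p * (digit (t + 3) i - uu i (t + 3 + 1)))
  rw [abs_mul] at h4
  have h0 := abs_nonneg ((l : ℝ) / 2 ^ p)
  by_cases h1 : |(l : ℝ) / 2 ^ p| ≤ 1 / 20
  · have := abs_digit_sub_le i (t + 3 + 1) (t + 3)
    nlinarith
  · push Not at h1
    have d0 := digit_eq_of_small p l i t h1 h2 (hc 0 (by norm_num)) (hc 1 (by norm_num))
    have d1 := digit_eq_of_small p l i (t + 1) h1 h2 (hc 1 (by norm_num)) (hc 2 (by norm_num))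
    have d2 := digit_eq_of_small p l i (t + 2) h1 h2 (hc 2 (by norm_num)) (hc 3 (by norm_num))
    have u0 := uu_succ i t
    have u1 := uu_succ i (t + 1)
    have u2 := uu_succ i (t + 2)
    have u3 := uu_succ i (t + 3)
    have w := abs_digit_sub_le i t t
    rw [d0, d1] at w
    rw [d0, d1] at u0
    rw [d1] at u1
    have e2 : t + 1 + 1 = t + 2 := rfl
    have e3 : t + 2 + 1 = t + 3 := rfl
    rw [e2] at w u0 u1
    rw [e3] at d2 u2
    rw [d2] at w u0 u1 u2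
    have w' : |(digit (t + 3) i : ℝ) - uu i (t + 3 + 1)| ≤ 1 / 16 := by
      rw [abs_le] at w ⊢
      constructor <;> linarith [w.1, w.2]
    nlinarith [abs_nonneg ((digit (t + 3) i : ℝ) - uu i (t + 3 + 1))]

theorem lt_of_white {k p : ℕ} {l : ℤ} {x y : ℕ} (h : White (theta k p l) (x, y)) : x < k := by
  by_contra hc
  obtain ⟨d, rfl⟩ := Nat.exists_eq_add_of_le (not_lt.1 hc)
  have : beta k p (k + d, y) = 0 := by
    unfold beta
    have := coe_add_int 0 (3 ^ d * mm k (y + p + 5))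
    rw [AddCircle.coe_zero] at this
    rw [← this]
    congr 1
    simp only
    push_cast
    rw [pow_add]
    field_simp
    ring
  unfold White theta at h
  rw [this, smul_zero, norm_zero] at h
  norm_num at h

/-- The universal gain. -/
noncomputable def cc : ℝ := (1 - Real.cos (Real.pi / 30)) / 2

theorem cc_pos : 0 < cc := by
  have hpi := Real.pi_pos
  have := Real.cos_lt_cos_of_nonneg_of_le_pi (x := 0) (y := Real.pi / 30) le_rfl (by linarith)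
    (by positivity)
  rw [Real.cos_zero] at this
  unfold cc
  linarith

theorem cc_le : cc ≤ 1 := by
  unfold cc
  linarith [Real.neg_one_le_cos (Real.pi / 30)]

theorem cs_three {P Q R a b d σ : ℝ} (hP : 0 ≤ P) (hQ : 0 ≤ Q) (hR : 0 ≤ R) :
    (P * a + Q * σ * b + R * d) ^ 2 ≤ (P + Q * σ ^ 2 + R) * (P * a ^ 2 + Q * b ^ 2 + R * d ^ 2) := by
  have h1 : 0 ≤ P * Q * (b - σ * a) ^ 2 := by positivity
  have h2 : 0 ≤ P * R * (a - d) ^ 2 := by positivity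
  have h3 : 0 ≤ Q * R * (σ * d - b) ^ 2 := by positivity
  nlinarith

section
variable {ρ : ℝ} {φ : ℕ → ℕ → ℝ}

theorem gain_two (h0 : 0 < ρ) (h1 : ρ ≤ 1) {k x y : ℕ} (hx : x < k)
    (h : 1 / 60 ≤ ‖((φ (k - x) (y + 1) - φ (k - x) (y + 1 + 1) : ℝ) : UnitAddCircle)‖) :
    ‖Fc ρ φ (k - x) y‖ ^ 2 ≤ (1 - 2 * ρ * (1 - ρ) * cc) *
      Pm ρ 2 (fun x y => ‖Fc ρ φ (k - x) y‖ ^ 2) x y := by
  obtain ⟨i, hi⟩ : ∃ i, k - x = i + 1 := ⟨k - x - 1, by omega⟩
  have e1 : k - (x + 1) = i := by omega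
  have e2 : k - (x + 1 + 1) = i - 1 := by omega
  simp only [Pm, e1, e2]
  rw [hi] at h ⊢
  have a1 := norm_Fc_two (φ := φ) h0 h1 i y
  have a2 := norm_ec_add_sq h
  set σ := ‖ec (φ (i + 1) (y + 1)) + ec (φ (i + 1) (y + 1 + 1))‖
  set a := ‖Fc ρ φ (i - 1) (y + 1 + 1)‖
  set b := ‖Fc ρ φ i (y + 1 + 1)‖
  set d := ‖Fc ρ φ (i + 1) (y + 1 + 1)‖
  have h2 : 0 ≤ 1 - ρ := by linarith
  have a3 := cs_three (P := ρ ^ 2) (Q := 2 * ρ * (1 - ρ)) (R := (1 - ρ) ^ 2) (a := a) (b := b)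
    (d := d) (σ := σ / 2) (by positivity) (by positivity) (by positivity)
  have a4 : (σ / 2) ^ 2 ≤ 1 - cc := by
    unfold cc
    linarith
  calc _ ≤ (ρ ^ 2 * a + 2 * ρ * (1 - ρ) * (σ / 2) * b + (1 - ρ) ^ 2 * d) ^ 2 := by
        apply pow_le_pow_left₀ (norm_nonneg _)
        refine a1.trans (le_of_eq ?_)
        ring
    _ ≤ _ := a3
    _ ≤ (ρ ^ 2 + 2 * ρ * (1 - ρ) * (1 - cc) + (1 - ρ) ^ 2) *
          (ρ ^ 2 * a ^ 2 + 2 * ρ * (1 - ρ) * b ^ 2 + (1 - ρ) ^ 2 * d ^ 2) := by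
        apply mul_le_mul_of_nonneg_right _ (by positivity)
        have := mul_le_mul_of_nonneg_left a4 (by positivity : 0 ≤ 2 * ρ * (1 - ρ))
        linarith
    _ = _ := by ring

theorem step_col (h0 : 0 < ρ) (h1 : ρ ≤ 1) (k x y : ℕ) :
    ‖Fc ρ φ (k - x) y‖ ≤ ρ * ‖Fc ρ φ (k - (x + 1)) (y + 1)‖ + (1 - ρ) * ‖Fc ρ φ (k - x) (y + 1)‖ :=
  norm_Fc_step h0 h1 (k - x) y

theorem step_sq (h0 : 0 < ρ) (h1 : ρ ≤ 1) (k x y : ℕ) :
    ‖Fc ρ φ (k - x) y‖ ^ 2 ≤ Pm ρ 1 (fun x y => ‖Fc ρ φ (k - x) y‖ ^ 2) x y := by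
  have := cs_step (δ := 0) h0.le h1 (norm_nonneg _) (step_col (φ := φ) h0 h1 k x y) le_rfl
    zero_lt_one (B := ‖Fc ρ φ (k - x) (y + 1)‖ ^ 2) (by simp)
  simpa [Pm] using this

end

theorem coef_bound {ρ : ℝ} (h0 : 0 < ρ) (h1 : ρ ≤ 1) (k p T : ℕ) (l : ℤ)
    (h2 : |(l : ℝ) / 2 ^ p| ≤ 1 / 2) :
    ‖Fc ρ (ph p l) k 0‖ ^ 2 ≤ Vw ρ (2 * cc / 5 * (1 - ρ) ^ 4 * ρ) (theta k p l) T 0 0 := by
  have hq : 0 ≤ 1 - ρ := by linarith
  have hc := cc_pos
  have hc1 := cc_le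
  have key := le_Vw (θ := theta k p l) (g := 2 * cc / 5 * (1 - ρ) ^ 4 * ρ) h0.le h1
    (by positivity) (K := fun x y => ‖Fc ρ (ph p l) (k - x) y‖ ^ 2)
    (fun x y => pow_le_one₀ (norm_nonneg _) (norm_Fc_le h0 h1 _ _)) (step_sq h0 h1 k) ?_ T 0 0
  · simpa using key
  intro x y hw
  have hx := lt_of_white hw
  have hw' : 1 / 10 ≤ ‖((l * uu (k - x) (p + (y + 1 + 3) + 1) : ℝ) : UnitAddCircle)‖ := by
    unfold White theta at hw
    rw [beta_eq k p x y hx.le, ← AddCircle.coe_zsmul, zsmul_eq_mul] at hw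
    rw [show p + (y + 1 + 3) + 1 = y + p + 5 by ring]
    exact hw
  obtain ⟨j, hj, hfar⟩ := exists_far p l (k - x) (y + 1) h2 hw'
  rw [show y + 1 + j = y + j + 1 by ring] at hfar
  have g2 := gain_two h0 h1 hx hfar
  have hγ : 2 * ρ * (1 - ρ) * cc < 1 := by nlinarith [sq_nonneg (2 * ρ - 1), mul_nonneg h0.le hq]
  have g3 := gain_column h0.le h1 (H := fun x y => ‖Fc ρ (ph p l) (k - x) y‖)
    (fun _ _ => norm_nonneg _) (step_col h0 h1 k) (step_sq h0 h1 k) (by positivity) hγ x j y g2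
  refine g3.trans ?_
  have hP := Pm_le_of_le h0.le h1 (step_sq (φ := ph p l) h0 h1 k) (show j + 2 ≤ 5 by omega) x y
  have hP0 := Pm_nonneg h0.le h1 (f := fun x y => ‖Fc ρ (ph p l) (k - x) y‖ ^ 2)
    (fun _ _ => by positivity) (j + 2) x y
  refine mul_le_mul ?_ hP hP0 (Real.exp_pos _).le
  refine le_trans ?_ (Real.add_one_le_exp _)
  have hq3 : (1 - ρ) ^ 3 ≤ (1 - ρ) ^ j := pow_le_pow_of_le_one hq (by linarith) hj
  have := mul_le_mul_of_nonneg_right hq3 (by positivity : 0 ≤ 2 * ρ * (1 - ρ) * cc)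
  nlinarith

theorem Phi_eq (k p : ℕ) (x : Fin k → ℕ+) :
    Phi k p x = -3 ^ k * ∑ i : Fin k, win p (i + 1) (tail x i) := by
  unfold Phi win
  congr 1
  rw [Finset.sum_comm]
  simp only [Finset.mul_sum]

theorem nu_eq {μ : ℝ} (hμ : 1 < μ) (k p n : ℕ) : ∃ n' : ℤ,
    (nu k (p + 1) μ n : ℂ) = ((2 : ℂ) ^ (p + 1))⁻¹ *
      ∑ l ∈ Finset.Ico (-((2 ^ p : ℕ) : ℤ)) (2 ^ p : ℕ),
        ec (-(l / 2 ^ (p + 1) * n')) * Fc μ⁻¹ (ph (p + 1) l) k 0 := by
  have h0 : 0 < μ⁻¹ := by positivity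
  have h1 : μ⁻¹ ≤ 1 := inv_le_one_of_one_le₀ hμ.le
  have hcop : IsCoprime (-(3 : ℤ) ^ k) (2 ^ (p + 1)) := by
    apply IsCoprime.neg_left
    apply IsCoprime.pow
    norm_num
  obtain ⟨a, b, hab⟩ := hcop
  have hcop : IsCoprime ((2 : ℤ) ^ (p + 1)) (-(3 : ℤ) ^ k) := ⟨b, a, by linarith⟩
  refine ⟨a * n, ?_⟩
  have hiff : ∀ S : ℤ, (-3 ^ k * S ≡ (n : ℤ) [ZMOD 2 ^ (p + 1)]) ↔
      (2 * ((2 ^ p : ℕ) : ℤ)) ∣ S - a * n := by
    intro S
    have e : (2 * ((2 ^ p : ℕ) : ℤ)) = 2 ^ (p + 1) := by push_cast; ring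
    have e2 : (n : ℤ) - -3 ^ k * S = -3 ^ k * (-(S - a * n)) + 2 ^ (p + 1) * (b * n) := by
      linear_combination (-(n : ℤ)) * hab
    rw [e, Int.modEq_iff_dvd, e2, dvd_add_left (dvd_mul_right _ _), ← dvd_neg (b := S - a * n)]
    exact ⟨fun h => hcop.dvd_of_dvd_mul_left h, fun h => h.mul_left _⟩
  unfold nu Fc
  simp only [← tsum_mul_left]
  rw [Complex.ofReal_tsum, ← Summable.tsum_finsetSum
    (fun l _ => (summable_wt_mul h0 h1 _).mul_left _), ← tsum_mul_left]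
  congr 1
  funext x
  have hs := sum_ec (2 ^ p) (by positivity) (∑ i : Fin k, win (p + 1) (i + 1) (tail x i) - a * n)
  have e3 : ∀ l ∈ Finset.Ico (-((2 ^ p : ℕ) : ℤ)) (2 ^ p : ℕ),
      ec (-(l / 2 ^ (p + 1) * ((a * n : ℤ) : ℝ))) *
        ((wt μ⁻¹ x : ℂ) * ec (∑ j : Fin k, ph (p + 1) l (j + 1) (0 + tail x j))) =
      (wt μ⁻¹ x : ℂ) * ec (l / (2 * ((2 ^ p : ℕ) : ℝ)) *
        ((∑ i : Fin k, win (p + 1) (i + 1) (tail x i) - a * n : ℤ) : ℝ)) := by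
    intro l _
    rw [mul_left_comm, ← ec_add]
    congr 2
    simp only [ph, zero_add, ← Finset.mul_sum]
    push_cast
    ring
  rw [Finset.sum_congr rfl e3, ← Finset.mul_sum, hs, Phi_eq]
  simp only [hiff]
  split_ifs
  · rw [wt]
    push_cast
    field_simp
    ring
  · simp

theorem fourier_reduction : ∃ c0 : ℝ, 0 < c0 ∧ ∀ (μ : ℝ), 1 < μ → ∀ (k p T n : ℕ), 1 ≤ k → 1 ≤ p →
    n < 2 ^ p → ∀ ω : ℕ → Bool,
    |nu k p μ n - ((2 : ℝ) ^ p)⁻¹| ≤ ((2 : ℝ) ^ p)⁻¹ *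
      ∑ l ∈ (Finset.Icc (-(2 : ℤ) ^ p) (2 ^ p)).erase 0,
        Real.sqrt (E μ⁻¹ 0 T (fun w => Real.exp (-(c0 * (1 - μ⁻¹) ^ 4 * μ⁻¹) *
          (Wc (theta k p l) (pos w) 0 T : ℝ))) ω) := by
  refine ⟨2 * cc / 5, by have := cc_pos; positivity, ?_⟩
  intro μ hμ k p T n _ hp _ ω
  obtain ⟨p, rfl⟩ : ∃ p', p = p' + 1 := ⟨p - 1, by omega⟩
  have h0 : 0 < μ⁻¹ := by positivity
  have h1 : μ⁻¹ ≤ 1 := inv_le_one_of_one_le₀ hμ.le
  obtain ⟨n', hn⟩ := nu_eq hμ k p n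
  have hmem : (0 : ℤ) ∈ Finset.Ico (-((2 ^ p : ℕ) : ℤ)) (2 ^ p : ℕ) := by
    rw [Finset.mem_Ico]
    constructor
    · simp
    · positivity
  have hF0 : Fc μ⁻¹ (ph (p + 1) 0) k 0 = 1 := by
    unfold Fc
    simp only [ph, Int.cast_zero, zero_div, zero_mul, Finset.sum_const_zero, ec_zero, mul_one]
    rw [← Complex.ofReal_tsum, (wt_hasSum h0 h1 k).tsum_eq, Complex.ofReal_one]
  rw [← Finset.add_sum_erase _ _ hmem, hF0] at hn
  simp only [Int.cast_zero, zero_div, zero_mul, neg_zero, ec_zero, mul_one] at hn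
  have e : ((nu k (p + 1) μ n - ((2 : ℝ) ^ (p + 1))⁻¹ : ℝ) : ℂ) =
      ((((2 : ℝ) ^ (p + 1))⁻¹ : ℝ) : ℂ) *
      ∑ l ∈ (Finset.Ico (-((2 ^ p : ℕ) : ℤ)) (2 ^ p : ℕ)).erase 0,
        ec (-(l / 2 ^ (p + 1) * n')) * Fc μ⁻¹ (ph (p + 1) l) k 0 := by
    push_cast at hn ⊢
    rw [hn]
    ring
  rw [← Real.norm_eq_abs, ← Complex.norm_real, e, norm_mul, Complex.norm_real, Real.norm_eq_abs,
    abs_of_pos (by positivity)]
  refine mul_le_mul_of_nonneg_left ?_ (by positivity)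
  refine (norm_sum_le _ _).trans ?_
  have hsub : (Finset.Ico (-((2 ^ p : ℕ) : ℤ)) (2 ^ p : ℕ)).erase 0 ⊆
      (Finset.Icc (-(2 : ℤ) ^ (p + 1)) (2 ^ (p + 1))).erase 0 := by
    apply Finset.erase_subset_erase
    intro l hl
    rw [Finset.mem_Ico] at hl
    rw [Finset.mem_Icc, pow_succ]
    push_cast at hl
    have : (0 : ℤ) < 2 ^ p := by positivity
    constructor <;> linarith [hl.1, hl.2]
  refine le_trans (Finset.sum_le_sum fun l hl => ?_)
    (Finset.sum_le_sum_of_subset_of_nonneg hsub fun _ _ _ => Real.sqrt_nonneg _)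
  rw [norm_mul, norm_ec, one_mul, E_zero_eq_Vw]
  apply Real.le_sqrt_of_sq_le
  apply coef_bound h0 h1
  have hl := Finset.mem_Ico.1 (Finset.mem_of_mem_erase hl)
  have a1 : -(2 : ℝ) ^ p ≤ l := by exact_mod_cast hl.1
  have a2 : (l : ℝ) < 2 ^ p := by exact_mod_cast hl.2
  rw [abs_div, abs_of_pos (by positivity : (0 : ℝ) < 2 ^ (p + 1)), div_le_iff₀ (by positivity),
    pow_succ, abs_le]
  constructor <;> linarith

end Pool.Agent.Lib.MP_a9e7ee_nt
end
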