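import Pool.Agent.Lib.MP_a9e7ee_nt.Arith

-- part Pool.Agent.Lib.MP_a9e7ee_nt.Pieces
section

/-!
Cutting a path in pieces: white times and crossings of black triangles.
-/

namespace Pool.Agent.Lib.MP_a9e7ee_nt

open Finset

open Classical in
/-- The start of the piece that follows the piece starting at time `s`. -/
noncomputable def nxt (θ : ℕ × ℕ → UnitAddCircle) (X : ℕ → ℕ) (T s : ℕ) : ℕ :=
  if White θ (X s, s) ∨ T ≤ s then s + 1 else
    Nat.findGreatest (fun e => Rel (1 / 10) θ (X s, s) (X e, e)) (T - 1) + 1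

open Classical in
/-- The starting times of the pieces. -/
noncomputable def St (θ : ℕ × ℕ → UnitAddCircle) (X : ℕ → ℕ) (T : ℕ) : Finset ℕ :=
  (range T).filter fun s => ∃ j, (nxt θ X T)^[j] 0 = s

/-- The length of the code of the path. -/
noncomputable def len (θ : ℕ × ℕ → UnitAddCircle) (X : ℕ → ℕ) (T : ℕ) : ℝ :=
  ∑ s ∈ St θ X T, Real.log (48 * ((nxt θ X T s - s : ℕ) : ℝ) ^ 3)

section

variable {θ : ℕ × ℕ → UnitAddCircle} {X : ℕ → ℕ} {T : ℕ}

theorem nxt_white {s : ℕ} (h : White θ (X s, s)) : nxt θ X T s = s + 1 := by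
  unfold nxt; rw [if_pos (Or.inl h)]

theorem nxt_spec {s : ℕ} (hT : s < T) (h : ¬ White θ (X s, s)) :
    s < nxt θ X T s ∧ nxt θ X T s ≤ T ∧
      Rel (1 / 10) θ (X s, s) (X (nxt θ X T s - 1), nxt θ X T s - 1) ∧
      ∀ u, nxt θ X T s ≤ u → u < T → ¬ Rel (1 / 10) θ (X s, s) (X u, u) := by
  classical
  have h0 : Rel (1 / 10) θ (X s, s) (X s, s) := rel_self (not_le.mp h)
  have e : nxt θ X T s =
      Nat.findGreatest (fun e => Rel (1 / 10) θ (X s, s) (X e, e)) (T - 1) + 1 := by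
    unfold nxt; rw [if_neg (by rintro (h1 | h1); exacts [h h1, by omega])]
  have h1 := Nat.le_findGreatest (P := fun e => Rel (1 / 10) θ (X s, s) (X e, e))
    (by omega : s ≤ T - 1) h0
  have h2 := Nat.findGreatest_le (P := fun e => Rel (1 / 10) θ (X s, s) (X e, e)) (T - 1)
  have h3 := Nat.findGreatest_spec (P := fun e => Rel (1 / 10) θ (X s, s) (X e, e))
    (by omega : s ≤ T - 1) h0
  refine ⟨by omega, by omega, by rw [e, Nat.add_sub_cancel]; exact h3, fun u h4 h5 => ?_⟩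
  exact Nat.findGreatest_is_greatest (P := fun e => Rel (1 / 10) θ (X s, s) (X e, e))
    (by omega) (by omega : u ≤ T - 1)

theorem lt_nxt (s : ℕ) : s < nxt θ X T s := by
  by_cases h : White θ (X s, s) ∨ T ≤ s
  · unfold nxt; rw [if_pos h]; omega
  · push Not at h; exact (nxt_spec h.2 h.1).1

theorem nxt_le {s : ℕ} (hT : s < T) : nxt θ X T s ≤ T := by
  by_cases h : White θ (X s, s)
  · rw [nxt_white h]; omega
  · exact (nxt_spec hT h).2.1

theorem white_nxt (hs : Sys θ) (hX : IsPath X) {s : ℕ} (h : ¬ White θ (X s, s))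
    (hT : nxt θ X T s < T) : White θ (X (nxt θ X T s), nxt θ X T s) := by
  have hl := lt_nxt (θ := θ) (X := X) (T := T) s
  obtain ⟨-, -, h1, h2⟩ := nxt_spec (by omega : s < T) h
  by_contra hc
  apply h2 _ le_rfl hT
  obtain ⟨e, he⟩ : ∃ e, nxt θ X T s = e + 1 := ⟨nxt θ X T s - 1, by omega⟩
  rw [he] at hc h1 ⊢
  exact h1.trans hs (by norm_num) (rel_step hs (by norm_num) (hX e) (h1.black_right hs)
    (not_le.mp hc))

theorem black_of_long {s : ℕ} (h : s + 1 < nxt θ X T s) : ¬ White θ (X s, s) := fun hw => by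
  rw [nxt_white hw] at h; omega

theorem it_strictMono : StrictMono fun j => (nxt θ X T)^[j] 0 :=
  strictMono_nat_of_lt_succ fun j => by
    simp only [Function.iterate_succ_apply']; exact lt_nxt _

theorem mem_St {s : ℕ} : s ∈ St θ X T ↔ s < T ∧ ∃ j, (nxt θ X T)^[j] 0 = s := by
  simp [St]

theorem St_lt {s : ℕ} (h : s ∈ St θ X T) : s < T := (mem_St.mp h).1

theorem zero_mem_St (hT : 0 < T) : 0 ∈ St θ X T := mem_St.mpr ⟨hT, 0, rfl⟩

theorem nxt_mem_St {s : ℕ} (h : s ∈ St θ X T) (hT : nxt θ X T s < T) :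
    nxt θ X T s ∈ St θ X T := by
  obtain ⟨-, j, rfl⟩ := mem_St.mp h
  exact mem_St.mpr ⟨hT, j + 1, Function.iterate_succ_apply' _ _ _⟩

theorem nxt_le_of_lt {s s' : ℕ} (h : s ∈ St θ X T) (h' : s' ∈ St θ X T) (hl : s < s') :
    nxt θ X T s ≤ s' := by
  obtain ⟨-, j, rfl⟩ := mem_St.mp h
  obtain ⟨-, j', rfl⟩ := mem_St.mp h'
  have h1 : j < j' := it_strictMono.lt_iff_lt.mp hl
  have := (it_strictMono (θ := θ) (X := X) (T := T)).monotone (by omega : j + 1 ≤ j')
  simpa only [Function.iterate_succ_apply'] using this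

theorem exists_piece {t : ℕ} (ht : t < T) : ∃ s ∈ St θ X T, s ≤ t ∧ t < nxt θ X T s := by
  induction t with
  | zero => exact ⟨0, zero_mem_St ht, le_rfl, lt_nxt _⟩
  | succ t ih =>
    obtain ⟨s, h1, h2, h3⟩ := ih (by omega)
    rcases (Nat.succ_le_of_lt h3).eq_or_lt with h | h
    · refine ⟨nxt θ X T s, nxt_mem_St h1 (by omega), by omega, ?_⟩
      have := lt_nxt (θ := θ) (X := X) (T := T) (nxt θ X T s)
      omega
    · exact ⟨s, h1, by omega, h⟩

theorem exists_prev {s : ℕ} (h : s ∈ St θ X T) (h0 : 0 < s) :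
    ∃ s' ∈ St θ X T, nxt θ X T s' = s := by
  obtain ⟨h1, j, hj⟩ := mem_St.mp h
  cases j with
  | zero => simp at hj; omega
  | succ j =>
    rw [Function.iterate_succ_apply'] at hj
    refine ⟨_, mem_St.mpr ⟨?_, j, rfl⟩, hj⟩
    have := lt_nxt (θ := θ) (X := X) (T := T) ((nxt θ X T)^[j] 0)
    omega

theorem white_prev (hs : Sys θ) (hX : IsPath X) {s : ℕ} (h : s ∈ St θ X T) (h0 : 0 < s)
    (hb : ¬ White θ (X s, s)) : White θ (X (s - 1), s - 1) := by
  obtain ⟨s', h1, h2⟩ := exists_prev h h0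
  by_cases hw : White θ (X s', s')
  · rw [nxt_white hw] at h2
    rw [← h2, Nat.add_sub_cancel]; exact hw
  · have := white_nxt (T := T) hs hX hw (by rw [h2]; exact St_lt h)
    rw [h2] at this
    exact absurd this hb

theorem card_St (hs : Sys θ) (hX : IsPath X) : (St θ X T).card ≤ 2 * Wc θ X 0 T + 1 := by
  classical
  let Wt := (Ico 0 T).filter fun t => White θ (X t, t)
  have h1 : St θ X T ⊆ Wt ∪ (Wt.image (· + 1) ∪ {0}) := by
    intro s h
    have hl := St_lt h
    simp only [Wt, mem_union, mem_filter, mem_Ico, mem_image, mem_singleton]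
    by_cases hw : White θ (X s, s)
    · exact Or.inl ⟨⟨by omega, hl⟩, hw⟩
    · rcases Nat.eq_zero_or_pos s with h0 | h0
      · exact Or.inr (Or.inr h0)
      · exact Or.inr (Or.inl ⟨s - 1, ⟨⟨by omega, by omega⟩, white_prev hs hX h h0 hw⟩, by omega⟩)
  have h2 := card_le_card h1
  have h3 := card_union_le Wt (Wt.image (· + 1) ∪ {0})
  have h4 := card_union_le (Wt.image (· + 1)) {0}
  have h5 := card_image_le (s := Wt) (f := (· + 1))
  have h6 : Wc θ X 0 T = Wt.card := by unfold Wc; congr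
  simp only [card_singleton] at h4
  omega

theorem sum_window {a r : ℕ} (ha : a ∈ St θ X T) (hr : a + r ≤ T) :
    r ≤ ∑ σ ∈ (St θ X T).filter (fun σ => a ≤ σ ∧ σ < a + r), (nxt θ X T σ - σ) := by
  have h1 : Ico a (a + r) ⊆ ((St θ X T).filter (fun σ => a ≤ σ ∧ σ < a + r)).biUnion
      fun σ => Ico σ (nxt θ X T σ) := by
    intro t ht
    rw [mem_Ico] at ht
    obtain ⟨s, h1, h2, h3⟩ := exists_piece (θ := θ) (X := X) (by omega : t < T)
    refine mem_biUnion.mpr ⟨s, mem_filter.mpr ⟨h1, ?_, by omega⟩, mem_Ico.mpr ⟨h2, h3⟩⟩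
    by_contra hc
    have := nxt_le_of_lt h1 ha (by omega)
    omega
  have h2 := (card_le_card h1).trans card_biUnion_le
  simpa using h2

open Classical in
theorem level_bound (hsy : Sys θ) (hX : IsPath X) (b : ℕ) :
    ((St θ X T).filter fun s => nxt θ X T s < T ∧ K0 ^ (b + 1) ≤ nxt θ X T s - s ∧
      ¬ Bad θ b (X (nxt θ X T s - 1), nxt θ X T s - 1)).card * K0 ^ b ≤
    ∑ σ ∈ (St θ X T).filter (fun σ => nxt θ X T σ - σ < K0 ^ (b + 1)), (nxt θ X T σ - σ) +
      K0 ^ b := by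
  set A := (St θ X T).filter fun s => nxt θ X T s < T ∧ K0 ^ (b + 1) ≤ nxt θ X T s - s ∧
      ¬ Bad θ b (X (nxt θ X T s - 1), nxt θ X T s - 1) with hA
  have hK : 2 ≤ K0 ^ (b + 1) := by
    have := K0_ge
    calc 2 ≤ K0 ^ 1 := by rw [pow_one]; omega
      _ ≤ _ := Nat.pow_le_pow_right (by omega) (by omega)
  let Win : ℕ → Finset ℕ := fun s =>
    (St θ X T).filter (fun σ => nxt θ X T s ≤ σ ∧ σ < nxt θ X T s + K0 ^ b)
  have h1 : ∀ s ∈ A, ∀ σ ∈ Win s, nxt θ X T σ - σ < K0 ^ (b + 1) := by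
    intro s hs σ hσ
    obtain ⟨s1, s2, s3, s4⟩ := mem_filter.mp hs
    obtain ⟨t1, t2, t3⟩ := mem_filter.mp hσ
    by_contra hc
    apply s4
    obtain ⟨u1, -, u3, u4⟩ := nxt_spec (St_lt s1) (black_of_long (θ := θ) (X := X) (T := T)
      (by omega))
    obtain ⟨v1, -, v3, -⟩ := nxt_spec (St_lt t1) (black_of_long (θ := θ) (X := X) (T := T)
      (by omega))
    have m1 := hX.mono (by omega : s ≤ nxt θ X T s - 1)
    have m2 := hX.mono (by omega : nxt θ X T s - 1 ≤ σ)
    have m3 := hX.lip (by omega : nxt θ X T s - 1 ≤ σ)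
    have m4 := hX.mono (by omega : σ ≤ nxt θ X T σ - 1)
    refine ⟨(X s, s), (X σ, σ), (X (nxt θ X T σ - 1), nxt θ X T σ - 1), m1, by simp only; omega,
      u3, m2, by simp only; omega, by simp only; omega, by simp only; omega, m4,
      by simp only; omega, v3, fun hr => ?_⟩
    exact u4 σ t2 (St_lt t1) (u3.trans hsy (by norm_num) hr)
  have h2 : ∀ s ∈ A, ∀ s' ∈ A, s < s' → nxt θ X T s + K0 ^ b ≤ s' := by
    intro s hs s' hs' hl
    by_contra hc
    have a1 := mem_filter.mp hs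
    have a2 := mem_filter.mp hs'
    have := h1 s hs s' (mem_filter.mpr ⟨a2.1, nxt_le_of_lt a1.1 a2.1 hl, by omega⟩)
    omega
  let A' := A.filter fun s => nxt θ X T s + K0 ^ b ≤ T
  have h3 : A.card ≤ A'.card + 1 := by
    have := card_filter_add_card_filter_not (s := A) fun s => nxt θ X T s + K0 ^ b ≤ T
    have h4 : (A.filter fun s => ¬ nxt θ X T s + K0 ^ b ≤ T).card ≤ 1 := by
      refine card_le_one.mpr fun s hs s' hs' => ?_
      obtain ⟨a1, a2⟩ := mem_filter.mp hs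
      obtain ⟨a3, a4⟩ := mem_filter.mp hs'
      have := St_lt (mem_filter.mp a1).1
      have := St_lt (mem_filter.mp a3).1
      rcases lt_trichotomy s s' with h | h | h
      · have := h2 s a1 s' a3 h; omega
      · exact h
      · have := h2 s' a3 s a1 h; omega
    simp only [A']
    omega
  have h4 : A'.card * K0 ^ b ≤ ∑ s ∈ A', ∑ σ ∈ Win s, (nxt θ X T σ - σ) := by
    rw [← smul_eq_mul]
    refine card_nsmul_le_sum _ _ _ fun s hs => ?_
    obtain ⟨a1, a2⟩ := mem_filter.mp hs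
    obtain ⟨a3, a4, -⟩ := mem_filter.mp a1
    exact sum_window (nxt_mem_St a3 a4) a2
  have h5 : (A' : Set ℕ).PairwiseDisjoint Win := by
    have key : ∀ s ∈ A', ∀ s' ∈ A', s < s' → Disjoint (Win s) (Win s') := by
      intro s hs s' hs' hl
      refine disjoint_left.mpr fun σ a1 a2 => ?_
      have := h2 s (mem_filter.mp hs).1 s' (mem_filter.mp hs').1 hl
      have := (mem_filter.mp a1).2
      have := (mem_filter.mp a2).2
      have := lt_nxt (θ := θ) (X := X) (T := T) s'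
      omega
    intro s hs s' hs' hne
    rcases lt_or_gt_of_ne hne with h | h
    · exact key s hs s' hs' h
    · exact (key s' hs' s hs h).symm
  rw [← sum_biUnion h5] at h4
  have h6 : ∑ σ ∈ A'.biUnion Win, (nxt θ X T σ - σ) ≤
      ∑ σ ∈ (St θ X T).filter (fun σ => nxt θ X T σ - σ < K0 ^ (b + 1)), (nxt θ X T σ - σ) := by
    refine sum_le_sum_of_subset fun σ hσ => ?_
    obtain ⟨s, a1, a2⟩ := mem_biUnion.mp hσ
    exact mem_filter.mpr ⟨(mem_filter.mp a2).1, h1 s (mem_filter.mp a1).1 σ a2⟩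
  calc A.card * K0 ^ b ≤ (A'.card + 1) * K0 ^ b := Nat.mul_le_mul_right _ h3
    _ ≤ _ := by rw [add_mul, one_mul]; omega

theorem geom_levels (τ n : ℕ) :
    ∑ b ∈ range n, (if τ < K0 ^ (b + 1) then (τ : ℝ) / K0 ^ b else 0) ≤ 2 * K0 := by
  have hK : (2 : ℝ) ≤ K0 := by have := K0_ge; exact_mod_cast (by omega : 2 ≤ K0)
  have hK0 : (0 : ℝ) < K0 := by linarith
  suffices h : ∑ b ∈ range n, (if τ < K0 ^ (b + 1) then (τ : ℝ) / K0 ^ b else 0) +
      min (2 * K0 : ℝ) (2 * (τ / K0 ^ n)) ≤ 2 * K0 by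
    have : (0 : ℝ) ≤ min (2 * K0 : ℝ) (2 * (τ / K0 ^ n)) := le_min (by positivity) (by positivity)
    linarith
  induction n with
  | zero => simp
  | succ n ih =>
    rw [sum_range_succ]
    have h0 : (0 : ℝ) < (K0 : ℝ) ^ n := by positivity
    split_ifs with h
    · have h1 : (τ : ℝ) / K0 ^ n ≤ K0 := by
        rw [div_le_iff₀ h0, ← pow_succ']; exact_mod_cast h.le
      rw [min_eq_right (by linarith)] at ih
      have h2 : (τ : ℝ) / K0 ^ (n + 1) ≤ τ / K0 ^ n / 2 := by
        rw [pow_succ, ← div_div]; gcongr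
      have := min_le_right (2 * K0 : ℝ) (2 * (τ / K0 ^ (n + 1)))
      linarith
    · have h1 : (K0 : ℝ) ≤ τ / K0 ^ n := by
        rw [le_div_iff₀ h0, ← pow_succ']; exact_mod_cast not_lt.mp h
      rw [min_eq_left (by linarith)] at ih
      have := min_le_left (2 * K0 : ℝ) (2 * (τ / K0 ^ (n + 1)))
      linarith

end

/-- The class of the piece that starts at time `s`. -/
noncomputable def cls (θ : ℕ × ℕ → UnitAddCircle) (X : ℕ → ℕ) (T s : ℕ) : ℕ :=
  Nat.log K0 (nxt θ X T s - s)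

open Classical in
/-- The lucky pieces. -/
noncomputable def LS (θ : ℕ × ℕ → UnitAddCircle) (X : ℕ → ℕ) (T : ℕ) : Finset ℕ :=
  (St θ X T).filter fun s => 0 < s ∧ nxt θ X T s < T ∧ 16 ≤ cls θ X T s ∧
    Lucky θ (cls θ X T s) (X (nxt θ X T s - 1), nxt θ X T s - 1)

section

variable {θ : ℕ × ℕ → UnitAddCircle} {X : ℕ → ℕ} {T : ℕ}

theorem pow_cls_le (s : ℕ) : K0 ^ cls θ X T s ≤ nxt θ X T s - s :=
  Nat.pow_log_le_self _ (by have := lt_nxt (θ := θ) (X := X) (T := T) s; omega)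

theorem lt_pow_cls (s : ℕ) : nxt θ X T s - s < K0 ^ (cls θ X T s + 1) :=
  Nat.lt_pow_succ_log_self (by have := K0_ge; omega) _

theorem cls_le {s : ℕ} (h : s ∈ St θ X T) : cls θ X T s ≤ Nat.log K0 T :=
  Nat.log_mono_right (by have := nxt_le (θ := θ) (X := X) (St_lt h); omega)

theorem sum_cls (hs : Sys θ) (hX : IsPath X) :
    (∑ s ∈ St θ X T, (cls θ X T s : ℝ)) ≤ 34 * Nat.log K0 T + (16 + 64 * K0) * (St θ X T).card +
      ∑ s ∈ LS θ X T, (cls θ X T s : ℝ) := by
  classical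
  set L := Nat.log K0 T with hL
  have hK0 : (0 : ℝ) < K0 := by have := K0_ge; exact_mod_cast (by omega : 0 < K0)
  let G : ℕ → ℕ → Prop := fun b s => nxt θ X T s < T ∧ K0 ^ (b + 1) ≤ nxt θ X T s - s ∧
      ¬ Bad θ b (X (nxt θ X T s - 1), nxt θ X T s - 1)
  have h1 : ∀ s ∈ St θ X T, cls θ X T s ≤ (if s = 0 then L else 0) +
      (if nxt θ X T s = T then L else 0) + 16 + 32 * ((range L).filter fun b => G b s).card +
      (if s ∈ LS θ X T then cls θ X T s else 0) := by
    intro s h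
    have a1 := cls_le h
    have a2 := nxt_le (θ := θ) (X := X) (St_lt h)
    by_cases c1 : s = 0
    · rw [if_pos c1]; omega
    by_cases c2 : nxt θ X T s = T
    · rw [if_pos c2]; omega
    by_cases c3 : s ∈ LS θ X T
    · rw [if_pos c3]; omega
    by_cases c4 : cls θ X T s < 16
    · omega
    have c5 : ¬ Lucky θ (cls θ X T s) (X (nxt θ X T s - 1), nxt θ X T s - 1) := fun hl =>
      c3 (mem_filter.mpr ⟨h, by omega, by omega, by omega, hl⟩)
    unfold Lucky nb at c5
    have c6 := card_filter_add_card_filter_not (s := range (cls θ X T s))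
      fun b => Bad θ b (X (nxt θ X T s - 1), nxt θ X T s - 1)
    have c7 : ((range (cls θ X T s)).filter
        fun b => ¬ Bad θ b (X (nxt θ X T s - 1), nxt θ X T s - 1)).card ≤
        ((range L).filter fun b => G b s).card := by
      refine card_le_card fun b hb => ?_
      obtain ⟨b1, b2⟩ := mem_filter.mp hb
      rw [mem_range] at b1
      refine mem_filter.mpr ⟨mem_range.mpr (by omega), by omega, ?_, b2⟩
      exact (Nat.pow_le_pow_right (by have := K0_ge; omega) b1).trans (pow_cls_le s)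
    rw [card_range] at c6
    omega
  have h2 : ∑ s ∈ St θ X T, (if s = 0 then L else 0) ≤ L := by
    rw [sum_ite_eq']; split_ifs <;> omega
  have h3 : ∑ s ∈ St θ X T, (if nxt θ X T s = T then L else 0) ≤ L := by
    rw [← sum_filter, sum_const, smul_eq_mul]
    have : ((St θ X T).filter fun s => nxt θ X T s = T).card ≤ 1 := by
      refine card_le_one.mpr fun s hs s' hs' => ?_
      obtain ⟨a1, a2⟩ := mem_filter.mp hs
      obtain ⟨a3, a4⟩ := mem_filter.mp hs'
      have := St_lt a1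
      have := St_lt a3
      rcases lt_trichotomy s s' with h | h | h
      · have := nxt_le_of_lt a1 a3 h; omega
      · exact h
      · have := nxt_le_of_lt a3 a1 h; omega
    calc _ ≤ 1 * L := Nat.mul_le_mul_right _ this
      _ = L := one_mul _
  have h4 : ∑ s ∈ St θ X T, (if s ∈ LS θ X T then cls θ X T s else 0) =
      ∑ s ∈ LS θ X T, cls θ X T s := by
    rw [← sum_filter]
    congr 1
    ext s
    simp only [mem_filter, and_iff_right_iff_imp]
    exact fun h => (mem_filter.mp h).1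
  have h5 : (∑ s ∈ St θ X T, (((range L).filter fun b => G b s).card : ℝ)) ≤
      L + 2 * K0 * (St θ X T).card := by
    have e1 : (∑ s ∈ St θ X T, (((range L).filter fun b => G b s).card : ℝ)) =
        ∑ b ∈ range L, (((St θ X T).filter fun s => G b s).card : ℝ) := by
      simp only [card_filter]
      push_cast
      exact sum_comm
    have e2 : ∀ b ∈ range L, (((St θ X T).filter fun s => G b s).card : ℝ) ≤
        ∑ σ ∈ St θ X T, (if nxt θ X T σ - σ < K0 ^ (b + 1) then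
          ((nxt θ X T σ - σ : ℕ) : ℝ) / K0 ^ b else 0) + 1 := by
      intro b _
      have h0 : (0 : ℝ) < (K0 : ℝ) ^ b := by positivity
      have := level_bound (T := T) hs hX b
      rw [← sum_filter, ← sum_div, div_add_one h0.ne', le_div_iff₀ h0]
      exact_mod_cast this
    rw [e1]
    refine (sum_le_sum e2).trans ?_
    rw [sum_add_distrib, sum_comm]
    have e3 := sum_le_sum fun σ (_ : σ ∈ St θ X T) => geom_levels (nxt θ X T σ - σ) L
    simp only [sum_const, card_range, nsmul_eq_mul, mul_one] at e3 ⊢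
    linarith
  have h6 := sum_le_sum h1
  simp only [sum_add_distrib, ← mul_sum, sum_const, smul_eq_mul] at h6
  rw [h4] at h6
  have h7 : ∑ s ∈ St θ X T, cls θ X T s ≤ 2 * L + (St θ X T).card * 16 +
      32 * ∑ s ∈ St θ X T, ((range L).filter fun b => G b s).card +
      ∑ s ∈ LS θ X T, cls θ X T s := by omega
  have h8 : ((∑ s ∈ St θ X T, cls θ X T s : ℕ) : ℝ) ≤ _ := Nat.cast_le.mpr h7
  push_cast at h8
  nlinarith

/-- The accounting of the code length. -/
theorem len_le : ∃ C0 : ℝ, 0 < C0 ∧ ∀ (θ : ℕ × ℕ → UnitAddCircle) (X : ℕ → ℕ) (T : ℕ), Sys θ →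
    IsPath X → 0 < T → len θ X T ≤ C0 * (Wc θ X 0 T + 1 + Real.log T) +
      C0 * ∑ s ∈ LS θ X T, (cls θ X T s : ℝ) := by
  have hK : (16 : ℝ) ≤ K0 := by exact_mod_cast K0_ge
  have hl : 0 < Real.log K0 := Real.log_pos (by linarith)
  have hl48 : 0 < Real.log 48 := Real.log_pos (by norm_num)
  refine ⟨2 * (Real.log 48 + 3 * Real.log K0 * (17 + 64 * K0)) + 102, by positivity, ?_⟩
  intro θ X T hs hX hT
  have h1 : ∀ s ∈ St θ X T, Real.log (48 * ((nxt θ X T s - s : ℕ) : ℝ) ^ 3) ≤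
      Real.log 48 + 3 * Real.log K0 * (cls θ X T s + 1) := by
    intro s _
    have a1 : (0 : ℝ) < ((nxt θ X T s - s : ℕ) : ℝ) := by
      have := lt_nxt (θ := θ) (X := X) (T := T) s
      exact_mod_cast (by omega : 0 < nxt θ X T s - s)
    have a2 : ((nxt θ X T s - s : ℕ) : ℝ) ≤ (K0 : ℝ) ^ (cls θ X T s + 1) := by
      exact_mod_cast (lt_pow_cls s).le
    have a3 := Real.log_le_log a1 a2
    rw [Real.log_pow] at a3
    rw [Real.log_mul (by norm_num) (by positivity), Real.log_pow]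
    push_cast at a3 ⊢
    linarith
  have h2 := sum_le_sum h1
  simp only [sum_add_distrib, ← mul_sum, sum_const, nsmul_eq_mul, mul_one] at h2
  have h3 := sum_cls (T := T) hs hX
  have h4 : ((St θ X T).card : ℝ) ≤ 2 * Wc θ X 0 T + 1 := by exact_mod_cast card_St hs hX
  have h5 : (Nat.log K0 T : ℝ) * Real.log K0 ≤ Real.log T := by
    rw [← Real.log_pow]
    exact Real.log_le_log (by positivity) (by exact_mod_cast Nat.pow_log_le_self K0 hT.ne')
  have h6 : 0 ≤ Real.log T := Real.log_nonneg (by exact_mod_cast hT)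
  have h7 : (0 : ℝ) ≤ ∑ s ∈ LS θ X T, (cls θ X T s : ℝ) := by positivity
  have h8 : (0 : ℝ) ≤ Wc θ X 0 T := by positivity
  set J : ℝ := ((St θ X T).card : ℝ)
  set W : ℝ := (Wc θ X 0 T : ℝ)
  set Z : ℝ := ∑ s ∈ LS θ X T, (cls θ X T s : ℝ)
  set a : ℝ := Real.log 48 + 3 * Real.log K0 * (17 + 64 * K0) with ha
  have ha0 : 3 * Real.log K0 ≤ a := by nlinarith
  have h9 : len θ X T ≤ a * J + 102 * Real.log T + 3 * Real.log K0 * Z := by
    have := mul_le_mul_of_nonneg_left h3 (by positivity : 0 ≤ 3 * Real.log K0)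
    unfold len
    nlinarith
  have h10 : a * J ≤ a * (2 * W + 1) := mul_le_mul_of_nonneg_left h4 (by linarith)
  have h11 : 3 * Real.log K0 * Z ≤ a * Z := mul_le_mul_of_nonneg_right ha0 h7
  have h12 : 0 ≤ a * Real.log T := by have : 0 ≤ a := by linarith
                                      positivity
  have h13 : 0 ≤ a * Z := by have : 0 ≤ a := by linarith
                             positivity
  nlinarith

end

end Pool.Agent.Lib.MP_a9e7ee_nt
end

-- part Pool.Agent.Lib.MP_a9e7ee_nt.Code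
section

/-!
Encoding the frequencies by the black structure along a path.
-/

namespace Pool.Agent.Lib.MP_a9e7ee_nt

open Finset

/-- The data of a piece: length, displacement, last step, cell. -/
abbrev Dat := ℕ × ℕ × ℕ × ℕ

/-- The last point of a piece. -/
def lst (p : ℕ × ℕ) (d : Dat) : ℕ × ℕ := (p.1 + d.2.1, p.2 + d.1 - 1)

/-- The first point of the next piece. -/
def adv (p : ℕ × ℕ) (d : Dat) : ℕ × ℕ := (p.1 + d.2.1 + d.2.2.1, p.2 + d.1)

/-- Admissible data. -/
def OkD (d : Dat) : Prop := d.2.1 < d.1 ∧ d.2.2.1 ≤ 1 ∧ d.2.2.2 < 6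

/-- Six cells cover the circle. -/
def InCell (z : UnitAddCircle) (c : ℕ) : Prop :=
  ‖z - (((2 * c + 1) / 12 : ℝ) : UnitAddCircle)‖ < 1 / 10

/-- Valid codes from the point `p` to a last point. -/
def Code (θ : ℕ × ℕ → UnitAddCircle) : ℕ × ℕ → List Dat → ℕ × ℕ → Prop
  | _, [], _ => False
  | p, d :: L, z => OkD d ∧ InCell (θ p) d.2.2.2 ∧ (2 ≤ d.1 → Rel (1 / 10) θ p (lst p d)) ∧
      ((L = [] ∧ z = lst p d) ∨ Code θ (adv p d) L z)

/-- The cost of a code. -/
def cst (L : List Dat) : ℕ := (L.map fun d => 48 * d.1 ^ 3).prod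

theorem exists_cell (z : UnitAddCircle) : ∃ c, c < 6 ∧ InCell z c := by
  induction z using QuotientAddGroup.induction_on with
  | H x =>
    have h0 := Int.fract_nonneg x
    have h1 := Int.fract_lt_one x
    refine ⟨⌊6 * Int.fract x⌋₊, (Nat.floor_lt (by positivity)).mpr (by push_cast; linarith), ?_⟩
    have h2 := Nat.floor_le (show 0 ≤ 6 * Int.fract x by positivity)
    have h3 := Nat.lt_floor_add_one (6 * Int.fract x)
    have h4 : ((x : ℝ) : UnitAddCircle) = ((Int.fract x : ℝ) : UnitAddCircle) := by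
      rw [← Int.self_sub_floor, AddCircle.coe_sub, eq_comm, sub_eq_self, AddCircle.coe_eq_zero_iff]
      exact ⟨⌊x⌋, by simp⟩
    unfold InCell
    rw [h4, ← AddCircle.coe_sub]
    refine (norm_coe_le _).trans_lt (abs_lt.mpr ⟨by linarith, by linarith⟩)

theorem code_rel {θ1 θ2 θ3 : ℕ × ℕ → UnitAddCircle} (h1 : Sys θ1) (h2 : Sys θ2) (h3 : Sys θ3)
    (he : ∀ P, θ3 P = θ1 P - θ2 P) (L : List Dat) : ∀ (p z z' : ℕ × ℕ), Code θ1 p L z →
    Code θ2 p L z' → z = z' ∧ Rel (1 / 5) θ3 p z := by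
  have hcov : ∀ C P, Cov (1 / 10) θ1 C P → Cov (1 / 10) θ2 C P → Cov (1 / 5) θ3 C P := by
    intro C P a b
    refine ⟨a.1, a.2.1, ?_⟩
    have := mul_le_mul_of_nonneg_right (norm_sub_le (θ1 C) (θ2 C))
      (by positivity : (0 : ℝ) ≤ 3 ^ (P.1 - C.1) * 2 ^ (C.2 - P.2))
    rw [he]
    linarith [a.2.2, b.2.2]
  induction L with
  | nil => intro p z z' h; exact h.elim
  | cons d L ih =>
    rintro p z z' ⟨a1, a2, a3, a4⟩ ⟨-, b2, b3, b4⟩
    have r1 : Rel (1 / 5) θ3 p (lst p d) := by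
      by_cases h : 2 ≤ d.1
      · have c1 := (a3 h).corner h1 (by simp [lst]) (by simp only [lst]; omega)
        have c2 := (b3 h).corner h2 (by simp [lst]) (by simp only [lst]; omega)
        exact ⟨_, hcov _ _ c1.1 c2.1, hcov _ _ c1.2 c2.2⟩
      · have e : lst p d = p := by
          have := a1.1
          ext <;> simp only [lst] <;> omega
        rw [e]
        refine rel_self ?_
        unfold InCell at a2 b2
        rw [he, ← sub_sub_sub_cancel_right _ _
          ((((2 * (d.2.2.2 : ℕ) + 1) / 12 : ℝ)) : UnitAddCircle)]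
        linarith [norm_sub_le (θ1 p - (((2 * (d.2.2.2 : ℕ) + 1) / 12 : ℝ) : UnitAddCircle))
          (θ2 p - (((2 * (d.2.2.2 : ℕ) + 1) / 12 : ℝ) : UnitAddCircle))]
    rcases a4 with ⟨a5, a6⟩ | a4
    · rcases b4 with ⟨-, b6⟩ | b4
      · exact ⟨a6.trans b6.symm, a6 ▸ r1⟩
      · rw [a5] at b4; exact b4.elim
    · rcases b4 with ⟨b5, -⟩ | b4
      · rw [b5] at a4; exact a4.elim
      · obtain ⟨e1, r2⟩ := ih _ _ _ a4 b4
        have e2 : adv p d = ((lst p d).1 + d.2.2.1, (lst p d).2 + 1) := by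
          have := a1.1
          ext <;> simp only [lst, adv]; omega
        have r3 : Rel (1 / 5) θ3 (lst p d) (adv p d) := by
          have b1 := r2.black_left h3
          rw [e2] at b1 ⊢
          exact rel_step (x := (lst p d).1) h3 le_rfl (by have := a1.2.1; omega)
            (r1.black_right h3) b1
        exact ⟨e1, (r1.trans h3 (by norm_num) r3).trans h3 (by norm_num) r2⟩

theorem code_height {θ : ℕ × ℕ → UnitAddCircle} (L : List Dat) : ∀ (p z : ℕ × ℕ), Code θ p L z →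
    (∀ d ∈ L, OkD d) ∧ p.2 ≤ z.2 ∧ z.2 + 1 ≤ p.2 + cst L := by
  induction L with
  | nil => intro p z h; exact h.elim
  | cons d L ih =>
    rintro p z ⟨a1, -, -, a4⟩
    have h1 := a1.1
    have h2 : d.1 ≤ d.1 ^ 3 := Nat.le_self_pow (by norm_num) _
    rcases a4 with ⟨rfl, rfl⟩ | a4
    · simp only [cst, lst, List.mem_singleton, forall_eq, List.map_cons, List.map_nil,
        List.prod_cons, List.prod_nil]
      exact ⟨a1, by omega, by omega⟩
    · obtain ⟨b1, b2, b3⟩ := ih _ _ a4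
      simp only [adv] at b2 b3
      refine ⟨fun d' hd' => (List.mem_cons.mp hd').elim (fun h => h ▸ a1) (b1 d'), by omega, ?_⟩
      have e : cst (d :: L) = 48 * d.1 ^ 3 * cst L := by simp [cst]
      have h3 : 1 ≤ cst L := by omega
      have h4 : d.1 ^ 3 * 1 ≤ d.1 ^ 3 * cst L := Nat.mul_le_mul_left _ h3
      have h5 : 1 * cst L ≤ d.1 ^ 3 * cst L := Nat.mul_le_mul_right _ (by omega)
      rw [e, mul_assoc]
      omega

theorem kraft_one (F : Finset Dat) (hF : ∀ d ∈ F, OkD d) :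
    ∑ d ∈ F, (1 / ((48 * d.1 ^ 3 : ℕ) : ℝ)) ≤ 1 / 2 := by
  rw [← sum_fiberwise_of_maps_to (g := fun d => d.1) (t := Ioo 0 (F.sup (fun d => d.1) + 1))
    fun d hd => mem_Ioo.mpr ⟨by have := (hF d hd).1; omega,
      Nat.lt_succ_of_le (le_sup (f := fun d : Dat => d.1) hd)⟩]
  have h1 : ∀ τ ∈ Ioo 0 (F.sup (fun d => d.1) + 1),
      ∑ d ∈ F with d.1 = τ, (1 / ((48 * d.1 ^ 3 : ℕ) : ℝ)) ≤ 1 / 4 * ((τ : ℝ) ^ 2)⁻¹ := by
    intro τ hτ
    have h0 : (0 : ℝ) < τ := by exact_mod_cast (mem_Ioo.mp hτ).1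
    rw [sum_congr rfl (g := fun _ => 1 / ((48 * τ ^ 3 : ℕ) : ℝ)) fun d hd => by
      rw [(mem_filter.mp hd).2], sum_const, nsmul_eq_mul]
    have h2 : (F.filter fun d => d.1 = τ) ⊆ {τ} ×ˢ range τ ×ˢ range 2 ×ˢ range 6 := by
      intro d hd
      obtain ⟨a1, a2⟩ := mem_filter.mp hd
      obtain ⟨b1, b2, b3⟩ := hF d a1
      simp only [mem_product, mem_singleton, mem_range]
      omega
    have h3 := card_le_card h2
    simp only [card_product, card_singleton, card_range] at h3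
    have h4 : ((F.filter fun d => d.1 = τ).card : ℝ) ≤ 12 * τ := by exact_mod_cast (by omega)
    calc _ ≤ 12 * τ * (1 / ((48 * τ ^ 3 : ℕ) : ℝ)) := by gcongr
      _ = _ := by push_cast; field_simp; norm_num
  refine (sum_le_sum h1).trans ?_
  rw [← mul_sum]
  have := sum_Ioo_inv_sq_le (α := ℝ) 0 (F.sup (fun d => d.1) + 1)
  norm_num at this ⊢
  linarith

theorem kraft (n : ℕ) : ∀ S : Finset (List Dat), (∀ L ∈ S, L.length ≤ n ∧ ∀ d ∈ L, OkD d) →
    ∑ L ∈ S, (1 / (cst L : ℝ)) ≤ 2 := by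
  classical
  induction n with
  | zero =>
    intro S hS
    have : S ⊆ {[]} := fun L hL => mem_singleton.mpr (List.length_eq_zero_iff.mp
      (by have := (hS L hL).1; omega))
    refine (sum_le_sum_of_subset_of_nonneg this fun _ _ _ => by positivity).trans ?_
    simp [cst]
  | succ n ih =>
    intro S hS
    rw [← sum_filter_add_sum_filter_not S fun L => L = []]
    have h1 : ∑ L ∈ S with L = [], (1 / (cst L : ℝ)) ≤ 1 := by
      have : (S.filter fun L => L = []) ⊆ {[]} := fun L hL => mem_singleton.mpr (mem_filter.mp hL).2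
      refine (sum_le_sum_of_subset_of_nonneg this fun _ _ _ => by positivity).trans ?_
      simp [cst]
    set S' := S.filter fun L => ¬ L = [] with hS'
    have hc : ∀ L ∈ S', L = L.headI :: L.tail := fun L hL =>
      (List.cons_head!_tail (mem_filter.mp hL).2).symm
    have h2 : ∀ d ∈ S'.image List.headI, ∑ L ∈ S' with L.headI = d, (1 / (cst L : ℝ)) ≤
        (1 / ((48 * d.1 ^ 3 : ℕ) : ℝ)) * 2 := by
      intro d _
      have e : ∀ L ∈ S'.filter (fun L => L.headI = d), L = d :: L.tail := fun L hL => by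
        obtain ⟨a1, a2⟩ := mem_filter.mp hL
        rw [← a2]; exact hc L a1
      have a3 := ih ((S'.filter fun L => L.headI = d).image List.tail) fun L' hL' => by
        obtain ⟨L, hL, rfl⟩ := mem_image.mp hL'
        have := hS L (mem_filter.mp (mem_filter.mp hL).1).1
        exact ⟨by rw [List.length_tail]; omega, fun d' hd' => this.2 d' (List.mem_of_mem_tail hd')⟩
      rw [sum_image fun L hL L' hL' h => by rw [e L hL, e L' hL', h]] at a3
      refine le_trans (le_of_eq ?_) (mul_le_mul_of_nonneg_left a3 (by positivity))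
      rw [mul_sum]
      refine sum_congr rfl fun L hL => ?_
      conv_lhs => rw [e L hL]
      simp only [cst, List.map_cons, List.prod_cons]
      rw [Nat.cast_mul, one_div_mul_one_div]
    rw [← sum_fiberwise_of_maps_to (s := S') (g := List.headI) fun L hL => mem_image_of_mem _ hL]
    have h3 := sum_le_sum h2
    rw [← sum_mul] at h3
    have h4 := kraft_one (S'.image List.headI) fun d hd => by
      obtain ⟨L, hL, rfl⟩ := mem_image.mp hd
      refine (hS L (mem_filter.mp hL).1).2 _ ?_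
      have := List.mem_cons_self (a := L.headI) (l := L.tail)
      rwa [← hc L hL] at this
    linarith

/-- Pairs of points that no small frequency relates. -/
def Good (β : ℕ × ℕ → UnitAddCircle) (M : ℤ) (p z : ℕ × ℕ) : Prop :=
  ∀ ξ : ℤ, ξ ≠ 0 → |ξ| ≤ M → ¬ Rel (1 / 5) (fun P => ξ • β P) p z

/-- The costs of the good codes of the frequency `l` that start in a box. -/
def Costs (β : ℕ × ℕ → UnitAddCircle) (M : ℤ) (H : ℕ) (box : Finset (ℕ × ℕ)) (l : ℤ) : Set ℕ :=
  {n | ∃ p ∈ box, ∃ L z, Code (fun P => l • β P) p L z ∧ Good β M p z ∧ p.2 + H ≤ z.2 ∧ n = cst L}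

/-- The largest weight of a good code. -/
noncomputable def Om (β : ℕ × ℕ → UnitAddCircle) (M : ℤ) (H : ℕ) (box : Finset (ℕ × ℕ)) (l : ℤ) :
    ℝ := 1 / ((sInf (Costs β M H box l) : ℕ) : ℝ)

section

variable {β : ℕ × ℕ → UnitAddCircle} {M : ℤ} {H : ℕ} {box : Finset (ℕ × ℕ)}

theorem Om_nonneg (l : ℤ) : 0 ≤ Om β M H box l := by unfold Om; positivity

theorem lt_of_mem_Costs {l : ℤ} {n : ℕ} (h : n ∈ Costs β M H box l) : H < n := by
  obtain ⟨p, -, L, z, h1, -, h2, rfl⟩ := h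
  have := (code_height L p z h1).2.2
  omega

theorem Om_le (hH : 0 < H) (l : ℤ) : Om β M H box l ≤ 1 / H := by
  unfold Om
  rcases (Costs β M H box l).eq_empty_or_nonempty with h | h
  · rw [h]; simp
  · exact one_div_le_one_div_of_le (by exact_mod_cast hH)
      (by exact_mod_cast (lt_of_mem_Costs (Nat.sInf_mem h)).le)

theorem sum_Om (hβ : ∀ l : ℤ, Sys fun P => l • β P) (Λ : Finset ℤ) (hΛ : ∀ l ∈ Λ, 2 * |l| ≤ M) :
    ∑ l ∈ Λ, Om β M H box l ≤ 2 * box.card := by
  classical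
  have hex : ∀ l : ℤ, ∃ (p : ℕ × ℕ) (L : List Dat) (z : ℕ × ℕ), (Costs β M H box l).Nonempty →
      p ∈ box ∧ Code (fun P => l • β P) p L z ∧ Good β M p z ∧ sInf (Costs β M H box l) = cst L := by
    intro l
    by_cases h : (Costs β M H box l).Nonempty
    · obtain ⟨p, h1, L, z, h2, h3, -, h4⟩ := Nat.sInf_mem h
      exact ⟨p, L, z, fun _ => ⟨h1, h2, h3, h4⟩⟩
    · exact ⟨0, [], 0, fun h' => absurd h' h⟩
  choose p L z hp using hex
  set Λ' := Λ.filter fun l => (Costs β M H box l).Nonempty with hΛ'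
  have h1 : ∑ l ∈ Λ, Om β M H box l = ∑ l ∈ Λ', Om β M H box l := by
    refine (sum_subset (filter_subset _ _) fun l hl hl' => ?_).symm
    have : Costs β M H box l = ∅ := Set.not_nonempty_iff_eq_empty.mp fun h =>
      hl' (mem_filter.mpr ⟨hl, h⟩)
    simp [Om, this]
  rw [h1, ← sum_fiberwise_of_maps_to (g := p) (t := box) fun l hl => (hp l (mem_filter.mp hl).2).1]
  refine (sum_le_card_nsmul _ _ 2 fun p0 _ => ?_).trans_eq (by rw [nsmul_eq_mul, mul_comm])
  have h2 := kraft (((Λ'.filter fun l => p l = p0).image L).sup List.length)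
    ((Λ'.filter fun l => p l = p0).image L) fun L' hL' => ⟨le_sup hL', by
      obtain ⟨l, hl, rfl⟩ := mem_image.mp hL'
      exact (code_height _ _ _ (hp l (mem_filter.mp (mem_filter.mp hl).1).2).2.1).1⟩
  rw [sum_image fun l hl l' hl' h => ?_] at h2
  · refine le_trans (le_of_eq (sum_congr rfl fun l hl => ?_)) h2
    rw [Om, (hp l (mem_filter.mp (mem_filter.mp hl).1).2).2.2.2]
  · obtain ⟨a1, a2⟩ := mem_filter.mp hl
    obtain ⟨b1, b2⟩ := mem_filter.mp hl'
    obtain ⟨a3, a4⟩ := mem_filter.mp a1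
    obtain ⟨b3, b4⟩ := mem_filter.mp b1
    obtain ⟨-, c1, c2, -⟩ := hp l a4
    obtain ⟨-, d1, -, -⟩ := hp l' b4
    rw [b2, ← a2, ← h] at d1
    by_contra hne
    refine c2 (l - l') (sub_ne_zero.mpr hne) ?_
      (code_rel (hβ l) (hβ l') (hβ (l - l')) (fun P => sub_smul _ _ _) _ _ _ _ c1 d1).2
    have := hΛ l a3
    have := hΛ l' b3
    have := abs_sub l l'
    omega

end

/-- The length of the part of the code between two times. -/
noncomputable def Lc (θ : ℕ × ℕ → UnitAddCircle) (X : ℕ → ℕ) (T a b : ℕ) : ℝ :=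
  ∑ s ∈ (St θ X T).filter (fun s => a ≤ s ∧ s < b),
    Real.log (48 * ((nxt θ X T s - s : ℕ) : ℝ) ^ 3)

section

variable {θ : ℕ × ℕ → UnitAddCircle} {X : ℕ → ℕ} {T : ℕ}

theorem log_cost_nonneg (s : ℕ) : 0 ≤ Real.log (48 * ((nxt θ X T s - s : ℕ) : ℝ) ^ 3) := by
  have := lt_nxt (θ := θ) (X := X) (T := T) s
  have h1 : (1 : ℝ) ≤ ((nxt θ X T s - s : ℕ) : ℝ) := by exact_mod_cast (by omega)
  have := one_le_pow₀ (n := 3) h1
  exact Real.log_nonneg (by linarith)

theorem Lc_add {a b c : ℕ} (hab : a ≤ b) (hbc : b ≤ c) :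
    Lc θ X T a c = Lc θ X T a b + Lc θ X T b c := by
  unfold Lc
  rw [← sum_filter_add_sum_filter_not _ fun s => s < b, filter_filter, filter_filter]
  congr 1 <;> exact sum_congr (filter_congr fun s _ => by omega) fun _ _ => rfl

theorem Lc_nonneg (a b : ℕ) : 0 ≤ Lc θ X T a b := sum_nonneg fun s _ => log_cost_nonneg s

theorem Lc_total : Lc θ X T 0 T = len θ X T := by
  unfold Lc len
  rw [filter_true_of_mem fun s hs => ⟨Nat.zero_le _, St_lt hs⟩]

theorem exists_code (hX : IsPath X) {b : ℕ} (hb : b ∈ St θ X T) (n : ℕ) : ∀ a ∈ St θ X T, a < b →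
    b - a ≤ n → ∃ L, Code θ (X a, a) L (X (b - 1), b - 1) ∧ Real.log (cst L) = Lc θ X T a b := by
  induction n with
  | zero => intro a _ h1 h2; omega
  | succ n ih =>
    intro a ha h1 h2
    obtain ⟨c, c1, c2⟩ := exists_cell (θ (X a, a))
    have a1 := lt_nxt (θ := θ) (X := X) (T := T) a
    have a2 := nxt_le_of_lt ha hb h1
    obtain ⟨e, he⟩ : ∃ e, nxt θ X T a = e + 1 := ⟨nxt θ X T a - 1, by omega⟩
    have m1 := hX.mono (show a ≤ e by omega)
    have m2 := hX.lip (show a ≤ e by omega)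
    have m3 := hX e
    let d : Dat := (e + 1 - a, X e - X a, X (e + 1) - X e, c)
    have d1 : OkD d := ⟨by simp only [d]; omega, by simp only [d]; omega, c1⟩
    have d2 : lst (X a, a) d = (X e, e) := by ext <;> simp only [lst, d] <;> omega
    have d3 : adv (X a, a) d = (X (e + 1), e + 1) := by ext <;> simp only [adv, d] <;> omega
    have d4 : 2 ≤ d.1 → Rel (1 / 10) θ (X a, a) (lst (X a, a) d) := fun h => by
      have := (nxt_spec (St_lt ha) (black_of_long (θ := θ) (X := X) (T := T)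
        (by simp only [d] at h; omega))).2.2.1
      rwa [he, Nat.add_sub_cancel, ← d2] at this
    have d5 : Lc θ X T a (e + 1) = Real.log ((48 * d.1 ^ 3 : ℕ) : ℝ) := by
      unfold Lc
      have : (St θ X T).filter (fun s => a ≤ s ∧ s < e + 1) = {a} := by
        ext s
        simp only [mem_filter, mem_singleton]
        refine ⟨fun h => ?_, fun h => by rw [h]; exact ⟨ha, le_rfl, by omega⟩⟩
        by_contra hne
        have := nxt_le_of_lt ha h.1 (by omega)
        omega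
      rw [this, sum_singleton, he]
      push_cast [d]
      rfl
    rcases a2.eq_or_lt with h | h
    · refine ⟨[d], ⟨d1, c2, d4, Or.inl ⟨rfl, ?_⟩⟩, ?_⟩
      · rw [d2, ← h, he, Nat.add_sub_cancel]
      · rw [← h, he, d5]; simp [cst]
    · have := St_lt hb
      obtain ⟨L, l1, l2⟩ := ih _ (nxt_mem_St ha (by omega)) h (by omega)
      rw [he] at l1 l2
      refine ⟨d :: L, ⟨d1, c2, d4, Or.inr (d3 ▸ l1)⟩, ?_⟩
      have e1 : cst (d :: L) = 48 * d.1 ^ 3 * cst L := by simp [cst]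
      have e2 := (code_height _ _ _ l1).2
      have e3 : 0 < cst L := by simp only at e2; omega
      have e4 : 0 < 48 * d.1 ^ 3 := by have := d1.1; have : 0 < d.1 := by omega
                                       positivity
      rw [Lc_add (b := e + 1) (by omega) (by omega), d5, ← l2, e1, Nat.cast_mul,
        Real.log_mul (by exact_mod_cast e4.ne') (by exact_mod_cast e3.ne')]

end

theorem groups {β : ℕ × ℕ → UnitAddCircle} {M l : ℤ} {H T y0 y1 r : ℕ} {X : ℕ → ℕ}
    {box : Finset (ℕ × ℕ)} (hX : IsPath X) (hl0 : l ≠ 0) (hl : |l| ≤ M) (hH : 0 < H) (hr : 0 < r)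
    (R : ℕ → ℕ) (hR : ∀ j, j < 2 * r → R j + H ≤ R (j + 1)) (hR1 : R (2 * r) < y1) (hy : y1 ≤ T)
    (hm : ∀ s ∈ St (fun P => l • β P) X T, ∀ j, j ≤ 2 * r → s ≤ R j →
      R j < nxt (fun P => l • β P) X T s → y0 ≤ s)
    (hg : ∀ j, j ≤ 2 * r → ∀ σ z, y0 ≤ σ → σ + H ≤ R j → R j ≤ z → z < T →
      Good β M (X σ, σ) (X z, z))
    (hbox : ∀ s, y0 ≤ s → s < y1 → (X s, s) ∈ box) :
    0 < Om β M H box l ∧ -(r * Real.log (Om β M H box l)) ≤ Lc (fun P => l • β P) X T y0 y1 := by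
  set θ : ℕ × ℕ → UnitAddCircle := fun P => l • β P with hθ
  have hmono : ∀ i j, i ≤ j → j ≤ 2 * r → R i ≤ R j := by
    intro i j hij
    induction j, hij using Nat.le_induction with
    | base => intro _; exact le_rfl
    | succ j _ ih => intro h; have := hR j (by omega); have := ih (by omega); omega
  have hex : ∀ j, ∃ s, j ≤ 2 * r → s ∈ St θ X T ∧ s ≤ R j ∧ R j < s + H ∧ y0 ≤ s := by
    intro j
    by_cases hj : j ≤ 2 * r
    · have := hmono j _ hj le_rfl
      obtain ⟨s, h1, h2, h3⟩ := exists_piece (θ := θ) (X := X) (by omega : R j < T)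
      refine ⟨s, fun _ => ⟨h1, h2, ?_, hm s h1 j hj h2 h3⟩⟩
      by_contra hc
      obtain ⟨-, a1, a2, -⟩ := nxt_spec (St_lt h1) (black_of_long (θ := θ) (X := X) (T := T)
        (by omega))
      exact hg j hj s (nxt θ X T s - 1) (hm s h1 j hj h2 h3) (by omega) (by omega) (by omega) l hl0
        hl (a2.mono (by norm_num))
    · exact ⟨0, fun h => absurd h hj⟩
  choose b hb using hex
  have hstep : ∀ i, i < r → b (2 * i) ≤ b (2 * (i + 1)) ∧ 0 < Om β M H box l ∧
      -Real.log (Om β M H box l) ≤ Lc θ X T (b (2 * i)) (b (2 * (i + 1))) := by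
    intro i hi
    obtain ⟨a1, a2, a3, a4⟩ := hb (2 * i) (by omega)
    obtain ⟨b1, b2, b3, b4⟩ := hb (2 * (i + 1)) (by omega)
    have c1 := hR (2 * i) (by omega)
    have c2 := hR (2 * i + 1) (by omega)
    have c3 := hmono (2 * (i + 1)) _ (by omega : 2 * (i + 1) ≤ 2 * r) le_rfl
    rw [show 2 * i + 1 + 1 = 2 * (i + 1) by ring] at c2
    obtain ⟨L, l1, l2⟩ := exists_code hX b1 _ _ a1 (by omega) le_rfl
    have l3 : cst L ∈ Costs β M H box l := ⟨_, hbox _ a4 (by omega), L, _, l1,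
      hg (2 * i + 1) (by omega) _ _ a4 (by omega) (by omega) (by omega), by simp only; omega, rfl⟩
    have l4 := lt_of_mem_Costs (Nat.sInf_mem ⟨_, l3⟩)
    have l5 : (0 : ℝ) < ((sInf (Costs β M H box l) : ℕ) : ℝ) := by exact_mod_cast (by omega)
    refine ⟨by omega, one_div_pos.mpr l5, ?_⟩
    rw [← l2, Om, one_div, Real.log_inv, neg_neg]
    exact Real.log_le_log l5 (by exact_mod_cast Nat.sInf_le l3)
  have hind : ∀ i, i ≤ r → -(i * Real.log (Om β M H box l)) ≤ Lc θ X T y0 (b (2 * i)) := by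
    intro i
    induction i with
    | zero => intro _; simpa using Lc_nonneg _ _
    | succ i ih =>
      intro h
      obtain ⟨a1, -, a2⟩ := hstep i (by omega)
      rw [Lc_add (hb (2 * i) (by omega)).2.2.2 a1]
      have := ih (by omega)
      push_cast
      linarith
  obtain ⟨-, a2, -, a4⟩ := hb (2 * r) le_rfl
  refine ⟨(hstep 0 hr).2.1, (hind r le_rfl).trans ?_⟩
  rw [Lc_add a4 (by omega : b (2 * r) ≤ y1)]
  linarith [Lc_nonneg (θ := θ) (X := X) (T := T) (b (2 * r)) y1]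

end Pool.Agent.Lib.MP_a9e7ee_nt
end

-- part Pool.Agent.Lib.MP_a9e7ee_nt.Kernel
section

/-!
The renewal lemma and the lucky pieces that are long or not steep.
-/

namespace Pool.Agent.Lib.MP_a9e7ee_nt

open Finset

section

variable {θ : ℕ × ℕ → UnitAddCircle} {ρ : ℝ}

open Classical in
theorem Wc_succ (X : ℕ → ℕ) {u T : ℕ} (h : u < T) :
    Wc θ X u T = (if White θ (X u, u) then 1 else 0) + Wc θ X (u + 1) T := by
  unfold Wc
  rw [← insert_Ico_add_one_left_eq_Ico h, filter_insert]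
  split_ifs with h1
  · rw [card_insert_of_notMem (by simp), add_comm]
  · simp

theorem Wc_mono (X : ℕ → ℕ) {a b a' b' : ℕ} (ha : a' ≤ a) (hb : b ≤ b') :
    Wc θ X a b ≤ Wc θ X a' b' := by
  classical
  unfold Wc
  exact card_le_card (filter_subset_filter _ (Ico_subset_Ico ha hb))

theorem Wc_add (X : ℕ → ℕ) {a b c : ℕ} (hab : a ≤ b) (hbc : b ≤ c) :
    Wc θ X a c = Wc θ X a b + Wc θ X b c := by
  classical
  unfold Wc
  rw [← Ico_union_Ico_eq_Ico hab hbc, filter_union,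
    card_union_of_disjoint (disjoint_filter_filter (Ico_disjoint_Ico_consecutive a b c))]

theorem Wc_congr {X X' : ℕ → ℕ} {a b : ℕ} (h : ∀ u, u < b → X' u = X u) :
    Wc θ X' a b = Wc θ X a b := by
  classical
  unfold Wc
  congr 1
  exact filter_congr fun u hu => by rw [h u (mem_Ico.mp hu).2]

theorem E_later (h0 : 0 ≤ ρ) (h1 : ρ ≤ 1) {t u T : ℕ} (htu : t ≤ u) (huT : u ≤ T)
    {g : (ℕ → Bool) → ℝ} (ω : ℕ → Bool) (hg : ∀ w, E ρ u (T - u) g w ≤ 1) :
    E ρ t (T - t) g ω ≤ 1 := by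
  have := E_pull h0 h1 htu huT (f := fun _ => 1) ω (fun _ => zero_le_one) (fun _ _ _ => rfl) hg
  simpa [E_const] using this

/-- The renewal lemma. -/
theorem renewal (h0 : 0 ≤ ρ) (h1 : ρ ≤ 1) (T : ℕ) {s : ℝ} (hs : 0 ≤ s)
    (ζ : ℕ → ℕ → ℕ → ℕ → ℝ) (hζ0 : ∀ t x e y, 0 ≤ ζ t x e y)
    (hζ : ∀ t, t < T → ∀ ω,
      ∑ e ∈ Ioo t T, E ρ t (T - t) (fun w => ζ t (pos ω t) e (pos w e)) ω ≤ s)
    (A : (ℕ → Bool) → Finset ℕ) (en : (ℕ → Bool) → ℕ → ℕ)
    (hA : ∀ w, ∀ t ∈ A w, White θ (pos w t, t) ∧ t < en w t ∧ en w t < T ∧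
      ∀ t' ∈ A w, t < t' → en w t < t') (ω : ℕ → Bool) :
    E ρ 0 T (fun w => (∏ t ∈ A w, (1 + ζ t (pos w t) (en w t) (pos w (en w t)))) *
      Real.exp (-s * Wc θ (pos w) 0 T)) ω ≤ 1 := by
  classical
  let Pr : ℕ → (ℕ → Bool) → ℝ := fun u w =>
    ∏ t ∈ (A w).filter (u ≤ ·), (1 + ζ t (pos w t) (en w t) (pos w (en w t)))
  let Φ : ℕ → (ℕ → Bool) → ℝ := fun u w => Pr u w * Real.exp (-s * Wc θ (pos w) u T)
  have hPr : ∀ u w, 0 ≤ Pr u w := fun u w =>
    prod_nonneg fun t _ => by have := hζ0 t (pos w t) (en w t) (pos w (en w t)); linarith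
  have hΦ : ∀ u w, 0 ≤ Φ u w := fun u w => mul_nonneg (hPr u w) (Real.exp_pos _).le
  have hnot : ∀ u w, u ∉ A w → Pr u w = Pr (u + 1) w := by
    intro u w hu
    refine prod_congr (filter_congr fun t ht => ?_) fun _ _ => rfl
    have : t ≠ u := fun h => hu (h ▸ ht)
    omega
  have key : ∀ n u, u ≤ T → T - u ≤ n → ∀ ω, E ρ u (T - u) (Φ u) ω ≤ 1 := by
    intro n
    induction n with
    | zero =>
      intro u hu hn ω
      obtain rfl : u = T := by omega
      rw [Nat.sub_self, E_zero]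
      have e1 : (A ω).filter (u ≤ ·) = ∅ := filter_eq_empty_iff.mpr fun t ht => by
        have := hA ω t ht; omega
      simp [Φ, Pr, e1, Wc]
    | succ n ih =>
      intro u hu hn ω
      rcases hu.eq_or_lt with hu' | hu'
      · exact ih u hu (by omega) ω
      have i1 : E ρ u (T - u) (Φ (u + 1)) ω ≤ 1 :=
        E_later h0 h1 (by omega) hu' ω (ih (u + 1) hu' (by omega))
      by_cases hw : White θ (pos ω u, u)
      · have p1 : ∀ w, Agr u ω w → Φ u w ≤ Real.exp (-s) * (Φ (u + 1) w +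
            ∑ e ∈ Ioo u T, ζ u (pos ω u) e (pos w e) * Φ (e + 1) w) := by
          intro w hw'
          have hx : pos w u = pos ω u := pos_congr hw' le_rfl
          have e1 : Real.exp (-s * Wc θ (pos w) u T) =
              Real.exp (-s) * Real.exp (-s * Wc θ (pos w) (u + 1) T) := by
            rw [Wc_succ _ hu', hx, if_pos hw, ← Real.exp_add]; push_cast; ring_nf
          have hnn : ∀ e ∈ Ioo u T, 0 ≤ ζ u (pos ω u) e (pos w e) * Φ (e + 1) w := fun e _ =>
            mul_nonneg (hζ0 _ _ _ _) (hΦ _ _)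
          by_cases hm : u ∈ A w
          · obtain ⟨-, a2, a3, a4⟩ := hA w u hm
            have e2 : Pr u w = (1 + ζ u (pos ω u) (en w u) (pos w (en w u))) * Pr (u + 1) w := by
              have : (A w).filter (u ≤ ·) = insert u ((A w).filter (u + 1 ≤ ·)) := by
                ext t
                simp only [mem_filter, mem_insert]
                constructor
                · rintro ⟨b1, b2⟩
                  rcases b2.eq_or_lt with b3 | b3
                  · exact Or.inl b3.symm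
                  · exact Or.inr ⟨b1, b3⟩
                · rintro (rfl | ⟨b1, b2⟩)
                  · exact ⟨hm, le_rfl⟩
                  · exact ⟨b1, by omega⟩
              simp only [Pr]
              rw [this, prod_insert (by simp), hx]
            have e3 : Pr (u + 1) w = Pr (en w u + 1) w := by
              refine prod_congr (filter_congr fun t ht => ⟨fun h => ?_, fun h => by omega⟩)
                fun _ _ => rfl
              exact a4 t ht h
            have e4 : Φ (u + 1) w ≤ Φ (en w u + 1) w := by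
              simp only [Φ]
              rw [← e3]
              refine mul_le_mul_of_nonneg_left (Real.exp_le_exp.mpr ?_) (hPr _ _)
              have : (Wc θ (pos w) (en w u + 1) T : ℝ) ≤ Wc θ (pos w) (u + 1) T := by
                exact_mod_cast Wc_mono _ (by omega) le_rfl
              nlinarith
            have e5 := single_le_sum hnn (mem_Ioo.mpr ⟨a2, a3⟩)
            have e6 := mul_le_mul_of_nonneg_left e4
              (hζ0 u (pos ω u) (en w u) (pos w (en w u)))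
            calc Φ u w = Real.exp (-s) * (Φ (u + 1) w +
                  ζ u (pos ω u) (en w u) (pos w (en w u)) * Φ (u + 1) w) := by
                  simp only [Φ]; rw [e1, e2]; ring
              _ ≤ _ := mul_le_mul_of_nonneg_left (by linarith) (Real.exp_pos _).le
          · calc Φ u w = Real.exp (-s) * Φ (u + 1) w := by
                  simp only [Φ]; rw [e1, hnot u w hm]; ring
              _ ≤ _ := mul_le_mul_of_nonneg_left (by linarith [sum_nonneg hnn])
                  (Real.exp_pos _).le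
        refine (E_mono h0 h1 p1).trans ?_
        rw [E_mul, E_add, E_sum]
        have i2 : ∑ e ∈ Ioo u T, E ρ u (T - u)
            (fun w => ζ u (pos ω u) e (pos w e) * Φ (e + 1) w) ω ≤ s := by
          refine le_trans (sum_le_sum fun e he => ?_) (hζ u hu' ω)
          rw [mem_Ioo] at he
          exact E_pull h0 h1 (u := e + 1) (by omega) (by omega) ω (fun _ => hζ0 _ _ _ _)
            (fun w w' h => by rw [pos_congr h (by omega)]) (ih (e + 1) (by omega) (by omega))
        calc _ ≤ Real.exp (-s) * Real.exp s :=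
              mul_le_mul_of_nonneg_left (by linarith [Real.add_one_le_exp s]) (Real.exp_pos _).le
          _ = 1 := by rw [← Real.exp_add]; simp
      · refine le_trans (le_of_eq (E_congr fun w hw' => ?_)) i1
        have hx : pos w u = pos ω u := pos_congr hw' le_rfl
        simp only [Φ]
        rw [Wc_succ _ hu', hx, if_neg hw, zero_add,
          hnot u w fun hm => hw (hx ▸ (hA w u hm).1)]
  have := key T 0 (Nat.zero_le _) (by omega) ω
  simpa [Φ, Pr] using this

theorem tail_small {g : ℕ} (hg : 16 ≤ g) :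
    (g : ℝ) ^ 10 * Real.exp (4 * (g : ℝ) ^ 5) ≤ 2 ^ (g ^ 7) := by
  have h1 : Real.exp (4 * (g : ℝ) ^ 5) ≤ 2 ^ (8 * g ^ 5) := by
    have : (4 * (g : ℝ) ^ 5) = ((4 * g ^ 5 : ℕ) : ℝ) * 1 := by push_cast; ring
    rw [this, Real.exp_nat_mul, show 8 * g ^ 5 = 2 * (4 * g ^ 5) by ring,
      pow_mul (2 : ℝ) 2]
    exact pow_le_pow_left₀ (Real.exp_pos _).le (by linarith [Real.exp_one_lt_d9]) _
  have h2 : (g : ℝ) ^ 10 ≤ 2 ^ (10 * g) := by
    rw [mul_comm, pow_mul]
    gcongr
    exact_mod_cast Nat.lt_two_pow_self.le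
  have h3 : 10 * g + 8 * g ^ 5 ≤ g ^ 7 := by
    have a1 : g ≤ g ^ 5 := Nat.le_self_pow (by norm_num) g
    have a2 : 16 * 16 ≤ g * g := Nat.mul_le_mul hg hg
    calc 10 * g + 8 * g ^ 5 ≤ (16 * 16) * g ^ 5 := by omega
      _ ≤ (g * g) * g ^ 5 := Nat.mul_le_mul_right _ a2
      _ = g ^ 7 := by ring
  calc _ ≤ (2 : ℝ) ^ (10 * g) * 2 ^ (8 * g ^ 5) := by gcongr
    _ = 2 ^ (10 * g + 8 * g ^ 5) := by rw [pow_add]
    _ ≤ _ := pow_le_pow_right₀ one_le_two h3

theorem K0_le_g0 {B : ℕ} (hB : 16 ≤ B) : K0 ≤ g0 B := by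
  unfold K0 g0; exact Nat.pow_le_pow_right S0_pos (by omega)

theorem g0_ge (B : ℕ) : 64 ^ B ≤ g0 B := by
  unfold g0
  rw [pow_mul]
  refine Nat.pow_le_pow_left ?_ _
  have := S0_ge
  nlinarith

theorem g0_pos (B : ℕ) : 0 < g0 B := lt_of_lt_of_le (by positivity) (g0_ge B)

open Classical in
/-- The kernel. -/
noncomputable def ker (θ : ℕ × ℕ → UnitAddCircle) (ρ a : ℝ) (t x e y : ℕ) : ℝ :=
  if 16 ≤ Nat.log K0 (e - t) ∧ (if 1 < ρ * (g0 (Nat.log K0 (e - t)) : ℝ) ^ 4 then
    Lucky θ (Nat.log K0 (e - t)) (y, e) else x + g0 (Nat.log K0 (e - t)) ^ 7 ≤ y) then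
    Real.exp (a * Nat.log K0 (e - t)) - 1 else 0

theorem ker_nonneg {a : ℝ} (ha : 0 ≤ a) (t x e y : ℕ) : 0 ≤ ker θ ρ a t x e y := by
  have := Real.add_one_le_exp (a * Nat.log K0 (e - t))
  have : 0 ≤ a * Nat.log K0 (e - t) := by positivity
  unfold ker
  classical
  exact ite_nonneg (by linarith) le_rfl

open Classical in
theorem hit_lucky (hs : Sys θ) {q : ℝ} (hq : 0 < q) (h0 : 0 < ρ) (h1 : ρ ≤ 1 - q) {t T B : ℕ}
    (hB : 1 < ρ * (g0 B : ℝ) ^ 4) (ω : ℕ → Bool) :
    ∑ e ∈ (Ioo t T).filter (fun e => Nat.log K0 (e - t) = B),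
      E ρ t (T - t) (fun w => if Lucky θ B (pos w e, e) then 1 else 0) ω ≤
      (K0 + 1) ^ 2 / (g0 B * Real.sqrt q) := by
  set x := pos ω t
  set I := (Ioo t T).filter (fun e => Nat.log K0 (e - t) = B) with hI
  have hK : 1 < K0 := by have := K0_ge; omega
  have hg : (0 : ℝ) < g0 B := by exact_mod_cast g0_pos B
  have hsq : 0 < Real.sqrt q := Real.sqrt_pos.mpr hq
  have hI1 : ∀ e ∈ I, t < e ∧ e < T ∧ K0 ^ B ≤ e - t ∧ e - t < K0 ^ (B + 1) := by
    intro e he
    obtain ⟨a1, a2⟩ := mem_filter.mp he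
    rw [mem_Ioo] at a1
    rw [← a2]
    exact ⟨a1.1, a1.2, Nat.pow_log_le_self _ (by omega), Nat.lt_pow_succ_log_self hK _⟩
  let F := (Icc x (x + K0 * K0 ^ B) ×ˢ I).filter fun P => Lucky θ B P
  have hF : F.card ≤ (K0 + 1) * (K0 + 1) * g0 B := by
    refine card_lucky_rect hs B x (t / K0 ^ B) K0 K0 F fun P hP => ?_
    obtain ⟨a1, a2⟩ := mem_filter.mp hP
    obtain ⟨a3, a4⟩ := mem_product.mp a1
    rw [mem_Icc] at a3
    obtain ⟨b1, -, -, b4⟩ := hI1 _ a4
    rw [pow_succ'] at b4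
    exact ⟨a3.1, a3.2, Nat.div_le_div_right b1.le, div_close (by positivity) (by omega), a2⟩
  have h2 : ∀ P ∈ F, E ρ t (T - t) (fun w => if pos w P.2 = P.1 then 1 else 0) ω ≤
      1 / (g0 B ^ 2 * Real.sqrt q) := by
    intro P hP
    obtain ⟨b1, b2, b3, -⟩ := hI1 _ (mem_product.mp (mem_filter.mp hP).1).2
    refine (E_hit h0 (by linarith) b1 (by omega) P.1 ω).trans ?_
    refine one_div_le_one_div_of_le (by positivity) (Real.le_sqrt_of_sq_le ?_)
    rw [K0_pow] at b3
    have b4 : (g0 B : ℝ) ^ 8 ≤ ((P.2 - t : ℕ) : ℝ) := by exact_mod_cast b3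
    rw [mul_pow, Real.sq_sqrt hq.le]
    refine mul_le_mul ?_ (by linarith) hq.le (by positivity)
    calc ((g0 B : ℝ) ^ 2) ^ 2 = g0 B ^ 4 * 1 := by ring
      _ ≤ g0 B ^ 4 * (ρ * g0 B ^ 4) := by gcongr
      _ = g0 B ^ 8 * ρ := by ring
      _ ≤ _ := by gcongr
  rw [← E_sum]
  calc _ ≤ E ρ t (T - t) (fun w => ∑ P ∈ F, if pos w P.2 = P.1 then 1 else 0) ω := by
        refine E_mono h0.le (by linarith) fun w hw => ?_
        rw [← sum_filter, ← sum_filter]
        simp only [sum_const, nsmul_eq_mul, mul_one, Nat.cast_le]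
        refine card_le_card_of_injOn (fun e => (pos w e, e)) (fun e he => ?_)
          fun e _ e' _ h => (Prod.ext_iff.mp h).2
        obtain ⟨a1, a2⟩ := mem_filter.mp he
        obtain ⟨b1, -, -, b4⟩ := hI1 _ a1
        have c1 := (pos_isPath w).mono b1.le
        have c2 := (pos_isPath w).lip b1.le
        rw [pos_congr hw le_rfl] at c1 c2
        rw [pow_succ'] at b4
        simp only [F, coe_filter, mem_filter, mem_product, mem_Icc, Set.mem_ofPred_eq]
        exact ⟨⟨⟨⟨c1, by omega⟩, a1⟩, a2⟩, trivial⟩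
    _ ≤ F.card * (1 / (g0 B ^ 2 * Real.sqrt q)) := by
        rw [E_sum, ← nsmul_eq_mul]
        exact sum_le_card_nsmul _ _ _ h2
    _ ≤ ((K0 + 1) * (K0 + 1) * g0 B : ℕ) * (1 / (g0 B ^ 2 * Real.sqrt q)) := by gcongr
    _ = _ := by push_cast; field_simp

theorem hit_far (h0 : 0 < ρ) (h1 : ρ ≤ 1) {t T B : ℕ} (hB0 : 16 ≤ B)
    (hB : ρ * (g0 B : ℝ) ^ 4 ≤ 1) (ω : ℕ → Bool) :
    ∑ e ∈ (Ioo t T).filter (fun e => Nat.log K0 (e - t) = B),
      E ρ t (T - t) (fun w => if pos ω t + g0 B ^ 7 ≤ pos w e then 1 else 0) ω ≤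
      1 / (g0 B : ℝ) := by
  set I := (Ioo t T).filter (fun e => Nat.log K0 (e - t) = B) with hI
  have hK : 1 < K0 := by have := K0_ge; omega
  have hg : (0 : ℝ) < g0 B := by exact_mod_cast g0_pos B
  have hKg := K0_le_g0 hB0
  have hI1 : ∀ e ∈ I, t < e ∧ e < T ∧ e - t ≤ g0 B ^ 9 := by
    intro e he
    obtain ⟨a1, a2⟩ := mem_filter.mp he
    rw [mem_Ioo] at a1
    have := Nat.lt_pow_succ_log_self hK (e - t)
    rw [a2, pow_succ, K0_pow] at this
    exact ⟨a1.1, a1.2, this.le.trans (by rw [pow_succ _ 8]; exact Nat.mul_le_mul_left _ hKg)⟩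
  have hc : I.card ≤ g0 B ^ 9 := by
    have : I ⊆ Ioc t (t + g0 B ^ 9) := fun e he => by
      have := hI1 e he; rw [mem_Ioc]; omega
    simpa using card_le_card this
  have h2 : ∀ e ∈ I, E ρ t (T - t) (fun w => if pos ω t + g0 B ^ 7 ≤ pos w e then 1 else 0) ω ≤
      Real.exp (4 * (g0 B : ℝ) ^ 5) / 2 ^ (g0 B ^ 7) := by
    intro e he
    obtain ⟨b1, b2, b3⟩ := hI1 e he
    refine (E_tail h0.le h1 b1.le (by omega) _ ω).trans ?_
    have b4 : ((e - t : ℕ) : ℝ) ≤ (g0 B : ℝ) ^ 9 := by exact_mod_cast b3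
    refine div_le_div_of_nonneg_right (Real.exp_le_exp.mpr ?_) (by positivity)
    calc ρ * ((e - t : ℕ) : ℝ) ≤ ρ * (g0 B : ℝ) ^ 9 := by gcongr
      _ = (ρ * g0 B ^ 4) * g0 B ^ 5 := by ring
      _ ≤ 4 * g0 B ^ 5 := by gcongr; linarith
  refine (sum_le_card_nsmul _ _ _ h2).trans ?_
  have h3 := tail_small (K0_ge.trans hKg)
  have h4 : (I.card : ℝ) ≤ (g0 B : ℝ) ^ 9 := by exact_mod_cast hc
  rw [nsmul_eq_mul, ← mul_div_assoc, div_le_div_iff₀ (by positivity) hg]
  calc _ ≤ (g0 B : ℝ) ^ 9 * Real.exp (4 * (g0 B : ℝ) ^ 5) * g0 B := by gcongr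
    _ = _ := by ring
    _ ≤ _ := h3
    _ = _ := (one_mul _).symm

theorem exp_cls_le {a : ℝ} (h0 : 0 ≤ a) (h1 : a ≤ 1) (B : ℕ) :
    (Real.exp (a * B) - 1) / g0 B ≤ a * (1 / 2) ^ B := by
  have hg : (0 : ℝ) < g0 B := by exact_mod_cast g0_pos B
  have h2 : Real.exp (a * B) - 1 ≤ a * B * Real.exp (a * B) := by
    have := Real.add_one_le_exp (-(a * B))
    have h3 := mul_le_mul_of_nonneg_right this (Real.exp_pos (a * B)).le
    rw [← Real.exp_add, neg_add_cancel, Real.exp_zero] at h3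
    linarith
  have h3 : Real.exp (a * B) ≤ 4 ^ B := by
    rw [mul_comm, Real.exp_nat_mul]
    gcongr
    linarith [Real.exp_one_lt_d9, Real.exp_le_exp.mpr h1]
  have h4 : (B : ℝ) ≤ 2 ^ B := by exact_mod_cast Nat.lt_two_pow_self.le
  have h5 : (64 : ℝ) ^ B ≤ g0 B := by exact_mod_cast g0_ge B
  rw [div_le_iff₀ hg]
  calc _ ≤ a * B * Real.exp (a * B) := h2
    _ ≤ a * 2 ^ B * 4 ^ B := by gcongr
    _ = a * 8 ^ B := by rw [mul_assoc, ← mul_pow]; norm_num
    _ ≤ a * 32 ^ B := by gcongr; norm_num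
    _ = a * (1 / 2) ^ B * 64 ^ B := by rw [mul_assoc, ← mul_pow]; norm_num
    _ ≤ _ := by gcongr

theorem ker_sum (hs : Sys θ) {q a : ℝ} (hq : 0 < q) (h0 : 0 < ρ) (h1 : ρ ≤ 1 - q) (ha : 0 ≤ a)
    (ha1 : a ≤ 1) (t T : ℕ) (ω : ℕ → Bool) :
    ∑ e ∈ Ioo t T, E ρ t (T - t) (fun w => ker θ ρ a t (pos ω t) e (pos w e)) ω ≤
      2 * a * ((K0 + 1) ^ 2 / Real.sqrt q) := by
  classical
  have hsq : 0 < Real.sqrt q := Real.sqrt_pos.mpr hq
  have hsq1 : Real.sqrt q ≤ 1 := Real.sqrt_le_one.mpr (by linarith)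
  set M : ℝ := (K0 + 1) ^ 2 / Real.sqrt q with hM
  have hM1 : 1 ≤ M := by
    rw [hM, le_div_iff₀ hsq]
    have : (0 : ℝ) ≤ K0 := by positivity
    nlinarith
  rw [← sum_fiberwise_of_maps_to (g := fun e => Nat.log K0 (e - t)) (t := range T) fun e he => by
    have := Nat.log_le_self K0 (e - t)
    rw [mem_Ioo] at he
    exact mem_range.mpr (by omega)]
  have h2 : ∀ B ∈ range T, ∑ e ∈ (Ioo t T).filter (fun e => Nat.log K0 (e - t) = B),
      E ρ t (T - t) (fun w => ker θ ρ a t (pos ω t) e (pos w e)) ω ≤ M * a * (1 / 2) ^ B := by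
    intro B _
    have hg : (0 : ℝ) < g0 B := by exact_mod_cast g0_pos B
    have hc : 0 ≤ Real.exp (a * B) - 1 := by
      have := Real.add_one_le_exp (a * B)
      have : 0 ≤ a * B := by positivity
      linarith
    have fin : (Real.exp (a * B) - 1) * (M / g0 B) ≤ M * a * (1 / 2) ^ B := by
      calc _ = M * ((Real.exp (a * B) - 1) / g0 B) := by ring
        _ ≤ M * (a * (1 / 2) ^ B) := mul_le_mul_of_nonneg_left (exp_cls_le ha ha1 B) (by linarith)
        _ = _ := by ring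
    by_cases hB : 16 ≤ B
    · by_cases hr : 1 < ρ * (g0 B : ℝ) ^ 4
      · refine le_trans (le_of_eq ?_) ((mul_le_mul_of_nonneg_left
          ((hit_lucky hs hq h0 h1 (t := t) (T := T) hr ω).trans_eq (by rw [hM]; ring)) hc).trans fin)
        rw [mul_sum]
        refine sum_congr rfl fun e he => ?_
        rw [← E_mul]
        refine E_congr fun w _ => ?_
        unfold ker
        rw [(mem_filter.mp he).2]
        simp [hB, hr]
      · refine le_trans (le_of_eq ?_) ((mul_le_mul_of_nonneg_left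
          ((hit_far h0 (by linarith) (t := t) (T := T) hB (not_lt.mp hr) ω).trans
            (by gcongr)) hc).trans fin)
        rw [mul_sum]
        refine sum_congr rfl fun e he => ?_
        rw [← E_mul]
        refine E_congr fun w _ => ?_
        unfold ker
        rw [(mem_filter.mp he).2]
        simp [hB, hr]
    · rw [sum_eq_zero fun e he => ?_]
      · positivity
      · rw [E_congr (g := fun _ => 0) fun w _ => ?_, E_const]
        unfold ker
        rw [(mem_filter.mp he).2, if_neg fun h => hB h.1]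
  refine (sum_le_sum h2).trans ?_
  rw [← mul_sum]
  have := sum_geometric_two_le T
  have h3 : 0 ≤ M * a := by positivity
  nlinarith

end

open Classical in
/-- The lucky pieces that are long or not steep. -/
noncomputable def LK (θ : ℕ × ℕ → UnitAddCircle) (ρ : ℝ) (X : ℕ → ℕ) (T : ℕ) : Finset ℕ :=
  (LS θ X T).filter fun s => 1 < ρ * (g0 (cls θ X T s) : ℝ) ^ 4 ∨
    X (s - 1) + g0 (cls θ X T s) ^ 7 ≤ X (nxt θ X T s - 1)

theorem LS_spec {θ : ℕ × ℕ → UnitAddCircle} {X : ℕ → ℕ} {T s : ℕ} (h : s ∈ LS θ X T) :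
    s ∈ St θ X T ∧ 0 < s ∧ nxt θ X T s < T ∧ 16 ≤ cls θ X T s ∧
      Lucky θ (cls θ X T s) (X (nxt θ X T s - 1), nxt θ X T s - 1) ∧ ¬ White θ (X s, s) := by
  classical
  obtain ⟨h1, h2, h3, h4, h5⟩ := mem_filter.mp h
  refine ⟨h1, h2, h3, h4, h5, black_of_long (T := T) ?_⟩
  have a1 := pow_cls_le (θ := θ) (X := X) (T := T) s
  have a2 : K0 ^ 1 ≤ K0 ^ cls θ X T s :=
    Nat.pow_le_pow_right (by have := K0_ge; omega) (by omega)
  have := K0_ge
  rw [pow_one] at a2
  omega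

theorem kernel_part {θ : ℕ × ℕ → UnitAddCircle} (hs : Sys θ) {ρ q κ σ : ℝ} (hq : 0 < q)
    (h0 : 0 < ρ) (h1 : ρ ≤ 1 - q) (hκ : 0 ≤ κ) (hκ1 : κ ≤ 1)
    (hσ : 2 * κ * ((K0 + 1) ^ 2 / Real.sqrt q) ≤ σ) (T : ℕ) (ω : ℕ → Bool) :
    E ρ 0 T (fun w => Real.exp (ρ * (κ * ∑ s ∈ LK θ ρ (pos w) T, (cls θ (pos w) T s : ℝ) -
      σ * Wc θ (pos w) 0 T))) ω ≤ 1 := by
  classical
  have hσ0 : 0 ≤ σ := le_trans (by positivity) hσ
  have ha : 0 ≤ ρ * κ := by positivity
  have ha1 : ρ * κ ≤ 1 := mul_le_one₀ (by linarith) hκ hκ1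
  have := renewal (θ := θ) h0.le (by linarith) T (s := ρ * σ) (by positivity) (ker θ ρ (ρ * κ))
    (ker_nonneg ha) (fun t _ ω => (ker_sum hs hq h0 h1 ha ha1 t T ω).trans (by
      have := mul_le_mul_of_nonneg_left hσ h0.le; linarith))
    (fun w => (LK θ ρ (pos w) T).image (· - 1)) (fun w t => nxt θ (pos w) T (t + 1) - 1) (by
      intro w t ht
      obtain ⟨s, hs1, rfl⟩ := mem_image.mp ht
      obtain ⟨a1, a2, a3, -, -, a6⟩ := LS_spec (mem_filter.mp hs1).1
      have := lt_nxt (θ := θ) (X := pos w) (T := T) s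
      rw [show s - 1 + 1 = s by omega]
      refine ⟨white_prev hs (pos_isPath w) a1 a2 a6, by omega, by omega, fun t' ht' hl => ?_⟩
      obtain ⟨s', hs2, rfl⟩ := mem_image.mp ht'
      obtain ⟨b1, b2, -, -, -, b6⟩ := LS_spec (mem_filter.mp hs2).1
      have c1 := nxt_le_of_lt a1 b1 (by omega)
      have c2 := white_nxt hs (pos_isPath w) a6 a3
      have : nxt θ (pos w) T s ≠ s' := fun h => b6 (h ▸ c2)
      omega) ω
  refine le_trans (le_of_eq (E_congr fun w _ => ?_)) this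
  rw [prod_image fun s hs1 s' hs2 h => by
    have := (LS_spec (mem_filter.mp hs1).1).2.1
    have := (LS_spec (mem_filter.mp hs2).1).2.1
    omega]
  rw [mul_sub, sub_eq_add_neg, Real.exp_add, ← mul_assoc, mul_sum, Real.exp_sum]
  congr 1
  · refine prod_congr rfl fun s hs1 => ?_
    obtain ⟨b1, b2⟩ := mem_filter.mp hs1
    obtain ⟨a1, a2, a3, a4, a5, a6⟩ := LS_spec b1
    have := lt_nxt (θ := θ) (X := pos w) (T := T) s
    unfold ker
    rw [show s - 1 + 1 = s by omega, show nxt θ (pos w) T s - 1 - (s - 1) =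
      nxt θ (pos w) T s - s by omega]
    change _ = 1 + if 16 ≤ cls θ (pos w) T s ∧ (if 1 < ρ * (g0 (cls θ (pos w) T s) : ℝ) ^ 4 then
      Lucky θ (cls θ (pos w) T s) _ else _ + g0 (cls θ (pos w) T s) ^ 7 ≤ _) then
      Real.exp (ρ * κ * cls θ (pos w) T s) - 1 else 0
    rw [if_pos ⟨a4, by
      split_ifs with h
      · exact a5
      · exact b2.resolve_left h⟩]
    ring
  · ring_nf

end Pool.Agent.Lib.MP_a9e7ee_nt
end
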