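import Pool.Agent.Shared.Subspace2.Main
import Pool.Agent.Lib.MP_a9e7ee_nt.Kernel
import Pool.Agent.Lib.MP_a9e7ee_nt.Arith
import Pool.Agent.Lib.MP_a9e7ee_nt.Core
import Pool.Agent.Lib.MP_a9e7ee_nt.Fourier

-- part Pool.Agent.Lib.MP_a9e7ee_nt.DiophCore
section

/-! Applications of the two-base Subspace Theorem (primes 2 and 3). -/

namespace Pool.Agent.Lib.MP_a9e7ee_nt

theorem sub_sum (κ : Type) [Fintype κ] [Nonempty κ] {ε : ℝ} (hε : 0 < ε) :
    ∃ b : ℕ, ∀ (x0 : ℤ) (x : κ → ℤ) (t0 : ℕ) (t u : κ → ℕ) (H : ℝ), |(x0 : ℝ)| ≤ H →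
      (∀ j, |(x j : ℝ)| ≤ H) → (2 : ℤ) ^ t0 ∣ x0 → (∀ j, (2 : ℤ) ^ t j ∣ x j) →
      (∀ j, (3 : ℤ) ^ u j ∣ x j) →
      |(x0 : ℝ) - ∑ j, (x j : ℝ)| * (∏ j, |(x j : ℝ)|) * H ^ ε ≤
        2 ^ t0 * 2 ^ (∑ j, t j) * 3 ^ (∑ j, u j) →
      ∃ (ψ0 : ℤ) (ψ : κ → ℤ), (ψ0 ≠ 0 ∨ ∃ j, ψ j ≠ 0) ∧ 2 * |ψ0| ≤ 2 ^ b ∧
        (∀ j, 2 * |ψ j| ≤ 2 ^ b) ∧ ψ0 * x0 + ∑ j, ψ j * x j = 0 := by
  classical
  let M : ℝ → Matrix (Option κ) (Option κ) ℝ := fun s i j =>
    i.elim (j.elim 1 fun _ => s) fun a => j.elim 0 fun c => if a = c then 1 else 0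
  have hM : M (-1) * M 1 = 1 := by
    ext i j
    rcases i with _ | i <;> rcases j with _ | j <;>
      simp [M, Matrix.mul_apply, Fintype.sum_option, Matrix.one_apply]
  obtain ⟨Ψ, h1, h2⟩ := Pool.Agent.Subspace2.subspace2 (ι := Option κ) 2 3 le_rfl (by norm_num)
    (by norm_num) (M (-1)) (fun i j => by
      rcases i with _ | i <;> rcases j with _ | j <;> simp only [M, Option.elim]
      · exact isAlgebraic_one
      · exact isAlgebraic_one.neg
      · exact isAlgebraic_zero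
      · split_ifs
        · exact isAlgebraic_one
        · exact isAlgebraic_zero) (Matrix.det_ne_zero_of_right_inverse hM) hε
  refine ⟨(Ψ.sup fun ψ => Finset.univ.sup fun i => (ψ i).natAbs) + 1,
    fun x0 x t0 t u H a1 a2 a3 a4 a5 a6 => ?_⟩
  obtain ⟨ψ, hψ, h3⟩ := h2 (fun i => i.elim x0 x) (fun i => i.elim t0 t) (fun i => i.elim 0 u) H
    (fun i => by rcases i with _ | i; exacts [a1, a2 i])
    (fun i => by rcases i with _ | i; exacts [a3, a4 i])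
    (fun i => by rcases i with _ | i; exacts [one_dvd _, a5 i]) (by
      simpa [M, Fintype.prod_option, Fintype.sum_option, pow_add, sub_eq_add_neg] using a6)
  have hb : ∀ i, 2 * |ψ i| ≤
      2 ^ ((Ψ.sup fun ψ => Finset.univ.sup fun i => (ψ i).natAbs) + 1) := by
    intro i
    have b1 : (ψ i).natAbs ≤ Ψ.sup fun ψ => Finset.univ.sup fun i => (ψ i).natAbs :=
      (Finset.le_sup (f := fun i => (ψ i).natAbs) (Finset.mem_univ i)).trans
        (Finset.le_sup (f := fun ψ => Finset.univ.sup fun i => (ψ i).natAbs) hψ)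
    have b2 := b1.trans (Nat.lt_two_pow_self).le
    rw [pow_succ', ← Int.natCast_natAbs]
    exact_mod_cast Nat.mul_le_mul_left 2 b2
  refine ⟨ψ none, fun j => ψ (some j), ?_, hb _, fun j => hb _, ?_⟩
  · by_contra hc
    push Not at hc
    exact h1 ψ hψ (funext fun i => by rcases i with _ | i; exacts [hc.1, hc.2 i])
  · simpa [Fintype.sum_option] using h3

theorem three_pow_le_four {i k : ℕ} (h : i ≤ k) : (3 : ℤ) ^ i ≤ 2 ^ (2 * k) := by
  rw [pow_mul]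
  exact (pow_le_pow_right₀ (by norm_num) h).trans (pow_le_pow_left₀ (by norm_num) (by norm_num) _)

theorem three_pow_le (k : ℕ) : (3 : ℝ) ^ k ≤ 2 ^ ((7 / 4 : ℝ) * k) := by
  rw [Real.rpow_mul (by norm_num), Real.rpow_natCast]
  refine pow_le_pow_left₀ (by norm_num) ?_ _
  refine le_of_pow_le_pow_left₀ (n := 4) (by norm_num) (by positivity) ?_
  rw [← Real.rpow_natCast ((2 : ℝ) ^ (7 / 4 : ℝ)), ← Real.rpow_mul (by norm_num)]
  norm_num

theorem cop23 (a b : ℕ) : IsCoprime ((3 : ℤ) ^ a) (2 ^ b) :=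
  IsCoprime.pow (Int.isCoprime_iff_gcd_eq_one.2 (by norm_num))

/-- D1 (Ridout with primes 2 and 3). -/
theorem D1 (C : ℕ) {ε : ℝ} (hε : 0 < ε) : ∃ k0 : ℕ, ∀ k : ℕ, k0 ≤ k → ∀ i s P D : ℕ,
    k ≤ 4 * i → i ≤ k → s ≤ C * k → P < s → 8 * P ≤ k → (P : ℝ) + ε * k ≤ D →
    ∀ m ξ n : ℤ, 2 ^ s * m ≡ 1 [ZMOD 3 ^ i] → ξ ≠ 0 → |ξ| ≤ 2 ^ P →
      (3 : ℤ) ^ i ≤ 2 ^ D * |ξ * m - n * 3 ^ i| := by
  obtain ⟨b, hb⟩ := sub_sum Unit (ε := ε / (2 * (C + 3))) (by positivity)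
  obtain ⟨k0, hk0⟩ := exists_nat_ge ((b + 2) / ε)
  refine ⟨k0 + 1, fun k hk i s P D h1 h2 h3 h4 h5 h6 m ξ n hm hξ0 hξ => ?_⟩
  have hk1 : (b : ℝ) + 2 ≤ ε * k := by
    rw [div_le_iff₀ hε] at hk0
    have : (k0 : ℝ) ≤ k := by exact_mod_cast (by omega : k0 ≤ k)
    nlinarith
  by_contra hc
  push Not at hc
  set v := ξ * m - n * 3 ^ i with hv
  have hT : (0 : ℤ) < 3 ^ i := by positivity
  have hd : (3 : ℤ) ^ i ∣ v * 2 ^ s - ξ := by
    have := (hm.symm.dvd.mul_left ξ).sub (dvd_mul_left (3 ^ i) (n * 2 ^ s))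
    rwa [show ξ * (2 ^ s * m - 1) - n * 2 ^ s * 3 ^ i = v * 2 ^ s - ξ by rw [hv]; ring] at this
  have hv0 : v ≠ 0 := by
    intro h0
    rw [h0, zero_mul, zero_sub, dvd_neg] at hd
    have a1 := Int.le_of_dvd (abs_pos.2 hξ0) ((dvd_abs _ _).2 hd)
    have a2 : (2 : ℤ) ^ P ≤ 2 ^ i := pow_le_pow_right₀ (by norm_num) (by omega)
    have a3 : (2 : ℤ) ^ i < 3 ^ i := pow_lt_pow_left₀ (by norm_num) (by norm_num) (by omega)
    linarith
  have hv1 : 1 ≤ |v| := Int.one_le_abs hv0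
  have hPs : (2 : ℤ) ^ P < 2 ^ s := pow_lt_pow_right₀ (by norm_num) h4
  have hs0 : (0 : ℤ) < 2 ^ s := by positivity
  have e0 : |v * 2 ^ s| = |v| * 2 ^ s := by rw [abs_mul, abs_of_pos hs0]
  have hx1 : |v * 2 ^ s - ξ| ≤ 2 * |v| * 2 ^ s := by
    refine (abs_sub _ _).trans ?_
    rw [e0]; nlinarith
  have hx0 : v * 2 ^ s - ξ ≠ 0 := by
    intro h0
    rw [← sub_eq_zero.1 h0, e0] at hξ
    nlinarith
  have hD1 : (1 : ℤ) ≤ 2 ^ D := one_le_pow₀ (by norm_num)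
  have hH : 2 * |v| * 2 ^ s ≤ 2 ^ ((C + 3) * k) := by
    have a1 : |v| ≤ 2 ^ (2 * k) := by nlinarith [three_pow_le_four h2]
    have a2 : (2 : ℤ) ^ s ≤ 2 ^ (C * k) := pow_le_pow_right₀ (by norm_num) h3
    calc 2 * |v| * 2 ^ s ≤ 2 ^ 1 * 2 ^ (2 * k) * 2 ^ (C * k) := by gcongr; norm_num
      _ = 2 ^ (1 + 2 * k + C * k) := by rw [pow_add, pow_add]
      _ ≤ _ := pow_le_pow_right₀ (by norm_num) (by nlinarith)
  obtain ⟨ψ0, ψ, p1, p2, -, p4⟩ := hb (v * 2 ^ s) (fun _ => v * 2 ^ s - ξ) s (fun _ => 0)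
    (fun _ => i) (2 ^ ((C + 3) * k))
    (by exact_mod_cast (show |v * 2 ^ s| ≤ 2 ^ ((C + 3) * k) by rw [e0]; nlinarith))
    (fun _ => by exact_mod_cast hx1.trans hH) (dvd_mul_left _ _) (fun _ => one_dvd _)
    (fun _ => hd) (by
      simp only [Finset.univ_unique, Finset.sum_singleton, Finset.prod_singleton, pow_zero,
        mul_one]
      have e1 : ((2 : ℝ) ^ ((C + 3) * k)) ^ (ε / (2 * (C + 3))) = 2 ^ (ε * k / 2) := by
        rw [← Real.rpow_natCast, ← Real.rpow_mul (by norm_num)]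
        congr 1
        push_cast
        field_simp
      have e2 : ((v * 2 ^ s : ℤ) : ℝ) - ((v * 2 ^ s - ξ : ℤ) : ℝ) = ξ := by push_cast; ring
      have a1 : |(ξ : ℝ)| ≤ 2 ^ P := by exact_mod_cast hξ
      have a2 : |((v * 2 ^ s - ξ : ℤ) : ℝ)| ≤ 2 * |(v : ℝ)| * 2 ^ s := by exact_mod_cast hx1
      have a3 : (2 : ℝ) ^ D * |(v : ℝ)| ≤ 3 ^ i := by exact_mod_cast hc.le
      have a4 : (2 : ℝ) ^ P * 2 * 2 ^ (ε * k / 2) ≤ 2 ^ D := by
        rw [← pow_succ, ← Real.rpow_natCast, ← Real.rpow_natCast, ← Real.rpow_add (by norm_num)]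
        refine Real.rpow_le_rpow_of_exponent_le (by norm_num) ?_
        push_cast
        linarith [(b.cast_nonneg : (0 : ℝ) ≤ b)]
      rw [e1, e2]
      calc _ ≤ 2 ^ P * (2 * |(v : ℝ)| * 2 ^ s) * 2 ^ (ε * k / 2) := by gcongr
        _ = (2 ^ P * 2 * 2 ^ (ε * k / 2)) * |(v : ℝ)| * 2 ^ s := by ring
        _ ≤ 2 ^ D * |(v : ℝ)| * 2 ^ s := by gcongr
        _ ≤ 3 ^ i * 2 ^ s := by gcongr
        _ = _ := mul_comm _ _)
  simp only [Finset.univ_unique, Finset.sum_singleton] at p4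
  have hψ0 : ψ0 ≠ 0 := by
    rintro rfl
    obtain ⟨j, hj⟩ := p1.resolve_left (by simp)
    rw [zero_mul, zero_add] at p4
    exact mul_ne_zero hj hx0 p4
  have d1 : (3 : ℤ) ^ i ∣ ψ0 * v * 2 ^ s := by
    rw [mul_assoc, eq_neg_of_add_eq_zero_left p4, dvd_neg]
    exact hd.mul_left _
  have d2 := Int.le_of_dvd (abs_pos.2 (mul_ne_zero hψ0 hv0))
    ((dvd_abs _ _).2 ((cop23 i s).dvd_of_dvd_mul_right d1))
  have d3 : (2 : ℤ) ^ b ≤ 2 ^ D := by
    refine pow_le_pow_right₀ (by norm_num) ?_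
    have : (b : ℝ) ≤ D := by linarith [(P.cast_nonneg : (0 : ℝ) ≤ P)]
    exact_mod_cast this
  rw [abs_mul] at d2
  nlinarith [abs_nonneg ψ0]

/-- D2 core (Subspace theorem, induction on r). -/
theorem D2core (r : ℕ) : ∃ ε : ℝ, 0 < ε ∧ ∃ k0 : ℕ, ∀ k : ℕ, k0 ≤ k → ∀ i N e : ℕ,
    k ≤ 4 * i → i ≤ k → 2 * k ≤ N → N ≤ 3 * k → (e : ℝ) ≤ ε * k →
    ∀ (c : Fin r → ℤ) (n : Fin r → ℕ) (Ξ m m' : ℤ), (∀ j, |c j| ≤ 2 ^ e) → (∀ j, n j ≤ 3 * k) →
      Ξ ≠ 0 → |Ξ| ≤ 2 ^ e → ¬ (3 : ℤ) ∣ m → |m| ≤ 3 ^ i → |m'| ≤ 3 ^ i →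
      3 ^ i * ∑ j, c j * 2 ^ n j ≠ Ξ * (m * 2 ^ N - m') := by
  induction r with
  | zero =>
    refine ⟨1, one_pos, 1, fun k hk i N e _ h2 h3 _ _ c n Ξ m m' _ _ hΞ _ hm _ hm' h => ?_⟩
    rw [Finset.univ_eq_empty, Finset.sum_empty, mul_zero] at h
    have h0 := sub_eq_zero.1 ((mul_eq_zero.1 h.symm).resolve_left hΞ)
    have a1 : 1 ≤ |m| := Int.one_le_abs fun h => hm (h ▸ dvd_zero _)
    have a2 : (3 : ℤ) ^ i < 2 ^ N := by
      calc (3 : ℤ) ^ i ≤ 3 ^ k := pow_le_pow_right₀ (by norm_num) h2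
        _ < 4 ^ k := pow_lt_pow_left₀ (by norm_num) (by norm_num) (by omega)
        _ = 2 ^ (2 * k) := by rw [pow_mul]; norm_num
        _ ≤ _ := pow_le_pow_right₀ (by norm_num) h3
    rw [← h0, abs_mul, abs_of_pos (by positivity : (0 : ℤ) < 2 ^ N)] at hm'
    nlinarith [(by positivity : (0 : ℤ) < 2 ^ N)]
  | succ r ih =>
    obtain ⟨ε, hε, k0, ih⟩ := ih
    obtain ⟨b, hb⟩ := sub_sum (Fin (r + 1)) (ε := 1 / 48) (by norm_num)
    obtain ⟨k1, hk1⟩ := exists_nat_ge (2 * b / ε)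
    refine ⟨min (ε / 2) (1 / (8 * (r + 2))), by positivity, k0 + k1 + 8 * b + 1,
      fun k hk i N e h1 h2 h3 h4 h5 c n Ξ m m' hc hn hΞ0 hΞ hm3 hm hm' h => ?_⟩
    have hk0 : (0 : ℝ) ≤ k := k.cast_nonneg
    have he1 : (e : ℝ) ≤ ε / 2 * k := h5.trans (by gcongr; exact min_le_left _ _)
    have he2 : 8 * (r + 2) * e ≤ k := by
      have a1 : (e : ℝ) ≤ 1 / (8 * (r + 2)) * k := h5.trans (by gcongr; exact min_le_right _ _)
      rw [one_div, inv_mul_eq_div, le_div_iff₀ (by positivity)] at a1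
      have : (8 * (r + 2) * e : ℝ) ≤ k := by linarith
      exact_mod_cast this
    have he3 : 8 * e ≤ k := by nlinarith
    have hT : (0 : ℤ) < 3 ^ i := by positivity
    have hbd : ∀ (z : ℤ) (a : ℕ), |z| ≤ 2 ^ e * 3 ^ i → a ≤ 3 * k → |z * 2 ^ a| ≤ 2 ^ (6 * k) := by
      intro z a hz ha
      rw [abs_mul, abs_of_pos (by positivity : (0 : ℤ) < 2 ^ a)]
      calc |z| * 2 ^ a ≤ 2 ^ k * 2 ^ (2 * k) * 2 ^ (3 * k) := by
            refine mul_le_mul (hz.trans ?_) (pow_le_pow_right₀ (by norm_num) ha) (by positivity)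
              (by positivity)
            exact mul_le_mul (pow_le_pow_right₀ (by norm_num) (by omega)) (three_pow_le_four h2)
              hT.le (by positivity)
        _ = _ := by rw [← pow_add, ← pow_add]; congr 1; ring
    have hcj : ∀ j, |3 ^ i * c j| ≤ 2 ^ e * 3 ^ i := fun j => by
      rw [abs_mul, abs_of_pos hT, mul_comm]
      exact mul_le_mul_of_nonneg_right (hc j) hT.le
    obtain ⟨ψ0, ψ, p1, p2, p3, p4⟩ := hb (Ξ * m * 2 ^ N) (fun j => 3 ^ i * c j * 2 ^ n j) N n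
      (fun _ => i) (2 ^ (6 * k))
      (by
        have : |Ξ * m| ≤ 2 ^ e * 3 ^ i := by
          rw [abs_mul]; exact mul_le_mul hΞ hm (abs_nonneg _) (by positivity)
        exact_mod_cast hbd _ N this h4)
      (fun j => by exact_mod_cast hbd _ _ (hcj j) (hn j)) (dvd_mul_left _ _)
      (fun _ => dvd_mul_left _ _) (fun _ => (dvd_mul_right _ _).mul_right _) (by
        have e1 : ((2 : ℝ) ^ (6 * k)) ^ (1 / 48 : ℝ) = 2 ^ ((k : ℝ) / 8) := by
          rw [← Real.rpow_natCast, ← Real.rpow_mul (by norm_num)]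
          congr 1
          push_cast
          ring
        have e2 : Ξ * m * 2 ^ N - ∑ j, 3 ^ i * c j * 2 ^ n j = Ξ * m' := by
          simp only [mul_assoc]
          rw [← Finset.mul_sum, h]; ring
        have e3 : ((Ξ * m * 2 ^ N : ℤ) : ℝ) - ∑ j, ((3 ^ i * c j * 2 ^ n j : ℤ) : ℝ) =
            ((Ξ * m' : ℤ) : ℝ) := by rw [← e2]; push_cast; rfl
        have a1 : |((Ξ * m' : ℤ) : ℝ)| ≤ 2 ^ e * 3 ^ i := by
          have : |Ξ * m'| ≤ 2 ^ e * 3 ^ i := by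
            rw [abs_mul]; exact mul_le_mul hΞ hm' (abs_nonneg _) (by positivity)
          exact_mod_cast this
        have a2 : ∏ j, |((3 ^ i * c j * 2 ^ n j : ℤ) : ℝ)| ≤
            ∏ j : Fin (r + 1), ((2 : ℝ) ^ e * 3 ^ i * 2 ^ n j) := by
          refine Finset.prod_le_prod (fun _ _ => abs_nonneg _) fun j _ => ?_
          have : |3 ^ i * c j * 2 ^ n j| ≤ 2 ^ e * 3 ^ i * 2 ^ n j := by
            rw [abs_mul, abs_of_pos (by positivity : (0 : ℤ) < 2 ^ n j)]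
            exact mul_le_mul_of_nonneg_right (hcj j) (by positivity)
          exact_mod_cast this
        rw [Finset.prod_mul_distrib, Finset.prod_mul_distrib, Finset.prod_pow_eq_pow_sum,
          Finset.prod_pow_eq_pow_sum, Finset.prod_pow_eq_pow_sum] at a2
        have a3 : (2 : ℝ) ^ e * 2 ^ (∑ _j : Fin (r + 1), e) * 3 ^ i * 2 ^ ((k : ℝ) / 8) ≤
            2 ^ N := by
          have b1 : (3 : ℝ) ^ i ≤ 2 ^ ((7 / 4 : ℝ) * k) :=
            (pow_le_pow_right₀ (by norm_num) h2).trans (three_pow_le k)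
          refine le_trans (b := 2 ^ e * 2 ^ (∑ _j : Fin (r + 1), e) * 2 ^ ((7 / 4 : ℝ) * k) *
            2 ^ ((k : ℝ) / 8)) (by gcongr) ?_
          rw [← pow_add, ← Real.rpow_natCast, ← Real.rpow_natCast, ← Real.rpow_add (by norm_num),
            ← Real.rpow_add (by norm_num)]
          refine Real.rpow_le_rpow_of_exponent_le (by norm_num) ?_
          have b2 : (8 * (r + 2) * e : ℝ) ≤ k := by exact_mod_cast he2
          have b3 : (2 * k : ℝ) ≤ N := by exact_mod_cast h3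
          simp only [Finset.sum_const, Finset.card_univ, Fintype.card_fin, smul_eq_mul]
          push_cast
          linarith
        rw [e1, e3]
        calc _ ≤ ((2 : ℝ) ^ e * 3 ^ i) * (2 ^ (∑ _j : Fin (r + 1), e) * 3 ^ (∑ _j : Fin (r + 1), i) *
              2 ^ (∑ j, n j)) * 2 ^ ((k : ℝ) / 8) := by gcongr
          _ = ((2 : ℝ) ^ e * 2 ^ (∑ _j : Fin (r + 1), e) * 3 ^ i * 2 ^ ((k : ℝ) / 8)) *
              2 ^ (∑ j, n j) * 3 ^ (∑ _j : Fin (r + 1), i) := by ring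
          _ ≤ _ := by gcongr)
    by_cases hψ0 : ψ0 = 0
    · obtain ⟨j0, hj0⟩ := p1.resolve_left (not_not.2 hψ0)
      rw [hψ0, zero_mul, zero_add] at p4
      refine ih k (by omega) i N (e + b) h1 h2 h3 h4 ?_
        (fun j => (ψ j0 - ψ (j0.succAbove j)) * c (j0.succAbove j)) (fun j => n (j0.succAbove j))
        (ψ j0 * Ξ) m m' (fun j => ?_) (fun j => hn _) (mul_ne_zero hj0 hΞ0) ?_ hm3 hm hm' ?_
      · rw [div_le_iff₀ hε] at hk1
        have : (k1 : ℝ) ≤ k := by exact_mod_cast (by omega : k1 ≤ k)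
        push_cast
        nlinarith
      · rw [abs_mul, pow_add, mul_comm]
        refine mul_le_mul (hc _) ((abs_sub _ _).trans ?_) (abs_nonneg _) (by positivity)
        linarith [p3 j0, p3 (j0.succAbove j)]
      · rw [abs_mul, pow_add, mul_comm]
        refine mul_le_mul hΞ ?_ (abs_nonneg _) (by positivity)
        linarith [p3 j0, abs_nonneg (ψ j0)]
      · have e1 : ∑ j, (ψ j0 - ψ j) * c j * 2 ^ n j = ∑ j, (ψ j0 - ψ (j0.succAbove j)) *
            c (j0.succAbove j) * 2 ^ n (j0.succAbove j) := by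
          rw [Fin.sum_univ_succAbove _ j0]; simp
        rw [← e1, mul_assoc, ← h, Finset.mul_sum, Finset.mul_sum, Finset.mul_sum, ← sub_zero
          (∑ j, ψ j0 * (3 ^ i * (c j * 2 ^ n j))), ← p4, ← Finset.sum_sub_distrib]
        exact Finset.sum_congr rfl fun j _ => by ring
    · have d1 : (3 : ℤ) ^ i ∣ ψ0 * Ξ * m * 2 ^ N := by
        rw [mul_assoc ψ0, mul_assoc ψ0, eq_neg_of_add_eq_zero_left p4, dvd_neg]
        exact Finset.dvd_sum fun j _ => ((dvd_mul_right _ _).mul_right _).mul_left _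
      have d2 : IsCoprime ((3 : ℤ) ^ i) m :=
        ((Int.prime_three.irreducible.coprime_iff_not_dvd).2 hm3).pow_left
      have d3 := Int.le_of_dvd (abs_pos.2 (mul_ne_zero hψ0 hΞ0)) ((dvd_abs _ _).2
        (d2.dvd_of_dvd_mul_right ((cop23 i N).dvd_of_dvd_mul_right d1)))
      have d4 : |ψ0 * Ξ| ≤ 2 ^ (b + e) := by
        rw [abs_mul, pow_add]
        exact mul_le_mul (by linarith [abs_nonneg ψ0]) hΞ (abs_nonneg _) (by positivity)
      have d5 : (2 : ℤ) ^ (b + e) ≤ 2 ^ i := pow_le_pow_right₀ (by norm_num) (by omega)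
      have d6 : (2 : ℤ) ^ i < 3 ^ i := pow_lt_pow_left₀ (by norm_num) (by norm_num) (by omega)
      linarith

end Pool.Agent.Lib.MP_a9e7ee_nt
end

-- part Pool.Agent.Lib.MP_a9e7ee_nt.Dioph
section

/-! The chain lemma D2. -/

namespace Pool.Agent.Lib.MP_a9e7ee_nt

/-- `x` is a sum of `t` terms `n / ξ * 2 ^ a` with bounded data. -/
def SumT (E B : ℕ) : ℕ → ℚ → Prop
  | 0, x => x = 0
  | t + 1, x => ∃ (n ξ : ℤ) (a : ℕ), |n| ≤ 2 ^ E ∧ ξ ≠ 0 ∧ |ξ| ≤ 2 ^ E ∧ a ≤ B ∧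
      SumT E B t (x - n / ξ * 2 ^ a)

theorem SumT.zero (E B t : ℕ) : SumT E B t 0 := by
  induction t with
  | zero => rfl
  | succ t ih =>
    exact ⟨0, 1, 0, by simp, one_ne_zero, by simpa using one_le_pow₀ (by norm_num : (1 : ℤ) ≤ 2),
      Nat.zero_le _, by simpa using ih⟩

theorem SumT.add {E B : ℕ} {s t : ℕ} {y : ℚ} (hy : SumT E B s y) :
    ∀ {x : ℚ}, SumT E B t x → SumT E B (s + t) (x + y) := by
  induction t with
  | zero => intro x hx; rw [show x = 0 from hx, zero_add]; exact hy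
  | succ t ih =>
    rintro x ⟨n, ξ, a, h1, h2, h3, h4, h5⟩
    refine ⟨n, ξ, a, h1, h2, h3, h4, ?_⟩
    rw [show x + y - n / ξ * 2 ^ a = x - n / ξ * 2 ^ a + y by ring]
    exact ih h5

theorem SumT.one {E B : ℕ} {n ξ : ℤ} {a : ℕ} (h1 : |n| ≤ 2 ^ E) (h2 : ξ ≠ 0) (h3 : |ξ| ≤ 2 ^ E)
    (h4 : a ≤ B) : SumT E B 1 (n / ξ * 2 ^ a) :=
  ⟨n, ξ, a, h1, h2, h3, h4, sub_self _⟩

theorem SumT.clear {E B t : ℕ} : ∀ {x : ℚ}, SumT E B t x → ∃ (Ξ : ℤ) (c : Fin t → ℤ)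
    (n : Fin t → ℕ), Ξ ≠ 0 ∧ |Ξ| ≤ 2 ^ (t * E) ∧ (∀ j, |c j| ≤ 2 ^ (t * E)) ∧ (∀ j, n j ≤ B) ∧
      (Ξ : ℚ) * x = ∑ j, (c j : ℚ) * 2 ^ n j := by
  induction t with
  | zero =>
    intro x hx
    exact ⟨1, Fin.elim0, Fin.elim0, one_ne_zero, by simp, fun j => j.elim0, fun j => j.elim0,
      by simp [show x = 0 from hx]⟩
  | succ t ih =>
    rintro x ⟨n, ξ, a, h1, h2, h3, h4, h5⟩
    obtain ⟨Ξ, c, l, g1, g2, g3, g4, g5⟩ := ih h5
    have hb : ∀ u w : ℤ, |u| ≤ 2 ^ (t * E) → |w| ≤ 2 ^ E → |u * w| ≤ 2 ^ ((t + 1) * E) := by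
      intro u w hu hw
      rw [abs_mul, add_mul, one_mul, pow_add]
      exact mul_le_mul hu hw (abs_nonneg _) (by positivity)
    refine ⟨Ξ * ξ, Fin.cons (Ξ * n) fun j => c j * ξ, Fin.cons a l, mul_ne_zero g1 h2,
      hb _ _ g2 h3, fun j => ?_, fun j => ?_, ?_⟩
    · refine Fin.cases ?_ (fun j => ?_) j
      · exact hb _ _ g2 h1
      · exact hb _ _ (g3 j) h3
    · refine Fin.cases ?_ (fun j => ?_) j
      · exact h4
      · exact g4 j
    · have hξ : (ξ : ℚ) ≠ 0 := by exact_mod_cast h2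
      rw [Fin.sum_univ_succ]
      simp only [Fin.cons_zero, Fin.cons_succ]
      push_cast
      have : ∑ j, (c j : ℚ) * ξ * 2 ^ l j = ξ * ∑ j, (c j : ℚ) * 2 ^ l j := by
        rw [Finset.mul_sum]; exact Finset.sum_congr rfl fun j _ => by ring
      rw [this, ← g5]
      field_simp
      ring

section Chain

variable {T : ℤ} {m : ℕ → ℤ} {P D H0 N B : ℕ}

theorem short_seg (hm : ∀ y, 2 * m (y + 1) ≡ m y [ZMOD T]) (hm2 : ∀ y, 0 < m y ∧ m y ≤ T)
    {E a d : ℕ} (hd : d ≤ E) (ha : a ≤ B) :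
    SumT E B 1 (2 ^ (a + d) * (m (a + d) : ℚ) / T - 2 ^ a * (m a : ℚ) / T) := by
  have hT : 0 < T := (hm2 0).1.trans_le (hm2 0).2
  have h1 : 2 ^ d * m (a + d) ≡ m a [ZMOD T] := by
    clear hd
    induction d with
    | zero => simp
    | succ d ih =>
      refine Int.ModEq.trans ?_ ih
      rw [pow_succ, mul_assoc]
      exact (hm (a + d)).mul_left _
  obtain ⟨z, hz⟩ := h1.symm.dvd
  have h2 : |z| ≤ 2 ^ E := by
    have a1 : (2 : ℤ) ^ d ≤ 2 ^ E := pow_le_pow_right₀ (by norm_num) hd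
    have a2 : (1 : ℤ) ≤ 2 ^ d := one_le_pow₀ (by norm_num)
    have a3 := hm2 a
    have a4 := hm2 (a + d)
    rw [abs_le]
    constructor <;> nlinarith
  have h3 := SumT.one (B := B) h2 one_ne_zero
    (by simpa using one_le_pow₀ (by norm_num : (1 : ℤ) ≤ 2)) ha
  have hz' : (2 : ℚ) ^ d * m (a + d) - m a = T * z := by exact_mod_cast hz
  have hT' : (T : ℚ) ≠ 0 := by exact_mod_cast hT.ne'
  convert h3 using 1
  field_simp
  push_cast
  rw [pow_add]
  linear_combination (2 : ℚ) ^ a * hz'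

theorem deep_seg (hm : ∀ y, 2 * m (y + 1) ≡ m y [ZMOD T]) (hm2 : ∀ y, 0 < m y ∧ m y ≤ T)
    (hD : 2 * P + 3 ≤ D) {E a b : ℕ} (hE : P ≤ E) (hab : a ≤ b) (hb : b ≤ B)
    (h : ∀ y, a ≤ y → y ≤ b → ∃ ξ n : ℤ, ξ ≠ 0 ∧ |ξ| ≤ 2 ^ P ∧ 2 ^ D * |ξ * m y - n * T| < T) :
    SumT E B 2 (2 ^ b * (m b : ℚ) / T - 2 ^ a * (m a : ℚ) / T) := by
  have hT : 0 < T := (hm2 0).1.trans_le (hm2 0).2
  have hT' : (T : ℚ) ≠ 0 := by exact_mod_cast hT.ne'
  choose! ξ n h1 h2 h3 using h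
  have hPE : (2 : ℤ) ^ P ≤ 2 ^ E := pow_le_pow_right₀ (by norm_num) hE
  have hD1 : 4 * (2 : ℤ) ^ P ≤ 2 ^ D := by
    rw [show 4 * (2 : ℤ) ^ P = 2 ^ (P + 2) by ring]
    exact pow_le_pow_right₀ (by norm_num) (by omega)
  have hP1 : (1 : ℤ) ≤ 2 ^ P := one_le_pow₀ (by norm_num)
  have hn : ∀ y, a ≤ y → y ≤ b → |n y| ≤ 2 ^ E := by
    intro y y1 y2
    have a1 : |ξ y * m y - n y * T| < T := by
      nlinarith [h3 y y1 y2, abs_nonneg (ξ y * m y - n y * T)]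
    have a2 : |n y * T| ≤ |ξ y * m y| + |ξ y * m y - n y * T| := by
      have := abs_sub (ξ y * m y) (ξ y * m y - n y * T)
      rwa [sub_sub_cancel] at this
    rw [abs_mul, abs_mul, abs_of_pos hT, abs_of_pos (hm2 y).1] at a2
    have a3 := mul_le_mul (h2 y y1 y2) (hm2 y).2 (hm2 y).1.le (by positivity)
    have : |n y| < 2 ^ P + 1 := by nlinarith
    linarith
  have key : ∀ d, a + d ≤ b → 2 ^ (a + d) * (m (a + d) : ℚ) / T - 2 ^ a * (m a : ℚ) / T =
      n (a + d) / ξ (a + d) * 2 ^ (a + d) - n a / ξ a * 2 ^ a := by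
    intro d
    induction d with
    | zero => simp
    | succ d ih =>
      intro hd
      set y := a + d with hy
      have y1 : a ≤ y := by omega
      have y2 : y ≤ b := by omega
      have y3 : a ≤ y + 1 := by omega
      have y4 : y + 1 ≤ b := hd
      obtain ⟨q, hq⟩ := (hm y).symm.dvd
      set A := q * ξ y * ξ (y + 1) - 2 * n (y + 1) * ξ y + n y * ξ (y + 1) with hA
      have e : T * A = 2 * ξ y * (ξ (y + 1) * m (y + 1) - n (y + 1) * T) -
          ξ (y + 1) * (ξ y * m y - n y * T) := by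
        rw [hA]; linear_combination (-(ξ y * ξ (y + 1))) * hq
      have hA0 : A = 0 := by
        by_contra h0
        have a1 := Int.one_le_abs h0
        have a2 : T * |A| ≤ 2 * 2 ^ P * |ξ (y + 1) * m (y + 1) - n (y + 1) * T| +
            2 ^ P * |ξ y * m y - n y * T| := by
          rw [← abs_of_pos hT, ← abs_mul, abs_of_pos hT, e]
          refine (abs_sub _ _).trans ?_
          rw [abs_mul, abs_mul, abs_mul, abs_two]
          have := h2 y y1 y2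
          have := h2 (y + 1) y3 y4
          gcongr
        have a3 := h3 y y1 y2
        have a4 := h3 (y + 1) y3 y4
        have a5 := abs_nonneg (ξ y * m y - n y * T)
        have a6 := abs_nonneg (ξ (y + 1) * m (y + 1) - n (y + 1) * T)
        nlinarith
      have x1 : (ξ y : ℚ) ≠ 0 := by exact_mod_cast h1 y y1 y2
      have x2 : (ξ (y + 1) : ℚ) ≠ 0 := by exact_mod_cast h1 (y + 1) y3 y4
      have hq' : (2 : ℚ) * m (y + 1) - m y = T * q := by exact_mod_cast hq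
      have hA' : (q : ℚ) * ξ y * ξ (y + 1) - 2 * n (y + 1) * ξ y + n y * ξ (y + 1) = 0 := by
        exact_mod_cast hA ▸ hA0
      have s1 : 2 ^ (y + 1) * (m (y + 1) : ℚ) / T - 2 ^ y * (m y : ℚ) / T = 2 ^ y * q := by
        field_simp
        linear_combination (2 : ℚ) ^ y * hq'
      have s2 : (n (y + 1) : ℚ) / ξ (y + 1) * 2 ^ (y + 1) - n y / ξ y * 2 ^ y = 2 ^ y * q := by
        field_simp
        linear_combination -(2 : ℚ) ^ y * hA'
      have s3 := ih y2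
      change 2 ^ (y + 1) * (m (y + 1) : ℚ) / T - _ = (n (y + 1) : ℚ) / ξ (y + 1) * 2 ^ (y + 1) - _
      linear_combination s1 - s2 + s3
  obtain ⟨d, rfl⟩ := Nat.exists_eq_add_of_le hab
  rw [key d le_rfl, sub_eq_add_neg, ← neg_mul, ← neg_div, ← Int.cast_neg]
  exact (SumT.one (by rw [abs_neg]; exact hn a le_rfl hab) (h1 a le_rfl hab)
    ((h2 a le_rfl hab).trans hPE) (hab.trans hb)).add
    (SumT.one (hn _ hab le_rfl) (h1 _ hab le_rfl) ((h2 _ hab le_rfl).trans hPE) hb)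

theorem no_chain (hm : ∀ y, 2 * m (y + 1) ≡ m y [ZMOD T]) (hm2 : ∀ y, 0 < m y ∧ m y ≤ T)
    (hD : 2 * P + 3 ≤ D) (hN : N ≤ B) (r : ℕ) : ∀ a, a ≤ N →
    (¬∃ R : ℕ → ℕ, a ≤ R 0 ∧ (∀ j, j < r → R j + H0 ≤ R (j + 1)) ∧ R r ≤ N ∧
      ∀ j, j ≤ r → ∀ ξ n : ℤ, ξ ≠ 0 → |ξ| ≤ 2 ^ P → T ≤ 2 ^ D * |ξ * m (R j) - n * T|) →
    SumT (P + H0 + 1) B (3 * r + 2) (2 ^ N * (m N : ℚ) / T - 2 ^ a * (m a : ℚ) / T) := by
  classical
  induction r with
  | zero =>
    intro a ha h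
    refine deep_seg hm hm2 hD (by omega) ha hN fun y y1 y2 => ?_
    by_contra hc
    push Not at hc
    exact h ⟨fun _ => y, y1, fun j hj => by omega, y2, fun _ _ => hc⟩
  | succ r ih =>
    intro a ha h
    by_cases hex : ∃ y, a ≤ y ∧ y ≤ N ∧
        ∀ ξ n : ℤ, ξ ≠ 0 → |ξ| ≤ 2 ^ P → T ≤ 2 ^ D * |ξ * m y - n * T|
    · obtain ⟨y1, y2, y3⟩ := Nat.find_spec hex
      set y := Nat.find hex with hy
      have s1 : ∃ b, b ≤ y ∧ y ≤ b + 1 ∧
          SumT (P + H0 + 1) B 2 (2 ^ b * (m b : ℚ) / T - 2 ^ a * (m a : ℚ) / T) := by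
        rcases y1.eq_or_lt with h1 | h1
        · exact ⟨a, y1, by omega, by rw [sub_self]; exact SumT.zero _ _ _⟩
        · refine ⟨y - 1, by omega, by omega, deep_seg hm hm2 hD (by omega) (by omega) (by omega)
            fun z z1 z2 => ?_⟩
          have := Nat.find_min hex (show z < y by omega)
          push Not at this
          exact this z1 (by omega)
      obtain ⟨b, b1, b2, s1⟩ := s1
      have s3 : SumT (P + H0 + 1) B (3 * r + 2) (2 ^ N * (m N : ℚ) / T -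
          2 ^ (min (y + H0) N) * (m (min (y + H0) N) : ℚ) / T) := by
        rcases le_total (y + H0) N with h1 | h1
        · rw [min_eq_left h1]
          refine ih _ h1 ?_
          rintro ⟨R, r1, r2, r3, r4⟩
          refine h ⟨fun j => Nat.casesOn j y R, y1, fun j hj => ?_, r3, fun j hj => ?_⟩
          · rcases j with _ | j
            · exact r1
            · exact r2 j (by omega)
          · rcases j with _ | j
            · exact y3
            · exact r4 j (by omega)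
        · rw [min_eq_right h1, sub_self]
          exact SumT.zero _ _ _
      have s2 := short_seg hm hm2 (B := B) (E := P + H0 + 1) (a := b) (d := min (y + H0) N - b)
        (by omega) (by omega)
      rw [show b + (min (y + H0) N - b) = min (y + H0) N by omega] at s2
      have := (s3.add s2).add s1
      rw [show 3 * (r + 1) + 2 = 3 * r + 2 + 1 + 2 by ring]
      convert this using 1
      ring
    · push Not at hex
      have := (deep_seg hm hm2 hD (E := P + H0 + 1) (by omega) ha hN hex).add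
        (SumT.zero _ _ (3 * (r + 1)))
      rwa [zero_add, add_comm 2] at this

end Chain

/-- D2: a chain of well separated non-deep heights in every column window of height 3k. -/
theorem D2 (r : ℕ) : ∃ ε : ℝ, 0 < ε ∧ ∃ k0 : ℕ, ∀ k : ℕ, k0 ≤ k → ∀ i P D H0 : ℕ,
    k ≤ 4 * i → i ≤ k → (P : ℝ) ≤ ε * k → 2 * P + 3 ≤ D → (H0 : ℝ) ≤ ε * k →
    ∀ m : ℕ → ℤ, (∀ y, 2 * m (y + 1) ≡ m y [ZMOD 3 ^ i]) → (∀ y, 0 < m y ∧ m y ≤ 3 ^ i) →
      (∀ y, ¬ (3 : ℤ) ∣ m y) →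
      ∃ R : ℕ → ℕ, (∀ j, j < r → R j + H0 ≤ R (j + 1)) ∧ R r < 3 * k ∧
        ∀ j, j ≤ r → ∀ ξ n : ℤ, ξ ≠ 0 → |ξ| ≤ 2 ^ P →
          (3 : ℤ) ^ i ≤ 2 ^ D * |ξ * m (R j) - n * 3 ^ i| := by
  obtain ⟨ε, hε, k0, h⟩ := D2core (3 * r + 2)
  obtain ⟨k1, hk1⟩ := exists_nat_ge (3 * (3 * r + 2) / ε)
  refine ⟨ε / (3 * (3 * r + 2)), by positivity, k0 + k1 + 1,
    fun k hk i P D H0 h1 h2 h3 h4 h5 m m1 m2 m3 => ?_⟩
  by_contra hc
  obtain ⟨Ξ, c, n, g1, g2, g3, g4, g5⟩ := (no_chain (H0 := H0) (N := 3 * k - 1) (B := 3 * k) m1 m2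
    h4 (by omega) r 0 (by omega) (by
      rintro ⟨R, -, r2, r3, r4⟩
      exact hc ⟨R, r2, by omega, r4⟩)).clear
  refine h k (by omega) i (3 * k - 1) ((3 * r + 2) * (P + H0 + 1)) h1 h2 (by omega) (by omega) ?_
    c n Ξ (m (3 * k - 1)) (m 0) g3 g4 g1 g2 (m3 _) ?_ ?_ ?_
  · rw [div_le_iff₀ hε] at hk1
    have a1 : (k1 : ℝ) ≤ k := by exact_mod_cast (by omega : k1 ≤ k)
    rw [div_mul_eq_mul_div, le_div_iff₀ (by positivity)] at h3 h5
    push_cast
    nlinarith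
  · rw [abs_of_pos (m2 _).1]; exact (m2 _).2
  · rw [abs_of_pos (m2 _).1]; exact (m2 _).2
  · have : (3 : ℚ) ^ i * ∑ j, (c j : ℚ) * 2 ^ n j =
        Ξ * (m (3 * k - 1) * 2 ^ (3 * k - 1) - m 0) := by
      rw [← g5]
      push_cast
      field_simp
    exact_mod_cast this

end Pool.Agent.Lib.MP_a9e7ee_nt
end

-- part Pool.Agent.Lib.MP_a9e7ee_nt.Cases
section

/-!
Good groups of pieces, for bounded and for large mean.
-/

namespace Pool.Agent.Lib.MP_a9e7ee_nt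

open Finset

/-- The data needed for the final estimate. -/
def Data (a ε Cb : ℝ) (k p T : ℕ) : Prop :=
  ∃ (Ra r H : ℕ) (box : ℕ → Finset (ℕ × ℕ)), 0 < Ra ∧ ε * k ≤ H ∧ 20 ≤ a * r * Ra ∧
    (∀ i, ((box i).card : ℝ) ≤ Cb * k ^ 2) ∧ ∀ l : ℤ, l ≠ 0 → |l| ≤ 2 ^ p → ∀ X : ℕ → ℕ, IsPath X →
      2 * X T ≤ k → ∃ G ⊆ range Ra, Ra ≤ 2 * G.card ∧
        (∀ i ∈ G, 0 < Om (beta k p) (2 ^ (p + 1)) H (box i) l) ∧
        ∑ i ∈ G, -(r * Real.log (Om (beta k p) (2 ^ (p + 1)) H (box i) l)) ≤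
          len (theta k p l) X T

theorem not_deep {k p x y D : ℕ} {ξ : ℤ} (hx : x ≤ k)
    (h : ∀ n : ℤ, (3 : ℤ) ^ (k - x) ≤ 2 ^ D * |ξ * mm (k - x) (y + p + 5) - n * 3 ^ (k - x)|) :
    ¬ Deep (1 / 5) (theta k p ξ) (x, y) D := by
  unfold Deep theta
  rw [beta_eq k p x y hx, ← AddCircle.coe_zsmul, UnitAddCircle.norm_eq, not_lt, zsmul_eq_mul]
  set n := round ((ξ : ℝ) * ((mm (k - x) (y + p + 5) : ℝ) / 3 ^ (k - x)))
  have h1 : ((3 : ℝ)) ^ (k - x) ≤
      2 ^ D * |(ξ : ℝ) * mm (k - x) (y + p + 5) - n * 3 ^ (k - x)| := by exact_mod_cast h n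
  have h3 : (0 : ℝ) < 3 ^ (k - x) := by positivity
  have h2 : (ξ : ℝ) * ((mm (k - x) (y + p + 5) : ℝ) / 3 ^ (k - x)) - n =
      ((ξ : ℝ) * mm (k - x) (y + p + 5) - n * 3 ^ (k - x)) / 3 ^ (k - x) := by field_simp
  rw [h2, abs_div, abs_of_pos h3, div_mul_eq_mul_div, le_div_iff₀ h3]
  linarith

theorem not_three_dvd_mm {i : ℕ} (hi : 1 ≤ i) (s : ℕ) : ¬ (3 : ℤ) ∣ mm i s := by
  intro h
  have h1 := (mm_inv i s).dvd
  have h2 : (3 : ℤ) ∣ 1 - 2 ^ s * mm i s := (dvd_pow_self 3 (by omega)).trans h1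
  have h3 := dvd_add h2 (h.mul_left (2 ^ s))
  norm_num at h3

theorem not_deep_triv {k p x y : ℕ} {l : ℤ} (hx : 2 * x ≤ k) (hp : 8 * (p + 1) ≤ k) (hl0 : l ≠ 0)
    (hl : |l| ≤ 2 ^ (p + 1)) : ¬ Deep (1 / 5) (theta k p l) (x, y) (2 * k) := by
  refine not_deep (by omega) fun n => ?_
  have h1 : l * mm (k - x) (y + p + 5) - n * 3 ^ (k - x) ≠ 0 := by
    intro h
    have h2 : (3 : ℤ) ^ (k - x) ∣ l * mm (k - x) (y + p + 5) := ⟨n, by linarith⟩
    have h3 := Int.prime_three.pow_dvd_of_dvd_mul_right _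
      (not_three_dvd_mm (by omega) (y + p + 5)) h2
    have h4 := Int.le_of_dvd (abs_pos.mpr hl0) ((dvd_abs _ _).mpr h3)
    have h5 : (2 : ℤ) ^ (p + 1) < 3 ^ (k - x) :=
      (pow_lt_pow_left₀ (by norm_num) (by norm_num) (by omega)).trans_le
        (pow_le_pow_right₀ (by norm_num) (by omega))
    omega
  calc (3 : ℤ) ^ (k - x) ≤ 4 ^ (k - x) := pow_le_pow_left₀ (by norm_num) (by norm_num) _
    _ ≤ 4 ^ k := pow_le_pow_right₀ (by norm_num) (by omega)
    _ = 2 ^ (2 * k) * 1 := by rw [pow_mul]; norm_num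
    _ ≤ _ := mul_le_mul_of_nonneg_left (Int.one_le_abs h1) (by positivity)

theorem floor_facts {x : ℝ} (hx : 0 ≤ x) : (⌊x⌋₊ : ℝ) ≤ x ∧ x - 1 ≤ ⌊x⌋₊ :=
  ⟨Nat.floor_le hx, by linarith [Nat.lt_floor_add_one x]⟩

theorem case_bounded {κ μ1 : ℝ} (hκ : 0 < κ) (hμ1 : 0 < μ1) :
    ∃ ε Cb c : ℝ, 0 < ε ∧ 0 < c ∧ ∀ μ : ℝ, 1 < μ → μ ≤ μ1 → ∀ k p : ℕ, 1 ≤ p → (p : ℝ) ≤ c * k →
      Data (μ⁻¹ * κ) ε Cb k p ⌊μ * k / 4⌋₊ := by
  obtain ⟨r, hr⟩ := exists_nat_gt (20 * μ1 / κ)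
  have hr0 : (0 : ℝ) < r := lt_trans (by positivity) hr
  set e : ℝ := 1 / (16 * (2 * r + 1)) with he
  have he0 : 0 < e := by positivity
  have he1 : e ≤ 1 / 16 := one_div_le_one_div_of_le (by norm_num) (by linarith)
  obtain ⟨C, hC⟩ := exists_nat_gt (μ1 + 2)
  obtain ⟨k0, hk0⟩ := D1 C (half_pos he0)
  refine ⟨e / 2, 2 * μ1, min (e / 8) (1 / (k0 + 1)), half_pos he0,
    lt_min (by positivity) (by positivity), fun μ h1 h2 k p hp hpk => ?_⟩
  have hk : (0 : ℝ) ≤ k := by positivity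
  have hp1 : (1 : ℝ) ≤ p := by exact_mod_cast hp
  have p1 : (p : ℝ) ≤ e / 8 * k := hpk.trans (by gcongr; exact min_le_left _ _)
  have p2 : k0 ≤ k := by
    have : (p : ℝ) ≤ 1 / (k0 + 1) * k := hpk.trans (by gcongr; exact min_le_right _ _)
    rw [one_div_mul_eq_div, le_div_iff₀ (by positivity)] at this
    have : (k0 : ℝ) ≤ k := by nlinarith
    exact_mod_cast this
  have p3 : 8 ≤ e * k := by linarith
  have p4 : (128 : ℝ) ≤ k := by nlinarith
  obtain ⟨f1, f2⟩ := floor_facts (show 0 ≤ e * k by positivity)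
  obtain ⟨t1, t2⟩ := floor_facts (show 0 ≤ μ * k / 4 by positivity)
  set D := ⌊e * k⌋₊
  set T := ⌊μ * k / 4⌋₊
  have q1 : 0 < D := by exact_mod_cast (by linarith : (0 : ℝ) < D)
  have q2 : (2 * r + 1) * D < T := by
    have a1 : (2 * r + 1) * (e * k) = k / 16 := by rw [he]; field_simp
    have a2 : (2 * r + 1 : ℝ) * D ≤ (2 * r + 1) * (e * k) := by gcongr
    have a3 : (2 * r + 1 : ℝ) * D < T := by nlinarith
    exact_mod_cast a3
  have q3 : 8 * (p + 1) ≤ k := by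
    have : 8 * ((p : ℝ) + 1) ≤ k := by nlinarith
    exact_mod_cast this
  have q4 : T + p + 5 ≤ C * k := by
    have : (T : ℝ) + p + 5 ≤ C * k := by nlinarith
    exact_mod_cast this
  refine ⟨1, r, D, fun _ => range (k + 1) ×ˢ range T, one_pos, by linarith, ?_, fun _ => ?_, ?_⟩
  · rw [div_lt_iff₀ hκ] at hr
    have : μ1⁻¹ ≤ μ⁻¹ := inv_anti₀ (by linarith) h2
    have a1 : 20 ≤ μ1⁻¹ * (r * κ) := by
      rw [← div_eq_inv_mul, le_div_iff₀ hμ1]; exact hr.le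
    have a2 : μ1⁻¹ * (r * κ) ≤ μ⁻¹ * (r * κ) := by gcongr
    push_cast
    linarith
  · rw [card_product, card_range, card_range]
    push_cast
    have a1 : (T : ℝ) ≤ μ1 * k := by nlinarith
    calc ((k : ℝ) + 1) * T ≤ (2 * k) * (μ1 * k) := by gcongr; linarith
      _ = _ := by ring
  intro l hl0 hl X hX hXT
  have hl' : |l| ≤ 2 ^ (p + 1) := hl.trans (pow_le_pow_right₀ (by norm_num) (by omega))
  have := groups (β := beta k p) (M := 2 ^ (p + 1)) (H := D) (T := T) (y0 := 0) (y1 := T)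
    (box := range (k + 1) ×ˢ range T) hX hl0 hl' q1 (by exact_mod_cast hr0) (fun j => (j + 1) * D)
    (fun j _ => by simp only [add_mul]; omega) q2 le_rfl (fun _ _ _ _ _ _ => Nat.zero_le _)
    (fun j _ σ z _ a2 a3 a4 ξ b1 b2 hrel => by
      have m1 := hX.mono (show σ ≤ z by omega)
      have m2 := hX.mono (show z ≤ T by omega)
      refine not_deep (k := k) (p := p) (x := X σ) (y := z) (D := D) (ξ := ξ) (by omega)
        (fun n => hk0 k p2 _ (z + p + 5) (p + 1) D (by omega) (by omega) (by omega) (by omega) q3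
          (by push_cast; linarith) _ ξ n (mm_inv _ _) b1 b2) ?_
      exact (hrel.deep (theta_sys k p ξ) m1 (by simp only; omega)).mono (by simp only; omega))
    (fun s _ a2 => by
      have := hX.mono (show s ≤ T by omega)
      simp only [mem_product, mem_range]; omega)
  refine ⟨{0}, by simp, by simp, by simpa using this.1, ?_⟩
  rw [sum_singleton, ← Lc_total]
  exact this.2

theorem card_bad_ranges {X : ℕ → ℕ} (hX : IsPath X) (H w n : ℕ) :
    ((range n).filter fun a => ¬ X (a * H + H) ≤ X (a * H) + w).card * (w + 1) ≤ X (n * H) := by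
  induction n with
  | zero => simp
  | succ n ih =>
    have := hX.mono (show n * H ≤ n * H + H by omega)
    rw [range_add_one, filter_insert, add_mul n 1, one_mul]
    split_ifs with h
    · omega
    · rw [card_insert_of_notMem (by simp), add_mul]; omega

theorem sum_Lc_ranges {θ : ℕ × ℕ → UnitAddCircle} {X : ℕ → ℕ} {T : ℕ} (H n : ℕ) :
    ∑ a ∈ range n, Lc θ X T (a * H) (a * H + H) = Lc θ X T 0 (n * H) := by
  induction n with
  | zero => simp [Lc]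
  | succ n ih =>
    rw [sum_range_succ, ih, add_mul, one_mul, ← Lc_add (Nat.zero_le _) (by omega)]

theorem case_large {κ : ℝ} (hκ : 0 < κ) :
    ∃ μ1 ε Cb c : ℝ, 0 < μ1 ∧ 0 < ε ∧ 0 < c ∧ ∀ μ : ℝ, μ1 ≤ μ → ∀ k p : ℕ, 1 ≤ p →
      (p : ℝ) ≤ c * k → Data (μ⁻¹ * κ) ε Cb k p ⌊μ * k / 4⌋₊ := by
  obtain ⟨r, hr⟩ := exists_nat_gt (800 / κ)
  have hr0 : (0 : ℝ) < r := lt_trans (by positivity) hr
  obtain ⟨e2, he2, k0, hk0⟩ := D2 (2 * r)
  set e : ℝ := min e2 1 with he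
  have he0 : 0 < e := lt_min he2 one_pos
  have he1 : e ≤ 1 := min_le_right _ _
  have he3 : e ≤ e2 := min_le_left _ _
  refine ⟨160 / e, e / 2, 10, min (e / 32) (1 / (k0 + 1)), by positivity, half_pos he0,
    lt_min (by positivity) (by positivity), fun μ h1 k p hp hpk => ?_⟩
  rw [div_le_iff₀ he0] at h1
  have hμ : 160 ≤ μ := by
    by_contra h
    have : μ * e ≤ 160 * e := by gcongr; linarith
    have : 0 < μ := by by_contra h'; nlinarith
    nlinarith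
  have hk : (0 : ℝ) ≤ k := by positivity
  have hp1 : (1 : ℝ) ≤ p := by exact_mod_cast hp
  have p1 : (p : ℝ) ≤ e / 32 * k := hpk.trans (by gcongr; exact min_le_left _ _)
  have p2 : k0 ≤ k := by
    have : (p : ℝ) ≤ 1 / (k0 + 1) * k := hpk.trans (by gcongr; exact min_le_right _ _)
    rw [one_div_mul_eq_div, le_div_iff₀ (by positivity)] at this
    have : (k0 : ℝ) ≤ k := by nlinarith
    exact_mod_cast this
  have p3 : 32 ≤ e * k := by linarith
  have p4 : e * k ≤ k := by nlinarith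
  have p5 : e * k ≤ e2 * k := by gcongr
  obtain ⟨f1, f2⟩ := floor_facts (show 0 ≤ e * k / 4 by positivity)
  obtain ⟨t1, t2⟩ := floor_facts (show 0 ≤ μ * k / 4 by positivity)
  have f3 := Nat.lt_floor_add_one (e * k / 4)
  set w := ⌊e * k / 4⌋₊
  set T := ⌊μ * k / 4⌋₊
  have hk1 : 0 < k := by exact_mod_cast (by linarith : (0 : ℝ) < k)
  set Ra := T / (5 * k) with hRa
  have r1 : Ra * (5 * k) ≤ T := Nat.div_mul_le_self _ _
  have r2 : μ / 40 ≤ Ra := by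
    have a1 : T < Ra * (5 * k) + 5 * k := Nat.lt_div_mul_add (by omega)
    have a2 : (T : ℝ) ≤ Ra * (5 * k) + 5 * k := by exact_mod_cast a1.le
    have a3 : μ / 40 * (5 * k) ≤ Ra * (5 * k) := by nlinarith
    exact le_of_mul_le_mul_right a3 (by linarith)
  have q1 : 0 < w := by exact_mod_cast (by linarith : (0 : ℝ) < w)
  have q2 : 4 * w ≤ k := by exact_mod_cast (by linarith : 4 * (w : ℝ) ≤ k)
  have q3 : 8 * (p + 1) ≤ k := by exact_mod_cast (by linarith : 8 * ((p : ℝ) + 1) ≤ k)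
  have q4 : 2 * (p + 1) + 3 ≤ w := by exact_mod_cast (by linarith : 2 * ((p : ℝ) + 1) + 3 ≤ w)
  refine ⟨Ra, r, 3 * w, fun a => range (k + 1) ×ˢ Ico (a * (5 * k)) (a * (5 * k) + 5 * k),
    by exact_mod_cast (by linarith : (0 : ℝ) < Ra), by push_cast; linarith, ?_, fun _ => ?_, ?_⟩
  · rw [div_lt_iff₀ hκ] at hr
    calc (20 : ℝ) = μ⁻¹ * 800 * (μ / 40) := by field_simp; norm_num
      _ ≤ μ⁻¹ * (r * κ) * Ra := by gcongr
      _ = _ := by ring
  · rw [card_product, card_range, Nat.card_Ico, Nat.add_sub_cancel_left]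
    push_cast
    nlinarith
  intro l hl0 hl X hX hXT
  have hl' : |l| ≤ 2 ^ (p + 1) := hl.trans (pow_le_pow_right₀ (by norm_num) (by omega))
  let G := (range Ra).filter fun a => X (a * (5 * k) + 5 * k) ≤ X (a * (5 * k)) + w
  have key : ∀ a ∈ G, 0 < Om (beta k p) (2 ^ (p + 1)) (3 * w)
      (range (k + 1) ×ˢ Ico (a * (5 * k)) (a * (5 * k) + 5 * k)) l ∧
      -(r * Real.log (Om (beta k p) (2 ^ (p + 1)) (3 * w)
        (range (k + 1) ×ˢ Ico (a * (5 * k)) (a * (5 * k) + 5 * k)) l)) ≤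
      Lc (theta k p l) X T (a * (5 * k)) (a * (5 * k) + 5 * k) := by
    intro a ha
    obtain ⟨a1, a2⟩ := mem_filter.mp ha
    have a3 : a * (5 * k) + 5 * k ≤ T := by
      have := Nat.mul_le_mul_right (5 * k) (Nat.succ_le_of_lt (mem_range.mp a1))
      rw [Nat.succ_mul] at this
      omega
    set y := a * (5 * k)
    have a4 := hX.mono (show y ≤ T by omega)
    obtain ⟨R, R1, R2, R3⟩ := hk0 k p2 (k - (X y + w)) (p + 1) w (3 * w) (by omega) (by omega)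
      (by push_cast; linarith) q4 (by push_cast; linarith)
      (fun j => mm (k - (X y + w)) (y + 2 * k + j + p + 5))
      (fun j => by
        rw [show y + 2 * k + (j + 1) + p + 5 = (y + 2 * k + j + p + 5) + 1 by ring, mm_succ]
        exact Int.modEq_iff_dvd.mpr ⟨-(digit (y + 2 * k + j + p + 5) (k - (X y + w)) : ℤ), by ring⟩)
      (fun j => ⟨mm_pos _ _, mm_le _ _⟩) (fun j => not_three_dvd_mm (by omega) _)
    have hmono : ∀ j, j ≤ 2 * r → R j ≤ R (2 * r) := by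
      intro j hj
      induction hj using Nat.decreasingInduction with
      | self => exact le_rfl
      | of_succ j hj ih => have := R1 j hj; omega
    refine groups (β := beta k p) hX hl0 hl' (by omega) (by exact_mod_cast hr0)
      (fun j => y + 2 * k + R j) (fun j hj => by have := R1 j hj; omega) (by omega) a3 ?_ ?_ ?_
    · intro s s1 j _ s2 s3
      by_contra hc
      obtain ⟨-, b1, b2, -⟩ := nxt_spec (St_lt s1) (black_of_long
        (θ := fun P => l • beta k p P) (X := X) (T := T) (by omega))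
      have m1 := hX.mono (show s ≤ nxt (fun P => l • beta k p P) X T s - 1 by omega)
      have m2 := hX.mono (show s ≤ T by omega)
      exact not_deep_triv (x := X s) (by omega) q3 hl0 hl'
        (((b2.mono (by norm_num)).deep (theta_sys k p l) m1 (by simp only; omega)).mono
          (by simp only; omega))
    · intro j hj σ z b1 b2 b3 b4 ξ c1 c2 hrel
      have := hmono j hj
      have m1 := hX.mono (show σ ≤ z by omega)
      have m2 := hX.mono b1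
      have m3 := hX.mono (show σ ≤ y + 5 * k by omega)
      refine not_deep (k := k) (p := p) (x := X y + w) (y := y + 2 * k + R j) (D := w) (ξ := ξ)
        (by omega) (fun n => R3 j hj ξ n c1 c2) ?_
      exact (hrel.deep (theta_sys k p ξ) m1 (by simp only; omega)).move (theta_sys k p ξ)
        (by simp only; omega) (by simp only; omega) (by simp only; omega)
    · intro s b1 b2
      have := hX.mono (show s ≤ T by omega)
      simp only [mem_product, mem_range, mem_Ico]; omega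
  refine ⟨G, filter_subset _ _, ?_, fun a ha => (key a ha).1, ?_⟩
  · have a1 := card_bad_ranges hX (5 * k) w Ra
    have a2 := card_filter_add_card_filter_not (s := range Ra)
      fun a => X (a * (5 * k) + 5 * k) ≤ X (a * (5 * k)) + w
    have a3 := hX.mono r1
    rw [card_range] at a2
    set b := ((range Ra).filter fun a => ¬ X (a * (5 * k) + 5 * k) ≤ X (a * (5 * k)) + w).card
    have a4 : (b : ℝ) * (w + 1) * 2 ≤ k := by exact_mod_cast (by omega : b * (w + 1) * 2 ≤ k)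
    have a5 : (b : ℝ) * (e * k / 4) * 2 ≤ k := le_trans (by gcongr) a4
    have a6 : (b : ℝ) * e ≤ 2 := by
      have hk' : (0 : ℝ) < k := by linarith
      refine le_of_mul_le_mul_right ?_ hk'
      linarith
    have a7 : 2 * (b : ℝ) ≤ Ra := by
      refine le_of_mul_le_mul_right ?_ he0
      nlinarith
    have a8 : 2 * b ≤ Ra := by exact_mod_cast a7
    simp only [G]
    omega
  · refine (sum_le_sum fun a ha => (key a ha).2).trans ?_
    refine (sum_le_sum_of_subset_of_nonneg (filter_subset _ _) fun _ _ _ => Lc_nonneg _ _).trans ?_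
    rw [sum_Lc_ranges, ← Lc_total, Lc_add (Nat.zero_le _) r1]
    linarith [Lc_nonneg (θ := theta k p l) (X := X) (T := T) (Ra * (5 * k)) T]

end Pool.Agent.Lib.MP_a9e7ee_nt
end

-- part Pool.Agent.Lib.MP_a9e7ee_nt.Final
section

/-!
The final estimate.
-/

namespace Pool.Agent.Lib.MP_a9e7ee_nt

open Finset

theorem bad_event {ρ : ℝ} (h0 : 0 ≤ ρ) (h1 : ρ ≤ 1) {k T : ℕ} (hT : ρ * T ≤ k / 4)
    (ω : ℕ → Bool) :
    E ρ 0 T (fun w => if k / 2 + 1 ≤ pos w T then 1 else 0) ω ≤ Real.exp (-(k / 25)) ^ 2 := by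
  have h2 := E_tail h0 h1 (Nat.zero_le T) (by omega : T ≤ 0 + T) (k / 2 + 1) ω
  simp only [pos_zero, zero_add, Nat.sub_zero] at h2
  refine h2.trans ?_
  have h3 : (k : ℝ) ≤ 2 * ((k / 2 + 1 : ℕ) : ℝ) := by exact_mod_cast (by omega)
  have h4 : (2 : ℝ) ^ (k / 2 + 1) = Real.exp (((k / 2 + 1 : ℕ) : ℝ) * Real.log 2) := by
    rw [Real.exp_nat_mul, Real.exp_log two_pos]
  rw [h4, ← Real.exp_sub, ← Real.exp_nat_mul]
  refine Real.exp_le_exp.mpr ?_
  have h5 := Real.log_two_gt_d9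
  have h6 : (0 : ℝ) ≤ k := by positivity
  have h7 : (k : ℝ) / 2 * 0.69 ≤ ((k / 2 + 1 : ℕ) : ℝ) * Real.log 2 := by
    gcongr <;> linarith
  push_cast at h7 ⊢
  linarith

theorem assemble {ρ κ γ ε Cb : ℝ} {k p T : ℕ} (h0 : 0 < ρ) (h1 : ρ ≤ 1) (hκ : 0 < κ) (hγ : 0 < γ)
    (hε : 2 ≤ ε * k) (hT : ρ * T ≤ k / 4) (hd : Data (ρ * κ) ε Cb k p T) (ω : ℕ → Bool)
    (hc : ∀ l : ℤ, E ρ 0 T (fun w => Real.exp (ρ * (κ * len (theta k p l) (pos w) T -
      γ * Wc (theta k p l) (pos w) 0 T))) ω ≤ (6 * k) ^ 2) :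
    ∑ l ∈ (Icc (-(2 : ℤ) ^ p) (2 ^ p)).erase 0, Real.sqrt (E ρ 0 T
      (fun w => Real.exp (-(γ * ρ) * (Wc (theta k p l) (pos w) 0 T : ℝ))) ω) ≤
      2 ^ (p + 1) * Real.exp (-(k / 25)) + 6 * k * (2 / (ε * k)) ^ 4 * (4 * (Cb * k ^ 2)) := by
  obtain ⟨Ra, r, H, box, d1, d2, d3, d4, d5⟩ := hd
  have hH2 : (2 : ℝ) ≤ H := hε.trans d2
  have hH : 0 < H := by exact_mod_cast (by linarith : (0 : ℝ) < H)
  have hRa : (0 : ℝ) < Ra := by exact_mod_cast d1
  set Λ := (Icc (-(2 : ℤ) ^ p) (2 ^ p)).erase 0 with hΛ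
  have hΛ1 : ∀ l ∈ Λ, l ≠ 0 ∧ |l| ≤ 2 ^ p := fun l hl =>
    ⟨ne_of_mem_erase hl, abs_le.mpr (mem_Icc.mp (mem_of_mem_erase hl))⟩
  let O : ℕ → ℤ → ℝ := fun i l => Om (beta k p) (2 ^ (p + 1)) H (box i) l
  let Z : ℤ → ℝ := fun l => 2 / Ra * ∑ i ∈ range Ra, O i l
  have hZ0 : ∀ l, 0 ≤ Z l := fun l =>
    mul_nonneg (by positivity) (sum_nonneg fun i _ => Om_nonneg l)
  have hZ1 : ∀ l, Z l ≤ 2 / (ε * k) := by
    intro l
    have := sum_le_card_nsmul (range Ra) (fun i => O i l) _ fun i _ => Om_le hH l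
    rw [card_range, nsmul_eq_mul] at this
    calc Z l ≤ 2 / Ra * (Ra * (1 / H)) := mul_le_mul_of_nonneg_left this (by positivity)
      _ = 2 / H := by field_simp
      _ ≤ _ := by gcongr
  have hZ2 : ∀ l, Z l ≤ 1 := fun l => (hZ1 l).trans ((div_le_one (by linarith)).mpr hε)
  have hZs : ∑ l ∈ Λ, Z l ≤ 4 * (Cb * k ^ 2) := by
    simp only [Z]
    rw [← mul_sum, sum_comm]
    have := sum_le_card_nsmul (range Ra) (fun i => ∑ l ∈ Λ, O i l) (2 * (Cb * k ^ 2)) fun i _ =>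
      (sum_Om (theta_sys k p) Λ fun l hl => by
        have := (hΛ1 l hl).2; rw [pow_succ]; omega).trans (by linarith [d4 i])
    rw [card_range, nsmul_eq_mul] at this
    refine (mul_le_mul_of_nonneg_left this (by positivity)).trans_eq ?_
    field_simp
    ring
  have hl : ∀ l ∈ Λ, Real.sqrt (E ρ 0 T
      (fun w => Real.exp (-(γ * ρ) * (Wc (theta k p l) (pos w) 0 T : ℝ))) ω) ≤
      Real.exp (-(k / 25)) + 6 * k * (2 / (ε * k)) ^ 4 * Z l := by
    intro l hl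
    have hpt : ∀ w, Agr 0 ω w → Real.exp (-(γ * ρ) * (Wc (theta k p l) (pos w) 0 T : ℝ)) ≤
        (if k / 2 + 1 ≤ pos w T then 1 else 0) + Z l ^ 10 *
          Real.exp (ρ * (κ * len (theta k p l) (pos w) T - γ * Wc (theta k p l) (pos w) 0 T)) := by
      intro w _
      have hz := hZ0 l
      split_ifs with h
      · have : Real.exp (-(γ * ρ) * (Wc (theta k p l) (pos w) 0 T : ℝ)) ≤ 1 :=
          Real.exp_le_one_iff.mpr (by
            have : 0 ≤ γ * ρ * (Wc (theta k p l) (pos w) 0 T : ℝ) := by positivity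
            linarith)
        exact this.trans (le_add_of_nonneg_right (by positivity))
      obtain ⟨G, g1, g2, g3, g4⟩ := d5 l (hΛ1 l hl).1 (hΛ1 l hl).2 (pos w) (pos_isPath w) (by omega)
      have g5 : (Ra : ℝ) ≤ 2 * G.card := by exact_mod_cast g2
      have g6 : ∑ i ∈ G, O i l ≤ ∑ i ∈ range Ra, O i l :=
        sum_le_sum_of_subset_of_nonneg g1 fun i _ _ => Om_nonneg l
      have g7 : 0 < Z l := mul_pos (by positivity) (lt_of_lt_of_le
        (sum_pos g3 (card_pos.mp (by omega))) g6)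
      have g8 : ∑ i ∈ G, Real.log (O i l) ≤ G.card * Real.log (Z l) := by
        have a1 : ∀ i ∈ G, Real.log (O i l) ≤ Real.log (Z l) + (O i l / Z l - 1) := by
          intro i hi
          have := Real.log_le_sub_one_of_pos (div_pos (g3 i hi) g7)
          rw [Real.log_div (g3 i hi).ne' g7.ne'] at this
          linarith
        refine (sum_le_sum a1).trans ?_
        rw [sum_add_distrib, sum_sub_distrib, ← sum_div]
        simp only [sum_const, nsmul_eq_mul, mul_one]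
        have a2 : (∑ i ∈ G, O i l) / Z l ≤ G.card := by
          rw [div_le_iff₀ g7]
          calc ∑ i ∈ G, O i l ≤ ∑ i ∈ range Ra, O i l := g6
            _ = Ra / 2 * Z l := by simp only [Z]; field_simp
            _ ≤ _ := by gcongr; linarith
        linarith
      have g9 : Real.log (Z l) ≤ 0 := Real.log_nonpos hz (hZ2 l)
      rw [sum_neg_distrib, ← mul_sum] at g4
      have g10 : -(r * (G.card * Real.log (Z l))) ≤ len (theta k p l) (pos w) T := by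
        have := mul_le_mul_of_nonneg_left g8 (by positivity : (0 : ℝ) ≤ r)
        linarith
      have g11 : -(10 * Real.log (Z l)) ≤ ρ * κ * len (theta k p l) (pos w) T := by
        have a1 := mul_le_mul_of_nonneg_left g10 (by positivity : 0 ≤ ρ * κ)
        have a2 : 10 ≤ ρ * κ * r * G.card := by
          have := mul_le_mul_of_nonneg_left g5 (by positivity : 0 ≤ ρ * κ * r)
          linarith
        nlinarith
      rw [zero_add, ← Real.exp_log (pow_pos g7 10), ← Real.exp_add, Real.log_pow]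
      refine Real.exp_le_exp.mpr ?_
      push_cast
      linarith
    have a1 := E_mono h0.le h1 (n := T) hpt
    rw [E_add, E_mul] at a1
    have a2 := bad_event h0.le h1 hT ω
    have a3 := mul_le_mul_of_nonneg_left (hc l) (pow_nonneg (hZ0 l) 10)
    have hz := hZ0 l
    have a4 : Z l ^ 5 * (6 * k) ≤ 6 * k * (2 / (ε * k)) ^ 4 * Z l := by
      have := pow_le_pow_left₀ hz (hZ1 l) 4
      calc Z l ^ 5 * (6 * k) = 6 * k * Z l ^ 4 * Z l := by ring
        _ ≤ _ := by gcongr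
    refine le_trans (Real.sqrt_le_iff.mpr ⟨by positivity, ?_⟩)
      (add_le_add_right a4 (Real.exp (-(k / 25))))
    have a5 : 0 ≤ Real.exp (-(k / 25)) * (Z l ^ 5 * (6 * k)) := by positivity
    nlinarith
  refine (sum_le_sum hl).trans ?_
  rw [sum_add_distrib, ← mul_sum, sum_const, nsmul_eq_mul]
  have hcard : (Λ.card : ℝ) ≤ 2 ^ (p + 1) := by
    have a1 : Λ.card = (Icc (-(2 : ℤ) ^ p) (2 ^ p)).card - 1 :=
      card_erase_of_mem (mem_Icc.mpr ⟨by simp, by positivity⟩)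
    have a2 : ((Icc (-(2 : ℤ) ^ p) (2 ^ p)).card : ℤ) = 2 ^ p + 1 - -2 ^ p :=
      Int.card_Icc_of_le _ _ (by have : (0 : ℤ) < 2 ^ p := by positivity
                                 omega)
    have a3 : (Λ.card : ℤ) ≤ 2 ^ (p + 1) := by rw [pow_succ]; omega
    exact_mod_cast a3
  have : 0 < ε * k := by linarith
  gcongr

theorem uniform_of_data {η ε Cb c : ℝ} (hη : 0 < η) (hε : 0 < ε) (hc : 0 < c) :
    ∃ c' : ℝ, 0 < c' ∧ c' ≤ c ∧ ∀ γ κ μ : ℝ, 0 < γ → 0 < κ → 1 < μ → ∀ k p : ℕ, 1 ≤ p →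
      (p : ℝ) ≤ c' * k → Data (μ⁻¹ * κ) ε Cb k p ⌊μ * k / 4⌋₊ → ∀ ω : ℕ → Bool,
      (∀ θ : ℕ × ℕ → UnitAddCircle, Sys θ → ∀ T : ℕ, 0 < T →
        E μ⁻¹ 0 T (fun w => Real.exp (μ⁻¹ * (κ * len θ (pos w) T - γ * Wc θ (pos w) 0 T))) ω ≤
          4 * Real.exp (μ⁻¹ * (1 + Real.log T))) →
      ∑ l ∈ (Icc (-(2 : ℤ) ^ p) (2 ^ p)).erase 0, Real.sqrt (E μ⁻¹ 0 ⌊μ * k / 4⌋₊
        (fun w => Real.exp (-(γ * μ⁻¹) * (Wc (theta k p l) (pos w) 0 ⌊μ * k / 4⌋₊ : ℝ))) ω) ≤ η := by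
  set N : ℝ := 8 + 2 / ε + 200 / η + 768 * |Cb| / (ε ^ 4 * η) with hN
  have n0 : 0 ≤ 2 / ε := by positivity
  have n1 : 0 ≤ 200 / η := by positivity
  have n2 : 0 ≤ 768 * |Cb| / (ε ^ 4 * η) := by positivity
  have hN0 : 0 < N := by linarith
  refine ⟨min c (min (1 / 50) (1 / N)), lt_min hc (lt_min (by norm_num) (by positivity)),
    min_le_left _ _, fun γ κ μ hγ hκ hμ k p hp hpk hd ω hcore => ?_⟩
  have hk0 : (0 : ℝ) ≤ k := by positivity
  have hp1 : (1 : ℝ) ≤ p := by exact_mod_cast hp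
  have p1 : (p : ℝ) ≤ 1 / 50 * k :=
    hpk.trans (by gcongr; exact (min_le_right _ _).trans (min_le_left _ _))
  have p2 : N ≤ k := by
    have : (p : ℝ) ≤ 1 / N * k :=
      hpk.trans (by gcongr; exact (min_le_right _ _).trans (min_le_right _ _))
    rw [one_div_mul_eq_div, le_div_iff₀ hN0] at this
    nlinarith
  have hk : (0 : ℝ) < k := by linarith
  have hμ0 : 0 < μ := by linarith
  have h0 : 0 < μ⁻¹ := inv_pos.mpr hμ0
  have h1 : μ⁻¹ ≤ 1 := inv_le_one_of_one_le₀ hμ.le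
  obtain ⟨t1, t2⟩ := floor_facts (show 0 ≤ μ * k / 4 by positivity)
  set T := ⌊μ * k / 4⌋₊
  have hT0 : (0 : ℝ) < T := by nlinarith
  have e1 : 2 ≤ ε * k := by
    have : 2 / ε ≤ k := by linarith
    rwa [div_le_iff₀' hε] at this
  have e2 : μ⁻¹ * T ≤ k / 4 := by
    rw [← div_eq_inv_mul, div_le_iff₀ hμ0]; linarith
  have e3 : 4 * Real.exp (μ⁻¹ * (1 + Real.log T)) ≤ (6 * k) ^ 2 := by
    have a1 : Real.log T ≤ Real.log μ + Real.log k := by
      rw [← Real.log_mul hμ0.ne' hk.ne']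
      exact Real.log_le_log hT0 (by nlinarith)
    have a2 : μ⁻¹ * (1 + Real.log μ) ≤ 1 := by
      rw [← div_eq_inv_mul, div_le_one hμ0]; linarith [Real.log_le_sub_one_of_pos hμ0]
    have a3 : 0 ≤ Real.log k := Real.log_nonneg (by linarith)
    have a4 : μ⁻¹ * (1 + Real.log T) ≤ 1 + Real.log k := by
      have := mul_le_mul_of_nonneg_left a1 h0.le
      nlinarith
    have a5 := Real.exp_le_exp.mpr a4
    rw [Real.exp_add, Real.exp_log hk] at a5
    have a6 : Real.exp 1 ≤ 3 := by linarith [Real.exp_one_lt_d9]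
    nlinarith
  refine (assemble h0 h1 hκ hγ e1 e2 hd ω fun l =>
    (hcore _ (theta_sys k p l) T (by exact_mod_cast hT0)).trans e3).trans ?_
  have b1 : 2 ^ (p + 1) * Real.exp (-((k : ℝ) / 25)) ≤ η / 2 := by
    have a1 : (2 : ℝ) ^ p ≤ Real.exp (k / 50) := by
      refine le_trans ?_ (Real.exp_le_exp.mpr (by linarith : (p : ℝ) * 1 ≤ k / 50))
      rw [Real.exp_nat_mul]
      gcongr
      linarith [Real.add_one_le_exp 1]
    have a2 : Real.exp (k / 50) * Real.exp (-((k : ℝ) / 25)) * Real.exp (k / 50) = 1 := by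
      rw [← Real.exp_add, ← Real.exp_add, ← Real.exp_zero]; congr 1; ring
    have a3 := Real.add_one_le_exp ((k : ℝ) / 50)
    have a4 : 200 ≤ η * k := by
      have : 200 / η ≤ k := by linarith
      rwa [div_le_iff₀' hη] at this
    have a5 : 2 ^ (p + 1) * Real.exp (-((k : ℝ) / 25)) ≤
        2 * (Real.exp (k / 50) * Real.exp (-((k : ℝ) / 25))) := by
      rw [pow_succ', mul_assoc]; gcongr
    refine a5.trans (le_of_mul_le_mul_right ?_ (Real.exp_pos ((k : ℝ) / 50)))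
    rw [mul_assoc, a2]
    nlinarith
  have b2 : 6 * k * (2 / (ε * k)) ^ 4 * (4 * (Cb * k ^ 2)) ≤ η / 2 := by
    have a1 : 768 * |Cb| ≤ ε ^ 4 * η * k := by
      have : 768 * |Cb| / (ε ^ 4 * η) ≤ k := by linarith
      rwa [div_le_iff₀' (by positivity)] at this
    have a2 : 6 * k * (2 / (ε * k)) ^ 4 * (4 * (Cb * k ^ 2)) = 384 * Cb / (ε ^ 4 * k) := by
      field_simp; ring
    rw [a2, div_le_iff₀ (by positivity)]
    linarith [le_abs_self Cb]
  linarith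

/-- The uniform equidistribution theorem. -/
theorem uniform {δ η : ℝ} (hδ : 0 < δ) (hη : 0 < η) : ∃ c : ℝ, 0 < c ∧ ∀ μ : ℝ, 1 + δ ≤ μ →
    ∀ k p : ℕ, 1 ≤ k → 1 ≤ p → (p : ℝ) ≤ c * k → ∀ n : ℕ, n < 2 ^ p →
      |nu k p μ n - ((2 : ℝ) ^ p)⁻¹| ≤ η * ((2 : ℝ) ^ p)⁻¹ := by
  obtain ⟨c0, hc0, hF⟩ := fourier_reduction
  set q : ℝ := δ / (1 + δ) with hq
  have hq0 : 0 < q := by positivity
  obtain ⟨κ, hκ, hcore⟩ := core hq0 (γ := c0 * q ^ 4) (by positivity)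
  obtain ⟨μ1, ε1, C1, c1, a1, a2, a3, hL⟩ := case_large hκ
  obtain ⟨ε2, C2, c2, b1, b2, hB⟩ := case_bounded hκ a1
  obtain ⟨c3, d1, d2, hU1⟩ := uniform_of_data (Cb := C1) hη a2 a3
  obtain ⟨c4, e1, e2, hU2⟩ := uniform_of_data (Cb := C2) hη b1 b2
  refine ⟨min c3 c4, lt_min d1 e1, fun μ hμ k p hk hp hpk n hn => ?_⟩
  have hμ1 : 1 < μ := by linarith
  have h0 : 0 < μ⁻¹ := inv_pos.mpr (by linarith)
  have h1 : μ⁻¹ ≤ 1 - q := by
    have : 1 - q = (1 + δ)⁻¹ := by rw [hq]; field_simp; ring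
    rw [this]
    exact inv_anti₀ (by linarith) hμ
  have hk0 : (0 : ℝ) ≤ k := by positivity
  have p3 : (p : ℝ) ≤ c3 * k := hpk.trans (by gcongr; exact min_le_left _ _)
  have p4 : (p : ℝ) ≤ c4 * k := hpk.trans (by gcongr; exact min_le_right _ _)
  refine (hF μ hμ1 k p ⌊μ * k / 4⌋₊ n hk hp hn fun _ => false).trans ?_
  rw [mul_comm]
  refine mul_le_mul_of_nonneg_right (le_trans (sum_le_sum fun l _ => Real.sqrt_le_sqrt
    (E_mono h0.le (by linarith) (g := fun w => Real.exp (-(c0 * q ^ 4 * μ⁻¹) *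
      (Wc (theta k p l) (pos w) 0 ⌊μ * k / 4⌋₊ : ℝ))) fun w _ => ?_)) ?_) (by positivity)
  · refine Real.exp_le_exp.mpr (mul_le_mul_of_nonneg_right (neg_le_neg ?_) (by positivity))
    gcongr
    linarith
  · rcases le_total μ1 μ with h | h
    · exact hU1 _ κ μ (by positivity) hκ hμ1 k p hp p3 (hL μ h k p hp (p3.trans (by gcongr))) _
        fun θ hs T hT => hcore _ h0 h1 θ hs T hT _
    · exact hU2 _ κ μ (by positivity) hκ hμ1 k p hp p4 (hB μ hμ1 h k p hp (p4.trans (by gcongr))) _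
        fun θ hs T hT => hcore _ h0 h1 θ hs T hT _

end Pool.Agent.Lib.MP_a9e7ee_nt
end
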