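import Mathlib

/-!
Definitions used in the statement of the result for MP_a9e7ee_nt.
-/

namespace Pool.Agent.Lib.MP_a9e7ee_nt

/-- The binary digit `a_{s,i}` of the 2-adic integer `-3^{-i}`: reduce modulo `2^(s+1)`, take the
representative in `[0, 2^(s+1))` and divide by `2^s`. -/
noncomputable def digit (s i : ℕ) : ℕ :=
  (PadicInt.toZModPow (p := 2) (s + 1) (-(Ring.inverse (3 : ℤ_[2])) ^ i)).val / 2 ^ s

/-- The tail sum `t_i = x_i + ... + x_k`; the index `i : Fin k` stands for `i + 1`. -/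
def tail {k : ℕ} (x : Fin k → ℕ+) (i : Fin k) : ℕ :=
  ∑ j ∈ Finset.univ.filter (fun j => i ≤ j), (x j : ℕ)

/-- The integer `Φ_{k,p}(x_1, ..., x_k)`. -/
noncomputable def Phi (k p : ℕ) (x : Fin k → ℕ+) : ℤ :=
  -3 ^ k * ∑ r ∈ Finset.range p, 2 ^ r * ∑ i : Fin k, (digit (r + tail x i) ((i : ℕ) + 1) : ℤ)

/-- The mass `ν_{k,p,μ}({n})`: the total weight, for independent geometric variables of mean `μ`
on the positive integers, of the tuples with `Φ_{k,p}(x) ≡ n` modulo `2^p`. -/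
noncomputable def nu (k p : ℕ) (μ : ℝ) (n : ℕ) : ℝ :=
  ∑' x : Fin k → ℕ+, if Phi k p x ≡ (n : ℤ) [ZMOD 2 ^ p] then
    ∏ i, μ⁻¹ * (1 - μ⁻¹) ^ ((x i : ℕ) - 1) else 0

end Pool.Agent.Lib.MP_a9e7ee_nt
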